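import Pool.Agent.H366.GF.DivS

/-! # The major arcs: proof -/

set_option autoImplicit false

namespace Pool.Agent.H366.GF.MajN

open Polynomial Pool.Agent.H366.GF

variable {K : Type} [Field K] [Fintype K]

section one

variable {s d N : ℕ} {𝔮 M : K[X]} {v : Fin s → K[X]} {ψ : AddChar K ℂ}

/-- the product of the multiplier and the slots other than `i₀` -/
noncomputable def RR (𝔮 M : K[X]) (v : Fin s → K[X]) (i₀ : Fin s) (y : Fin s → Fin d → K) : K[X] :=
  M * ∏ i ∈ Finset.univ.erase i₀, zz 𝔮 v y i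

lemma prod_update (y : Fin s → Fin d → K) (i₀ : Fin s) (c : Fin d → K) :
    M * ∏ i, zz 𝔮 v (Function.update y i₀ c) i =
      RR 𝔮 M v i₀ y * v i₀ + 𝔮 * (RR 𝔮 M v i₀ y * pol c) := by
  rw [← Finset.mul_prod_erase Finset.univ _ (Finset.mem_univ i₀)]
  have h1 : ∏ i ∈ Finset.univ.erase i₀, zz 𝔮 v (Function.update y i₀ c) i =
      ∏ i ∈ Finset.univ.erase i₀, zz 𝔮 v y i := by
    refine Finset.prod_congr rfl fun i hi => ?_
    rw [zz, zz, Function.update_of_ne (Finset.ne_of_mem_erase hi)]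
  rw [h1, RR, zz, Function.update_self]
  ring

lemma div_aux (h𝔮 : 𝔮.Monic) (A G : K[X]) : (A + 𝔮 * G) /ₘ 𝔮 = A /ₘ 𝔮 + G := by
  have := div_modByMonic_unique (f := A + 𝔮 * G) (A /ₘ 𝔮 + G) (A %ₘ 𝔮) h𝔮
    ⟨by
      have := modByMonic_add_div A 𝔮
      linear_combination this, degree_modByMonic_lt A h𝔮⟩
  exact this.1

open Classical in
lemma norm_inner (h𝔮 : 𝔮.Monic) (hψ : ψ.IsPrimitive) (a : Fin N → K) (y : Fin s → Fin d → K)
    (i₀ : Fin s) :
    ‖ExC (fun c : Fin d → K => ψ (Lf a ((M * ∏ i, zz 𝔮 v (Function.update y i₀ c) i) /ₘ 𝔮)))‖ =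
      if Kl a (RR 𝔮 M v i₀ y) d then 1 else 0 := by
  have h1 : ∀ c : Fin d → K, ψ (Lf a ((M * ∏ i, zz 𝔮 v (Function.update y i₀ c) i) /ₘ 𝔮)) =
      ψ (Lf a ((RR 𝔮 M v i₀ y * v i₀) /ₘ 𝔮)) * ψ (Lf a (RR 𝔮 M v i₀ y * pol c)) := by
    intro c
    rw [prod_update, div_aux h𝔮, map_add, AddChar.map_add_eq_mul]
  simp only [h1]
  rw [ExC_mul_left, norm_mul, norm_psi, one_mul, ExC, sum_char_kl hψ]
  split_ifs with h
  · rw [Fintype.card_fun, Fintype.card_fin, Nat.cast_pow, div_self, norm_one]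
    exact pow_ne_zero _ (by exact_mod_cast Fintype.card_ne_zero)
  · simp

lemma ExC_update {S : Type} [Fintype S] [Nonempty S] (i₀ : Fin s) (f : (Fin s → S) → ℂ) :
    ExC f = ExC (fun z : Fin s → S => ExC (fun c : S => f (Function.update z i₀ c))) := by
  have hc : (Fintype.card S : ℂ) ≠ 0 := by exact_mod_cast Fintype.card_ne_zero
  have h2 : ∑ z : Fin s → S, ∑ c : S, f (Function.update z i₀ c) =
      (Fintype.card S : ℂ) * ∑ z, f z := by
    rw [← Finset.sum_product', Finset.mul_sum]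
    have h3 : ∀ z : Fin s → S, (Fintype.card S : ℂ) * f z = ∑ c : S, f z := by
      intro z; simp
    simp only [h3]
    rw [← Finset.sum_product']
    refine Finset.sum_bij' (fun p _ => (Function.update p.1 i₀ p.2, p.1 i₀))
      (fun p _ => (Function.update p.1 i₀ p.2, p.1 i₀)) ?_ ?_ ?_ ?_ ?_
    · intro p _; simp
    · intro p _; simp
    · intro p _; simp
    · intro p _; simp
    · intro p _; rfl
  rw [ExC, ExC]
  simp only [ExC, ← Finset.sum_div]
  rw [h2, mul_comm, mul_div_assoc, div_self hc, mul_one]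

open Classical in
/-- step (1) -/
lemma Ex_TT_le (h𝔮 : 𝔮.Monic) (hψ : ψ.IsPrimitive) (a : Fin N → K) (V : Finset (Fin s))
    (i₀ : Fin s) (hi : i₀ ∉ V) :
    Ex (fun z : Fin s → Fin d → K => ‖TT ψ 𝔮 M v a V z‖) ≤
      Ex (fun y : Fin s → Fin d → K => if Kl a (RR 𝔮 M v i₀ y) d then (1 : ℝ) else 0) := by
  have hpw := Ex_pw (σ := Fin s) (S := Fin d → K) V (fun y : Fin s → Fin d → K =>
    if Kl a (RR 𝔮 M v i₀ y) d then (1 : ℝ) else 0)
  rw [← hpw]
  refine Ex_mono fun z => ?_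
  rw [TT, ExC_update i₀]
  refine (norm_ExC_le _).trans (Ex_mono fun z' => ?_)
  have h0 : ∀ c : Fin d → K,
      V.piecewise z (Function.update z' i₀ c) = Function.update (V.piecewise z z') i₀ c := by
    intro c
    funext i
    by_cases h : i = i₀
    · subst h
      simp [Finset.piecewise, hi]
    · by_cases hV : i ∈ V <;> simp [Finset.piecewise, hV, h]
  simp only [h0]
  exact le_of_eq (norm_inner (M := M) (v := v) h𝔮 hψ a (V.piecewise z z') i₀)

lemma RR_monic (h𝔮 : 𝔮.Monic) (hM : M.Monic) (hv : SlotOK 𝔮 d v) (i₀ : Fin s)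
    (y : Fin s → Fin d → K) : (RR 𝔮 M v i₀ y).Monic :=
  hM.mul (prod_zz_monic h𝔮 hv y _)

lemma RR_deg (h𝔮 : 𝔮.Monic) (hM : M.Monic) (hv : SlotOK 𝔮 d v) (i₀ : Fin s)
    (y : Fin s → Fin d → K) :
    (RR 𝔮 M v i₀ y).natDegree = M.natDegree + (s - 1) * (d + 𝔮.natDegree) := by
  rw [RR, hM.natDegree_mul (prod_zz_monic h𝔮 hv y _), prod_zz_natDegree h𝔮 hv,
    Finset.card_erase_of_mem (Finset.mem_univ _), Finset.card_univ, Fintype.card_fin]

/-- an irreducible factor of the modulus dividing `RR` divides the multiplier -/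
lemma dvd_M (hv : SlotOK 𝔮 d v) (i₀ : Fin s) (y : Fin s → Fin d → K) {P : K[X]}
    (_hP : Irreducible P) (hq : P ∣ 𝔮) (h : P ∣ RR 𝔮 M v i₀ y) : P ∣ M := by
  have h1 : IsCoprime P (∏ i ∈ Finset.univ.erase i₀, zz 𝔮 v y i) :=
    ((prod_zz_cop hv y _).symm).of_isCoprime_of_dvd_left hq
  exact h1.dvd_of_dvd_mul_right h

end one

section two

variable {c₀ μ : ℕ} {𝔮 : K[X]} {M : Fin 3 → K[X]}

open Classical in
/-- the analysis of one functional -/
lemma one_a (hC : Ctx K c₀ μ 𝔮 M) {s : ℕ} {d : ℕ} {v : Fin 3 → Fin s → K[X]}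
    (hv : ∀ X, SlotOK 𝔮 d (v X)) {N : ℕ}
    (hN : N + 𝔮.natDegree = μ + s * (d + 𝔮.natDegree)) (i₀ : Fin 3 → Fin s)
    (a : Fin N → K) (ha : a ≠ 0) (hr : rk a ≤ d) (y : Fin 3 → Fin s → Fin d → K)
    (hy : ∀ X, Kl a (RR 𝔮 (M X) (v X) (i₀ X) (y X)) d) :
    (Qm a).natDegree = rk a ∧ c₀ ≤ rk a ∧ ∀ X, Ex (fun y : Fin s → Fin d → K =>
      if Kl a (RR 𝔮 (M X) (v X) (i₀ X) y) d then (1 : ℝ) else 0) ≤
        ((2 : ℝ) ^ (rk a / c₀)) ^ (s - 1) / (Fintype.card K : ℝ) ^ rk a := by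
  have h𝔮 := hC.mq
  have hs : 1 ≤ s := by have := (i₀ 0).2; omega
  obtain ⟨s', rfl⟩ : ∃ s', s = s' + 1 := ⟨s - 1, by omega⟩
  have hN' : N = μ + s' * (d + 𝔮.natDegree) + d := by
    have : (s' + 1) * (d + 𝔮.natDegree) = s' * (d + 𝔮.natDegree) + d + 𝔮.natDegree := by ring
    omega
  have hMd : ∀ X, (M X).natDegree ≤ μ := by
    intro X
    fin_cases X
    · exact hC.deg0.le
    · exact hC.deg1.le
    · exact hC.deg2.le
  have hdeg : ∀ X (y : Fin (s' + 1) → Fin d → K), (RR 𝔮 (M X) (v X) (i₀ X) y).natDegree ≤ N - d := by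
    intro X y
    rw [RR_deg h𝔮 (hC.mM X) (hv X)]
    have := hMd X
    simp only [Nat.add_sub_cancel]
    omega
  have hdN : d ≤ N := by omega
  have hdvd : ∀ X (y : Fin (s' + 1) → Fin d → K), Kl a (RR 𝔮 (M X) (v X) (i₀ X) y) d → Qm a ∣ RR 𝔮 (M X) (v X) (i₀ X) y :=
    fun X y h => Qm_dvd a hr hdN (hdeg X y) h
  have hP := Qm_monic a
  have hQr := Qm_deg a
  -- degree of the annihilator
  have hdP : (Qm a).natDegree = rk a := by
    obtain ⟨u, hu, hu0, hud⟩ := Qm_quot a hr hdN (hdeg 0 (y 0)) (hy 0)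
      (RR_monic h𝔮 (hC.mM 0) (hv 0) _ _).ne_zero
    have h1 : (RR 𝔮 (M 0) (v 0) (i₀ 0) (y 0)).natDegree = N - d := by
      rw [RR_deg h𝔮 (hC.mM 0) (hv 0), hC.deg0]
      simp only [Nat.add_sub_cancel]
      omega
    rw [hu, natDegree_mul hP.ne_zero hu0] at h1
    omega
  -- no prime of the annihilator divides the modulus
  have hno : ∀ π : K[X], Irreducible π → π ∣ Qm a → ¬ π ∣ 𝔮 := by
    intro π hπ hπP hπq
    have h0 := dvd_M (hv 0) (i₀ 0) (y 0) hπ hπq (hπP.trans (hdvd 0 _ (hy 0)))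
    have h1 := dvd_M (hv 1) (i₀ 1) (y 1) hπ hπq (hπP.trans (hdvd 1 _ (hy 1)))
    exact hπ.not_isUnit (hC.cop.isUnit_of_dvd' h0 h1)
  have hbig : ∀ π : K[X], Irreducible π → π ∣ Qm a → c₀ ≤ π.natDegree := by
    intro π hπ hπP
    by_contra hlt
    exact hno π hπ hπP (hC.small π hπ (by omega))
  have hcq : IsCoprime (Qm a) 𝔮 := by
    by_contra h
    rw [← isRelPrime_iff_isCoprime] at h
    unfold IsRelPrime at h
    push Not at h
    obtain ⟨g, h1, h2, h3⟩ := h
    have hg0 : g ≠ 0 := by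
      rintro rfl
      exact hP.ne_zero (zero_dvd_iff.1 h1)
    obtain ⟨π, hπ, hπg⟩ := WfDvdMonoid.exists_irreducible_factor h3 hg0
    exact hno π hπ (hπg.trans h1) (hπg.trans h2)
  have hcM : ∀ X, IsCoprime (Qm a) (M X) := by
    intro X
    by_contra h
    rw [← isRelPrime_iff_isCoprime] at h
    unfold IsRelPrime at h
    push Not at h
    obtain ⟨g, h1, h2, h3⟩ := h
    have hg0 : g ≠ 0 := by
      rintro rfl
      exact hP.ne_zero (zero_dvd_iff.1 h1)
    obtain ⟨π, hπ, hπg⟩ := WfDvdMonoid.exists_irreducible_factor h3 hg0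
    have h4 := hbig π hπ (hπg.trans h1)
    have h5 := hC.smooth X π hπ (hπg.trans h2)
    omega
  have hpos : 0 < rk a := by
    by_contra h0
    have h0' : rk a = 0 := by omega
    apply ha
    have h1 : Qm a = 1 := hP.natDegree_eq_zero.1 (by omega)
    apply Lf_eq_zero
    intro g hg
    have := Qm_kl a g (by omega)
    rwa [h1, one_mul] at this
  refine ⟨hdP, ?_, ?_⟩
  · obtain ⟨π, hπ, hπP⟩ := WfDvdMonoid.exists_irreducible_factor (a := Qm a) (by
      intro hu
      have := natDegree_eq_zero_of_isUnit hu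
      omega) hP.ne_zero
    exact (hbig π hπ hπP).trans ((natDegree_le_of_dvd hπP hP.ne_zero).trans hQr)
  · intro X
    have h1 := prob_dvd (Q := Qm a) h𝔮 (hv X) hP hcq (by omega) (Finset.univ.erase (i₀ X))
    have h2 := card_dv_le (M := (1 : K[X])) (F := Qm a) one_ne_zero hP.ne_zero hC.pos hbig
    rw [one_mul, natDegree_one, zero_add, hdP] at h2
    rw [Finset.card_erase_of_mem (Finset.mem_univ _), Finset.card_univ, Fintype.card_fin, hdP] at h1
    refine le_trans (Ex_mono fun y => ?_) (h1.trans ?_)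
    · split_ifs with h3 h4
      · exact le_rfl
      · exact absurd ((hcM X).dvd_of_dvd_mul_left (hdvd X y h3)) h4
      · exact zero_le_one
      · exact le_rfl
    · refine div_le_div_of_nonneg_right ?_ (by positivity)
      refine pow_le_pow_left₀ (Nat.cast_nonneg _) ?_ _
      exact_mod_cast h2

/-- the final numerical sum -/
lemma num_sum (c₀ d : ℕ) :
    ∑ e ∈ Finset.Icc c₀ d, (2 : ℝ) ^ (e / 2) / 2 ^ e ≤ 4 / 2 ^ (c₀ / 2) := by
  -- stronger statement by induction on the length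
  have key : ∀ n c : ℕ, ∑ e ∈ Finset.Ico c (c + n), (2 : ℝ) ^ (e / 2) / 2 ^ e ≤
      (if c % 2 = 0 then 3 else 2) / 2 ^ (c / 2) := by
    intro n
    induction n with
    | zero =>
      intro c
      simp only [Nat.add_zero, Finset.Ico_self, Finset.sum_empty]
      split_ifs <;> positivity
    | succ n ih =>
      intro c
      rw [show c + (n + 1) = (c + 1) + n by ring, Finset.sum_eq_sum_Ico_succ_bot (by omega)]
      have h1 := ih (c + 1)
      rcases Nat.mod_two_eq_zero_or_one c with hc | hc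
      · obtain ⟨k, rfl⟩ : ∃ k, c = 2 * k := ⟨c / 2, by omega⟩
        rw [if_neg (by omega), show (2 * k + 1) / 2 = k by omega] at h1
        rw [if_pos (by omega), show (2 * k) / 2 = k by omega]
        have h2 : (2 : ℝ) ^ k / 2 ^ (2 * k) = 1 / 2 ^ k := by
          rw [two_mul, pow_add]
          field_simp
        rw [h2]
        have h3 : (3 : ℝ) / 2 ^ k = 1 / 2 ^ k + 2 / 2 ^ k := by ring
        rw [h3]
        linarith
      · obtain ⟨k, rfl⟩ : ∃ k, c = 2 * k + 1 := ⟨c / 2, by omega⟩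
        rw [if_pos (by omega), show (2 * k + 1 + 1) / 2 = k + 1 by omega] at h1
        rw [if_neg (by omega), show (2 * k + 1) / 2 = k by omega]
        have h2 : (2 : ℝ) ^ k / 2 ^ (2 * k + 1) = (1 / 2) / 2 ^ k := by
          rw [pow_succ, two_mul, pow_add]
          field_simp
        have h3 : (3 : ℝ) / 2 ^ (k + 1) = (3 / 2) / 2 ^ k := by
          rw [pow_succ]
          field_simp
        rw [h2]
        rw [h3] at h1
        have h4 : (2 : ℝ) / 2 ^ k = (1 / 2) / 2 ^ k + (3 / 2) / 2 ^ k := by ring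
        rw [h4]
        linarith
  have h5 : ∑ e ∈ Finset.Icc c₀ d, (2 : ℝ) ^ (e / 2) / 2 ^ e ≤
      ∑ e ∈ Finset.Ico c₀ (c₀ + (d + 1)), (2 : ℝ) ^ (e / 2) / 2 ^ e := by
    refine Finset.sum_le_sum_of_subset_of_nonneg ?_ fun _ _ _ => by positivity
    intro e he
    rw [Finset.mem_Icc] at he
    rw [Finset.mem_Ico]
    omega
  refine h5.trans ((key _ _).trans ?_)
  refine div_le_div_of_nonneg_right ?_ (by positivity)
  split_ifs <;> norm_num

open Classical in
/-- [MAJ] the contribution of the functionals of rank `1, …, d`. -/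
theorem major {c₀ μ : ℕ} {𝔮 : K[X]} {M : Fin 3 → K[X]} (hC : Ctx K c₀ μ 𝔮 M) {s : ℕ}
    (hc : 6 * s ≤ c₀) {d : ℕ} {v : Fin 3 → Fin s → K[X]} (hv : ∀ X, SlotOK 𝔮 d (v X)) {N : ℕ}
    (hN : N + 𝔮.natDegree = μ + s * (d + 𝔮.natDegree)) (ψ : Fin 3 → AddChar K ℂ)
    (hψ : ∀ X, (ψ X).IsPrimitive) (V : Fin 3 → Finset (Fin s)) (hV : ∀ X, (V X).card < s) :
    ∑ a ∈ Finset.univ.filter (fun a : Fin N → K => a ≠ 0 ∧ rk a ≤ d),
      ∏ X : Fin 3, Ex (fun z : Fin s → Fin d → K => ‖TT (ψ X) 𝔮 (M X) (v X) a (V X) z‖) ≤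
      4 / 2 ^ (c₀ / 2) := by
  have hi : ∀ X, ∃ i, i ∉ V X := by
    intro X
    by_contra h
    push Not at h
    have h1 : V X = Finset.univ := Finset.eq_univ_iff_forall.2 h
    have := hV X
    rw [h1, Finset.card_univ, Fintype.card_fin] at this
    omega
  choose i₀ hi₀ using hi
  have hs : 1 ≤ s := by have := (i₀ 0).2; omega
  have hq2 : (2 : ℝ) ≤ Fintype.card K := by
    exact_mod_cast Fintype.one_lt_card
  set q : ℝ := (Fintype.card K : ℝ) with hq
  have hq0 : 0 < q := by linarith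
  set w : ℕ → ℝ := fun e => (((2 : ℝ) ^ (e / c₀)) ^ (s - 1) / q ^ e) ^ 3 with hw
  have hw0 : ∀ e, 0 ≤ w e := fun e => by rw [hw]; positivity
  have hNdeg : d ≤ N := by
    have : 1 * (d + 𝔮.natDegree) ≤ s * (d + 𝔮.natDegree) := Nat.mul_le_mul_right _ hs
    omega
  -- pointwise bound
  have hpt : ∀ a ∈ Finset.univ.filter (fun a : Fin N → K => a ≠ 0 ∧ rk a ≤ d),
      ∏ X : Fin 3, Ex (fun z : Fin s → Fin d → K => ‖TT (ψ X) 𝔮 (M X) (v X) a (V X) z‖) ≤
      ∑ e ∈ Finset.Icc c₀ d, ∑ c : Fin e → K,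
        if Kl a (X ^ e + pol c) (N - e) then w e else 0 := by
    intro a ha
    rw [Finset.mem_filter] at ha
    obtain ⟨-, ha0, har⟩ := ha
    have hb : ∀ X, Ex (fun z : Fin s → Fin d → K => ‖TT (ψ X) 𝔮 (M X) (v X) a (V X) z‖) ≤
        Ex (fun y : Fin s → Fin d → K =>
          if Kl a (RR 𝔮 (M X) (v X) (i₀ X) y) d then (1 : ℝ) else 0) :=
      fun X => Ex_TT_le hC.mq (hψ X) a (V X) (i₀ X) (hi₀ X)
    have hb0 : ∀ X, 0 ≤ Ex (fun z : Fin s → Fin d → K => ‖TT (ψ X) 𝔮 (M X) (v X) a (V X) z‖) :=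
      fun X => Ex_nonneg fun _ => norm_nonneg _
    have hrhs : 0 ≤ ∑ e ∈ Finset.Icc c₀ d, ∑ c : Fin e → K,
        (if Kl a (X ^ e + pol c) (N - e) then w e else 0) := by
      refine Finset.sum_nonneg fun e _ => Finset.sum_nonneg fun c _ => ?_
      split_ifs
      · exact hw0 e
      · exact le_rfl
    by_cases hy : ∀ X, ∃ y : Fin s → Fin d → K, Kl a (RR 𝔮 (M X) (v X) (i₀ X) y) d
    · choose y hy using hy
      obtain ⟨h1, h2, h3⟩ := one_a hC hv hN i₀ a ha0 har y hy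
      have h4 : ∏ X : Fin 3, Ex (fun z : Fin s → Fin d → K =>
          ‖TT (ψ X) 𝔮 (M X) (v X) a (V X) z‖) ≤ w (rk a) := by
        have h5 : w (rk a) = ∏ _X : Fin 3, ((2 : ℝ) ^ (rk a / c₀)) ^ (s - 1) / q ^ rk a := by
          rw [Finset.prod_const, Finset.card_univ, Fintype.card_fin]
        rw [h5]
        exact Finset.prod_le_prod (fun X _ => hb0 X) fun X _ => (hb X).trans (h3 X)
      refine h4.trans ?_
      -- the annihilator has the form `X ^ e + pol c`
      obtain ⟨c, hcp⟩ : ∃ c : Fin (rk a) → K, pol c = Qm a - X ^ (rk a) := by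
        apply exists_pol
        have hm := Qm_monic a
        have h6 : (Qm a).degree = (rk a : ℕ) := by
          rw [degree_eq_natDegree hm.ne_zero, h1]
        have h7 := degree_sub_lt (p := Qm a) (q := X ^ (rk a)) (by rw [h6, degree_X_pow])
          hm.ne_zero (by rw [hm.leadingCoeff, (monic_X_pow _).leadingCoeff])
        rwa [h6] at h7
      have h8 : Kl a (X ^ (rk a) + pol c) (N - rk a) := by
        rw [hcp, add_sub_cancel]
        exact Qm_kl a
      refine le_trans ?_ (Finset.single_le_sum (f := fun e => ∑ c : Fin e → K,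
        (if Kl a (X ^ e + pol c) (N - e) then w e else 0)) (fun e _ => Finset.sum_nonneg fun c _ => by
          split_ifs
          · exact hw0 e
          · exact le_rfl) (Finset.mem_Icc.2 ⟨h2, har⟩))
      refine le_trans ?_ (Finset.single_le_sum (f := fun c : Fin (rk a) → K =>
        (if Kl a (X ^ (rk a) + pol c) (N - rk a) then w (rk a) else 0)) (fun c _ => by
          split_ifs
          · exact hw0 _
          · exact le_rfl) (Finset.mem_univ c))
      rw [if_pos h8]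
    · push Not at hy
      obtain ⟨X, hX⟩ := hy
      have h1 : Ex (fun z : Fin s → Fin d → K => ‖TT (ψ X) 𝔮 (M X) (v X) a (V X) z‖) = 0 := by
        apply le_antisymm _ (hb0 X)
        refine (hb X).trans (le_of_eq ?_)
        have : (fun y : Fin s → Fin d → K =>
            if Kl a (RR 𝔮 (M X) (v X) (i₀ X) y) d then (1 : ℝ) else 0) = fun _ => 0 := by
          funext y
          rw [if_neg (hX y)]
        rw [this, Ex_const]
      rw [Finset.prod_eq_zero (Finset.mem_univ X) h1]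
      exact hrhs
  refine (Finset.sum_le_sum hpt).trans ?_
  rw [Finset.sum_comm]
  refine le_trans (Finset.sum_le_sum (g := fun e => (2 : ℝ) ^ (e / 2) / 2 ^ e) ?_) (num_sum c₀ d)
  intro e he
  rw [Finset.mem_Icc] at he
  rw [Finset.sum_comm]
  have h1 : ∀ c : Fin e → K, ∑ a ∈ Finset.univ.filter (fun a : Fin N → K => a ≠ 0 ∧ rk a ≤ d),
      (if Kl a (X ^ e + pol c) (N - e) then w e else 0) ≤ q ^ e * w e := by
    intro c
    have hm : (X ^ e + pol c).Monic := monic_X_pow_add (pol_degree_lt c)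
    have hd : (X ^ e + pol c).natDegree = e := by
      rw [natDegree_add_eq_left_of_degree_lt, natDegree_X_pow]
      rw [degree_X_pow]
      exact pol_degree_lt c
    have h2 := card_kl (N := N) hm (by omega)
    rw [hd] at h2
    calc ∑ a ∈ Finset.univ.filter (fun a : Fin N → K => a ≠ 0 ∧ rk a ≤ d),
          (if Kl a (X ^ e + pol c) (N - e) then w e else 0)
        ≤ ∑ a : Fin N → K, (if Kl a (X ^ e + pol c) (N - e) then w e else 0) := by
          refine Finset.sum_le_sum_of_subset_of_nonneg (Finset.filter_subset _ _) fun a _ _ => ?_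
          split_ifs
          · exact hw0 e
          · exact le_rfl
      _ = ((Finset.univ.filter fun b : Fin N → K => Kl b (X ^ e + pol c) (N - e)).card : ℝ) * w e := by
          rw [← Finset.sum_filter, Finset.sum_const, nsmul_eq_mul]
      _ ≤ q ^ e * w e := by
          refine mul_le_mul_of_nonneg_right ?_ (hw0 e)
          rw [hq]
          exact_mod_cast h2
  refine (Finset.sum_le_sum fun c _ => h1 c).trans ?_
  rw [Finset.sum_const, Finset.card_univ, Fintype.card_fun, Fintype.card_fin, nsmul_eq_mul,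
    Nat.cast_pow, ← hq]
  have h3 : q ^ e * (q ^ e * w e) = ((2 : ℝ) ^ (e / c₀)) ^ ((s - 1) * 3) / q ^ e := by
    rw [hw]
    simp only
    rw [div_pow, ← pow_mul (2 ^ (e / c₀) : ℝ) (s - 1) 3]
    field_simp
  rw [h3]
  have h4 : ((2 : ℝ) ^ (e / c₀)) ^ ((s - 1) * 3) ≤ 2 ^ (e / 2) := by
    rw [← pow_mul]
    refine pow_le_pow_right₀ (by norm_num) ?_
    have h5 : e / c₀ * c₀ ≤ e := Nat.div_mul_le_self _ _
    have h6 : e / c₀ * (6 * s) ≤ e / c₀ * c₀ := Nat.mul_le_mul_left _ hc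
    have h7 : e / c₀ * ((s - 1) * 3) ≤ e / c₀ * (3 * s) := Nat.mul_le_mul_left _ (by omega)
    have h8 : 2 * (e / c₀ * (3 * s)) = e / c₀ * (6 * s) := by ring
    omega
  exact div_le_div₀ (by positivity) h4 (by positivity) (pow_le_pow_left₀ (by norm_num) hq2 e)

end two

end Pool.Agent.H366.GF.MajN
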