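import Pool.Agent.H366.GF.Min2

/-! # The analytic input: the circle method identity -/

set_option autoImplicit false

namespace Pool.Agent.H366.GF

open Polynomial

section three

variable {β : Type} [Fintype β]

/-- triples -/
def eq3 (β : Type) : (Fin 3 → β) ≃ β × β × β where
  toFun z := (z 0, z 1, z 2)
  invFun p := ![p.1, p.2.1, p.2.2]
  left_inv z := by
    funext i; fin_cases i <;> rfl
  right_inv p := rfl

lemma Ex3 (F : β → β → β → ℝ) :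
    Ex (fun z : Fin 3 → β => F (z 0) (z 1) (z 2)) =
      Ex (fun x => Ex (fun y => Ex (fun w => F x y w))) := by
  have h1 := Ex_equiv (eq3 β) (fun p : β × β × β => F p.1 p.2.1 p.2.2)
  have h2 : (fun z : Fin 3 → β => F (z 0) (z 1) (z 2)) =
    fun z => (fun p : β × β × β => F p.1 p.2.1 p.2.2) (eq3 β z) := rfl
  rw [h2, h1, Ex_prod]
  congr 1; funext x
  rw [Ex_prod]

lemma ExC3 (F : β → β → β → ℂ) :
    ExC (fun z : Fin 3 → β => F (z 0) (z 1) (z 2)) =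
      ExC (fun x => ExC (fun y => ExC (fun w => F x y w))) := by
  have h1 := ExC_equiv (eq3 β) (fun p : β × β × β => F p.1 p.2.1 p.2.2)
  have h2 : (fun z : Fin 3 → β => F (z 0) (z 1) (z 2)) =
    fun z => (fun p : β × β × β => F p.1 p.2.1 p.2.2) (eq3 β z) := rfl
  rw [h2, h1, L1N.ExC_prod]
  congr 1; funext x
  rw [L1N.ExC_prod]

lemma ExC_mul3 (f g h : β → ℂ) :
    ExC (fun z : Fin 3 → β => f (z 0) * g (z 1) * h (z 2)) = ExC f * ExC g * ExC h := by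
  rw [ExC3 (fun x y w => f x * g y * h w)]
  simp only [ExC_mul_left, ExC_mul_right]

lemma Ex_mul3 (f g h : β → ℝ) :
    Ex (fun z : Fin 3 → β => f (z 0) * g (z 1) * h (z 2)) = Ex f * Ex g * Ex h := by
  rw [Ex3 (fun x y w => f x * g y * h w)]
  simp only [Ex_mul_left, Ex_mul_right]

end three

section pw3

variable {κ σ S : Type} [Fintype κ] [DecidableEq κ] [Fintype σ] [DecidableEq σ] [Fintype S]

/-- the involution -/
def swp3 (V : κ → Finset σ) :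
    ((κ → σ → S) × (κ → σ → S)) ≃ ((κ → σ → S) × (κ → σ → S)) where
  toFun p := (fun X => (V X).piecewise (p.1 X) (p.2 X), fun X => (V X).piecewise (p.2 X) (p.1 X))
  invFun p := (fun X => (V X).piecewise (p.1 X) (p.2 X), fun X => (V X).piecewise (p.2 X) (p.1 X))
  left_inv p := by
    ext X i <;> by_cases h : i ∈ V X <;> simp [Finset.piecewise, h]
  right_inv p := by
    ext X i <;> by_cases h : i ∈ V X <;> simp [Finset.piecewise, h]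

lemma Ex_pw3 [Nonempty S] (V : κ → Finset σ) (f : (κ → σ → S) → ℝ) :
    Ex (fun z : κ → σ → S => Ex (fun z' : κ → σ → S =>
      f (fun X => (V X).piecewise (z X) (z' X)))) = Ex f := by
  rw [← Ex_prod (fun p : (κ → σ → S) × (κ → σ → S) =>
    f (fun X => (V X).piecewise (p.1 X) (p.2 X)))]
  have h1 := Ex_equiv (swp3 V) (fun p : (κ → σ → S) × (κ → σ → S) => f p.1)
  have h2 : (fun p : (κ → σ → S) × (κ → σ → S) => f (fun X => (V X).piecewise (p.1 X) (p.2 X))) =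
    fun p => (fun p : (κ → σ → S) × (κ → σ → S) => f p.1) (swp3 V p) := rfl
  rw [h2, h1, Ex_prod]
  congr 1
  funext z
  exact Ex_const (α := κ → σ → S) (f z)

end pw3

section circle

variable {K : Type} [Field K] [Fintype K]

lemma exists_prim (K : Type) [Field K] [Fintype K] : ∃ ψ : AddChar K ℂ, ψ.IsPrimitive := by
  obtain ⟨ψ, hψ⟩ := (AddChar.exists_apply_ne_zero (α := K) (a := 1)).2 one_ne_zero
  refine ⟨ψ, AddChar.IsPrimitive.of_ne_one ?_⟩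
  rintro rfl
  exact hψ (AddChar.one_apply _)

lemma prim_inv {ψ : AddChar K ℂ} (hψ : ψ.IsPrimitive) : (ψ⁻¹).IsPrimitive := by
  obtain ⟨x, hx⟩ := exists_psi ψ hψ
  refine AddChar.IsPrimitive.of_ne_one ?_
  intro h
  apply hx
  have h1 : ψ⁻¹ (-x) = 1 := by rw [h, AddChar.one_apply]
  rwa [AddChar.inv_apply, neg_neg] at h1

/-- the three characters -/
noncomputable def ps (ψ : AddChar K ℂ) : Fin 3 → AddChar K ℂ := ![ψ, ψ⁻¹, ψ⁻¹]

lemma ps_prim {ψ : AddChar K ℂ} (hψ : ψ.IsPrimitive) (X : Fin 3) : (ps ψ X).IsPrimitive := by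
  fin_cases X
  · exact hψ
  · exact prim_inv hψ
  · exact prim_inv hψ

lemma divByMonic_add {K : Type} [Field K] {𝔮 : K[X]} (h𝔮 : 𝔮.Monic) (A B : K[X]) :
    (A + B) /ₘ 𝔮 = A /ₘ 𝔮 + B /ₘ 𝔮 := by
  have h1 := div_modByMonic_unique (f := A + B) (A /ₘ 𝔮 + B /ₘ 𝔮) (A %ₘ 𝔮 + B %ₘ 𝔮) h𝔮
    ⟨by
      have e1 := modByMonic_add_div A 𝔮
      have e2 := modByMonic_add_div B 𝔮
      linear_combination e1 + e2,
    lt_of_le_of_lt (degree_add_le _ _) (max_lt (degree_modByMonic_lt A h𝔮)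
      (degree_modByMonic_lt B h𝔮))⟩
  exact h1.1

/-- the circle method identity -/
lemma Wt_eq {c₀ μ : ℕ} {𝔮 : K[X]} {M : Fin 3 → K[X]} (hC : Ctx K c₀ μ 𝔮 M) {s d : ℕ}
    {v : Fin 3 → Fin s → K[X]} (hv : ∀ X, SlotOK 𝔮 d (v X))
    (hrel : 𝔮 ∣ M 0 * ∏ i, v 0 i - (M 1 * ∏ i, v 1 i + M 2 * ∏ i, v 2 i)) {N : ℕ}
    (hN : N + 𝔮.natDegree = μ + s * (d + 𝔮.natDegree)) {ψ : AddChar K ℂ}
    (hψ : ψ.IsPrimitive) (z : Fin 3 → Fin s → Fin d → K) :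
    ((Wt N 𝔮 M v z : ℝ) : ℂ) = ∑ a : Fin N → K,
      ps ψ 0 (Lf a ((M 0 * ∏ i, zz 𝔮 (v 0) (z 0) i) /ₘ 𝔮)) *
      ps ψ 1 (Lf a ((M 1 * ∏ i, zz 𝔮 (v 1) (z 1) i) /ₘ 𝔮)) *
      ps ψ 2 (Lf a ((M 2 * ∏ i, zz 𝔮 (v 2) (z 2) i) /ₘ 𝔮)) := by
  classical
  set P : Fin 3 → K[X] := fun X => M X * ∏ i, zz 𝔮 (v X) (z X) i with hP
  have hPm : ∀ X, (P X).Monic := fun X => (hC.mM X).mul (prod_zz_monic hC.mq (hv X) _ _)
  have hPd : ∀ X, (P X).natDegree = (M X).natDegree + s * (d + 𝔮.natDegree) := by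
    intro X
    rw [hP]
    simp only
    rw [(hC.mM X).natDegree_mul (prod_zz_monic hC.mq (hv X) _ _),
      prod_zz_natDegree hC.mq (hv X), Finset.card_univ, Fintype.card_fin]
  obtain ⟨G, hG⟩ : 𝔮 ∣ P 0 - (P 1 + P 2) := by
    obtain ⟨x, hx⟩ := prod_zz_congr (𝔮 := 𝔮) (v := v 0) (z 0) Finset.univ
    obtain ⟨y, hy⟩ := prod_zz_congr (𝔮 := 𝔮) (v := v 1) (z 1) Finset.univ
    obtain ⟨w, hw⟩ := prod_zz_congr (𝔮 := 𝔮) (v := v 2) (z 2) Finset.univ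
    obtain ⟨u, hu⟩ := hrel
    refine ⟨u + M 0 * x - M 1 * y - M 2 * w, ?_⟩
    simp only [hP]
    linear_combination hu + M 0 * hx - M 1 * hy - M 2 * hw
  have hdeg : (P 0 - (P 1 + P 2)).degree < ((N + 𝔮.natDegree : ℕ) : WithBot ℕ) := by
    have e0 : (P 0).degree = ((μ + s * (d + 𝔮.natDegree) : ℕ) : WithBot ℕ) := by
      rw [degree_eq_natDegree (hPm 0).ne_zero, hPd 0, hC.deg0]
    have e1 : (P 1).degree = ((μ + s * (d + 𝔮.natDegree) : ℕ) : WithBot ℕ) := by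
      rw [degree_eq_natDegree (hPm 1).ne_zero, hPd 1, hC.deg1]
    have e2 : (P 2).degree < ((μ + s * (d + 𝔮.natDegree) : ℕ) : WithBot ℕ) := by
      rw [degree_eq_natDegree (hPm 2).ne_zero, hPd 2]
      have := hC.deg2
      exact_mod_cast (by omega)
    rw [hN, ← sub_sub]
    refine lt_of_le_of_lt (degree_sub_le _ _) (max_lt ?_ e2)
    rw [← e0]
    exact degree_sub_lt_left (by rw [e0, e1]) (hPm 0).ne_zero
      (by rw [(hPm 0).leadingCoeff, (hPm 1).leadingCoeff])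
  have hGd : G.degree < (N : WithBot ℕ) := by
    by_cases hG0 : G = 0
    · rw [hG0, degree_zero]; exact WithBot.bot_lt_coe _
    · rw [hG, degree_mul, degree_eq_natDegree hC.mq.ne_zero, degree_eq_natDegree hG0] at hdeg
      rw [degree_eq_natDegree hG0]
      have h1 : 𝔮.natDegree + G.natDegree < N + 𝔮.natDegree := by exact_mod_cast hdeg
      exact_mod_cast (by omega : G.natDegree < N)
  have hterm : ∀ a : Fin N → K, ps ψ 0 (Lf a (P 0 /ₘ 𝔮)) * ps ψ 1 (Lf a (P 1 /ₘ 𝔮)) *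
      ps ψ 2 (Lf a (P 2 /ₘ 𝔮)) = ψ (Lf a G) := by
    intro a
    have h1 : P 0 /ₘ 𝔮 = P 1 /ₘ 𝔮 + P 2 /ₘ 𝔮 + G := by
      have : P 0 = (P 1 + P 2) + 𝔮 * G := by rw [← hG]; ring
      rw [this, MajN.div_aux hC.mq, divByMonic_add hC.mq]
    have e0 : ps ψ 0 = ψ := rfl
    have e1 : ps ψ 1 = ψ⁻¹ := rfl
    have e2 : ps ψ 2 = ψ⁻¹ := rfl
    rw [e0, e1, e2, h1, AddChar.inv_apply, AddChar.inv_apply, ← AddChar.map_add_eq_mul,
      ← AddChar.map_add_eq_mul, map_add (Lf a), map_add (Lf a)]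
    congr 1
    ring
  have hW : Wt N 𝔮 M v z = if G = 0 then (Fintype.card K : ℝ) ^ N else 0 := by
    rw [Wt]
    have : (M 0 * ∏ i, zz 𝔮 (v 0) (z 0) i =
      M 1 * ∏ i, zz 𝔮 (v 1) (z 1) i + M 2 * ∏ i, zz 𝔮 (v 2) (z 2) i) ↔ G = 0 := by
      rw [← sub_eq_zero]
      have h2 : M 0 * ∏ i, zz 𝔮 (v 0) (z 0) i -
        (M 1 * ∏ i, zz 𝔮 (v 1) (z 1) i + M 2 * ∏ i, zz 𝔮 (v 2) (z 2) i) = 𝔮 * G := hG
      rw [h2, mul_eq_zero]
      exact or_iff_right hC.mq.ne_zero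
    by_cases h0 : G = 0
    · rw [if_pos (this.2 h0), if_pos h0]
    · rw [if_neg (fun h => h0 (this.1 h)), if_neg h0]
  rw [hW]
  have h3 := sum_char_arg hψ G hGd
  have h4 : ∑ a : Fin N → K, ps ψ 0 (Lf a (P 0 /ₘ 𝔮)) * ps ψ 1 (Lf a (P 1 /ₘ 𝔮)) *
      ps ψ 2 (Lf a (P 2 /ₘ 𝔮)) = ∑ a : Fin N → K, ψ (Lf a G) :=
    Finset.sum_congr rfl fun a _ => hterm a
  refine Eq.trans ?_ h4.symm
  rw [h3]
  split_ifs <;> push_cast <;> rfl

/-- the averaged weight -/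
noncomputable def AW (N : ℕ) (𝔮 : K[X]) (M : Fin 3 → K[X]) {s d : ℕ} (v : Fin 3 → Fin s → K[X])
    (V : Fin 3 → Finset (Fin s)) (z : Fin 3 → Fin s → Fin d → K) : ℝ :=
  Ex (fun z' : Fin 3 → Fin s → Fin d → K =>
    Wt N 𝔮 M v (fun X => (V X).piecewise (z X) (z' X)))

lemma AW_eq {c₀ μ : ℕ} {𝔮 : K[X]} {M : Fin 3 → K[X]} (hC : Ctx K c₀ μ 𝔮 M) {s d : ℕ}
    {v : Fin 3 → Fin s → K[X]} (hv : ∀ X, SlotOK 𝔮 d (v X))
    (hrel : 𝔮 ∣ M 0 * ∏ i, v 0 i - (M 1 * ∏ i, v 1 i + M 2 * ∏ i, v 2 i)) {N : ℕ}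
    (hN : N + 𝔮.natDegree = μ + s * (d + 𝔮.natDegree)) {ψ : AddChar K ℂ}
    (hψ : ψ.IsPrimitive) (V : Fin 3 → Finset (Fin s)) (z : Fin 3 → Fin s → Fin d → K) :
    ((AW N 𝔮 M v V z : ℝ) : ℂ) = ∑ a : Fin N → K,
      TT (ps ψ 0) 𝔮 (M 0) (v 0) a (V 0) (z 0) * TT (ps ψ 1) 𝔮 (M 1) (v 1) a (V 1) (z 1) *
      TT (ps ψ 2) 𝔮 (M 2) (v 2) a (V 2) (z 2) := by
  rw [AW, Ex_ofReal]
  simp only [Wt_eq hC hv hrel hN hψ]
  rw [ExC_sum]
  refine Finset.sum_congr rfl fun a _ => ?_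
  exact ExC_mul3
    (fun z' : Fin s → Fin d → K =>
      ps ψ 0 (Lf a ((M 0 * ∏ i, zz 𝔮 (v 0) ((V 0).piecewise (z 0) z') i) /ₘ 𝔮)))
    (fun z' : Fin s → Fin d → K =>
      ps ψ 1 (Lf a ((M 1 * ∏ i, zz 𝔮 (v 1) ((V 1).piecewise (z 1) z') i) /ₘ 𝔮)))
    (fun z' : Fin s → Fin d → K =>
      ps ψ 2 (Lf a ((M 2 * ∏ i, zz 𝔮 (v 2) ((V 2).piecewise (z 2) z') i) /ₘ 𝔮)))

lemma TT_zero {s d : ℕ} (ψ : AddChar K ℂ) (𝔮 M : K[X]) (v : Fin s → K[X]) {N : ℕ}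
    (V : Finset (Fin s)) (z : Fin s → Fin d → K) : TT ψ 𝔮 M v (0 : Fin N → K) V z = 1 := by
  rw [TT]
  simp only [Lf_zero_left, AddChar.map_zero_eq_one]
  exact ExC_const 1

lemma rk_zero {N : ℕ} : rk (0 : Fin N → K) = 0 := by
  have : rk (0 : Fin N → K) ≤ 0 :=
    rk_le_of (Q := 1) one_ne_zero (by simp) (fun h _ => Lf_zero_left _)
  omega

end circle

end Pool.Agent.H366.GF
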