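import Pool.Agent.H366.GF.DivS

/-! # The bound for the fibres -/

set_option autoImplicit false

namespace Pool.Agent.H366.GF

/-- bound for the size of the fibres -/
noncomputable def tau (s D c₀ : ℕ) : ℝ := ((2 : ℝ) ^ (s * D / c₀)) ^ s

end Pool.Agent.H366.GF
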