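import Pool.Agent.H366.GF.FinDefs
import Pool.Graph.R_seed8.H39R2.Gon.B

/-! # [FIN] the key vanishing statement implies the duality statement -/

set_option autoImplicit false
set_option linter.unusedSectionVars false
set_option linter.unusedVariables false

namespace Pool.Agent.H366.GF

open Polynomial H39Gon

namespace FinL

open H39Gon.TaskB

section trick

variable {V : Type} [AddCommGroup V] {m : ℕ}
  (Q : MultilinearMap ℤ (fun _ : Fin (m + 1) => V) (V →ₗ[ℤ] ℚ))

/-- the value on the diagonal -/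
def T (u v : V) : ℚ := Q (fun _ => u) v

lemma T_add (u v w : V) : T Q u (v + w) = T Q u v + T Q u w := map_add _ _ _

lemma T_zsmul_right (u : V) (n : ℤ) (v : V) : T Q u (n • v) = n * T Q u v := by
  unfold T
  rw [map_zsmul, zsmul_eq_mul]

lemma T_sub (u v w : V) : T Q u (v - w) = T Q u v - T Q u w := map_sub _ _ _

lemma T_zero_right (u : V) : T Q u 0 = 0 := map_zero _

lemma T_zsmul_left (n : ℤ) (u v : V) : T Q (n • u) v = (n : ℚ) ^ (m + 1) * T Q u v := by
  unfold T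
  have h := Q.map_smul_univ (fun _ => n) (fun _ => u)
  rw [h, LinearMap.smul_apply, zsmul_eq_mul]
  simp

lemma T_zero_left (v : V) : T Q 0 v = 0 := by
  have h := T_zsmul_left Q 0 (0 : V) v
  simpa using h

lemma exists_poly (x y v w : V) : ∃ p : ℚ[X], ∀ i : ℤ,
    T Q (i • x + y) (i • v + w) = p.eval (i : ℚ) := by
  classical
  refine ⟨∑ s : Finset (Fin (m + 1)), X ^ s.card *
    (C (Q (s.piecewise (fun _ => x) (fun _ => y)) v) * X +
      C (Q (s.piecewise (fun _ => x) (fun _ => y)) w)), fun i => ?_⟩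
  have h1 : Q (fun _ => i • x + y) = ∑ s : Finset (Fin (m + 1)),
      i ^ s.card • Q (s.piecewise (fun _ => x) (fun _ => y)) := by
    have h2 := Q.map_add_univ (fun _ => i • x) (fun _ => y)
    have h3 : ((fun _ => i • x) + fun _ => y : Fin (m + 1) → V) = fun _ => i • x + y := rfl
    rw [h3] at h2
    rw [h2]
    refine Finset.sum_congr rfl fun s _ => ?_
    have h4 := Q.map_piecewise_smul (fun _ => i) (s.piecewise (fun _ => x) (fun _ => y)) s
    rw [Finset.prod_const] at h4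
    rw [← h4]
    congr 1
    funext j
    by_cases hj : j ∈ s
    · simp [Finset.piecewise_eq_of_mem, hj]
    · simp [Finset.piecewise_eq_of_notMem, hj]
  unfold T
  rw [h1, LinearMap.sum_apply, eval_finsetSum]
  refine Finset.sum_congr rfl fun s _ => ?_
  rw [LinearMap.smul_apply, map_add, map_zsmul, zsmul_eq_mul, zsmul_eq_mul]
  simp only [eval_mul, eval_pow, eval_X, eval_add, eval_C]
  push_cast
  ring

/-- the polynomial trick -/
lemma trick (x y v w : V) (L : ℕ) (h : ∀ i : ℕ, L ≤ i → T Q ((i : ℤ) • x + y) ((i : ℤ) • v + w) = 0)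
    (i : ℤ) : T Q (i • x + y) (i • v + w) = 0 := by
  obtain ⟨p, hp⟩ := exists_poly Q x y v w
  have hp0 : p = 0 := by
    refine eq_zero_of_infinite_isRoot p ?_
    have h1 : Set.Infinite ((fun i : ℕ => (i : ℚ)) '' Set.Ici L) :=
      (Set.Ici_infinite L).image (Nat.cast_injective.injOn)
    refine h1.mono ?_
    rintro _ ⟨j, hj, rfl⟩
    show p.eval (j : ℚ) = 0
    have h2 := hp j
    rw [h j hj] at h2
    simpa using h2.symm
  rw [hp, hp0, eval_zero]

/-- the trick with a fixed second variable -/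
lemma trick' (x y w : V) (L : ℕ) (h : ∀ i : ℕ, L ≤ i → T Q ((i : ℤ) • x + y) w = 0)
    (i : ℤ) : T Q (i • x + y) w = 0 := by
  have h1 := trick Q x y 0 w L (fun i hi => by rw [smul_zero, zero_add]; exact h i hi) i
  rwa [smul_zero, zero_add] at h1

end trick

lemma abs1 {V : Type} [AddCommGroup V] (a A c C : V) (L : ℤ) :
    a + L • A - (c + L • C) = L • (A - C) + (a - c) := by
  rw [smul_sub]; abel

lemma taut (pa pb pc n e bc : Prop) (h1 : pa → n) (h2 : pb → n) (h3 : pc → n)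
    (hbc : bc ↔ pb ∨ pc) :
    ((pa ∨ (n ∧ ¬ bc ∧ ¬ e)) ∨ (pb ∨ (n ∧ (pb ∨ e)))) ∨ pc ↔ n := by
  tauto

section ab

variable {V : Type} [AddCommGroup V]

lemma abs2 (i n : ℕ) (r : ℕ) (x p : V) : ((i * n : ℕ) : ℤ) • x + (-(r : ℤ)) • p =
    (i : ℤ) • ((n : ℤ) • x) + (r : ℤ) • (-p) := by
  rw [smul_smul, smul_neg, neg_smul]
  push_cast
  rfl

lemma abs3 (t n r : ℤ) (x p : V) : t • (n • x) + (-(n * r)) • (-p) = n • (t • x + r • p) := by
  rw [smul_smul, smul_add, smul_smul, smul_smul, smul_neg, neg_smul, neg_neg, mul_comm t n]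

lemma abs4 (x y z : V) : (-1 : ℤ) • y + (x + z) = x - y + z := by
  rw [neg_one_smul]; abel

lemma abs5 (x y z : V) : y + (x + z) = x + y + z := by abel

lemma abs6 (x y z : V) : x + y - z - (y - z) = x := by abel

lemma abs7 (a b : ℕ) (p x y : V) : (a : ℤ) • p + x - ((b : ℤ) • p + y) =
    x - y + ((a : ℤ) - b) • p := by
  rw [sub_smul]; abel

end ab

section cls

variable {K : Type} [Field K]

/-- the class of a polynomial -/
noncomputable def br (A : K[X]) : UV (RatFunc K) := cl (algebraMap K[X] (RatFunc K) A)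

lemma am_ne {A : K[X]} (hA : A ≠ 0) : algebraMap K[X] (RatFunc K) A ≠ 0 :=
  RatFunc.algebraMap_ne_zero hA

lemma br_mul {A B : K[X]} (hA : A.Monic) (hB : B.Monic) : br (A * B) = br A + br B := by
  unfold br
  rw [map_mul, cl_mul (am_ne hA.ne_zero) (am_ne hB.ne_zero)]

lemma eq_one_of_deg {A : K[X]} (hA : A.Monic) (h : A.natDegree = 0) : A = 1 := by
  by_contra hne
  have := hA.natDegree_pos.2 hne
  omega

lemma br_one : br (1 : K[X]) = 0 := by
  unfold br
  rw [map_one, cl_one]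

lemma br_pow {A : K[X]} (hA : A.Monic) (n : ℕ) : br (A ^ n) = (n : ℤ) • br A := by
  unfold br
  rw [map_pow, cl_pow (am_ne hA.ne_zero), natCast_zsmul]

/-- an irreducible polynomial has a monic associate -/
lemma exists_monic {P : K[X]} (hP : Irreducible P) : ∃ R : K[X], R.Monic ∧ Irreducible R ∧
    R.natDegree = P.natDegree ∧ ∀ F : K[X], P ∣ F ↔ R ∣ F := by
  have hP0 := hP.ne_zero
  have hu : IsUnit (C P.leadingCoeff⁻¹) := by
    rw [isUnit_C]
    exact (inv_ne_zero (leadingCoeff_ne_zero.2 hP0)).isUnit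
  have ha : Associated P (P * C P.leadingCoeff⁻¹) := by
    obtain ⟨u, hu'⟩ := hu
    exact ⟨u, by rw [hu']⟩
  refine ⟨P * C P.leadingCoeff⁻¹, monic_mul_leadingCoeff_inv hP0, ?_, ?_, ?_⟩
  · exact ha.irreducible hP
  · rw [natDegree_mul_C (inv_ne_zero (leadingCoeff_ne_zero.2 hP0))]
  · intro F
    exact ⟨fun h => ha.symm.dvd.trans h, fun h => ha.dvd.trans h⟩

/-- a monic irreducible polynomial which does not divide `F` -/
lemma exists_prime {F : K[X]} (hF : F ≠ 0) : ∃ P : K[X], P.Monic ∧ Irreducible P ∧ ¬ P ∣ F := by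
  have h1 : ¬ IsUnit (X * F + 1) := by
    have hd : (X * F + 1).natDegree = F.natDegree + 1 := by
      rw [natDegree_add_eq_left_of_natDegree_lt]
      · rw [natDegree_X_mul hF]
      · rw [natDegree_X_mul hF, natDegree_one]; omega
    intro h
    have := natDegree_eq_zero_of_isUnit h
    omega
  obtain ⟨g, hg, hgi, hgd⟩ := exists_monic_irreducible_factor _ h1
  refine ⟨g, hg, hgi, fun h => ?_⟩
  have h2 : g ∣ 1 := by
    have h3 : g ∣ X * F := h.mul_left X
    exact (dvd_add_right h3).1 hgd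
  exact hgi.not_isUnit (isUnit_of_dvd_one h2)

lemma dvd_monic {P R : K[X]} (hP : P.Monic) (hPi : Irreducible P) (hR : R.Monic)
    (hRi : Irreducible R) (h : P ∣ R) : P = R :=
  eq_of_monic_of_associated hP hR (hPi.associated_of_dvd hRi h)

lemma dvd_prod {S : Finset K[X]} (hS : ∀ R ∈ S, R.Monic ∧ Irreducible R) {P : K[X]}
    (hP : P.Monic) (hPi : Irreducible P) : P ∣ ∏ R ∈ S, R ↔ P ∈ S := by
  rw [Prime.dvd_finsetProd_iff hPi.prime (fun R => R)]
  constructor
  · rintro ⟨R, hR, h⟩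
    rw [dvd_monic hP hPi (hS R hR).1 (hS R hR).2 h]
    exact hR
  · intro h
    exact ⟨P, h, dvd_rfl⟩

lemma natDegree_pos_of_irr {P : K[X]} (hPi : Irreducible P) : 0 < P.natDegree :=
  hPi.natDegree_pos

lemma finite_primes [Finite K] (c : ℕ) :
    {P : K[X] | P.Monic ∧ Irreducible P ∧ P.natDegree < c}.Finite := by
  have h1 : Function.Injective (fun P : {P : K[X] // P.natDegree < c} =>
      (fun i : Fin c => P.1.coeff i)) := by
    intro P R h
    apply Subtype.ext
    ext n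
    by_cases hn : n < c
    · exact congrFun h ⟨n, hn⟩
    · rw [coeff_eq_zero_of_natDegree_lt (by have := P.2; omega),
        coeff_eq_zero_of_natDegree_lt (by have := R.2; omega)]
  have h2 : Finite {P : K[X] // P.natDegree < c} := Finite.of_injective _ h1
  have h3 : {P : K[X] | P.natDegree < c}.Finite := h2
  exact h3.subset fun P hP => hP.2.2

end cls

section main

variable {K : Type} [Field K] [Finite K] {m : ℕ}
  {Q : MultilinearMap ℤ (fun _ : Fin (m + 1) => UV (RatFunc K)) (UV (RatFunc K) →ₗ[ℤ] ℚ)}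

/-- the conclusion of the key statement -/
def KQ (Q : MultilinearMap ℤ (fun _ : Fin (m + 1) => UV (RatFunc K)) (UV (RatFunc K) →ₗ[ℤ] ℚ))
    (c₁ : ℕ) : Prop :=
  ∀ A B C : K[X], A.Monic → B.Monic → C.Monic →
      IsCoprime A B → IsCoprime A C → IsCoprime B C →
      A.natDegree = B.natDegree → C.natDegree < A.natDegree →
      (∃ c₀ : ℕ, c₁ ≤ c₀ ∧ ∀ P : K[X], Irreducible P → (P ∣ A * B * C ↔ P.natDegree < c₀)) →
      T Q (br A - br C) (br B - br C) = 0

lemma E {c₁ : ℕ} (hK : KQ Q c₁) {a b c : K[X]} (ha : a.Monic) (hb : b.Monic) (hc : c.Monic)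
    (hab : IsCoprime a b) (hac : IsCoprime a c) (hbc : IsCoprime b c)
    (hd : a.natDegree = b.natDegree) : T Q (br a - br c) (br b - br c) = 0 := by
  classical
  have h0 : a * b * c ≠ 0 := mul_ne_zero (mul_ne_zero ha.ne_zero hb.ne_zero) hc.ne_zero
  obtain ⟨P2, hP2m, hP2i, hP2⟩ := exists_prime h0
  obtain ⟨P1, hP1m, hP1i, hP1⟩ := exists_prime (mul_ne_zero h0 hP2m.ne_zero)
  obtain ⟨c0, hc0⟩ : ∃ c0, c0 = c₁ + (a * b * c * P2 * P1).natDegree + 1 := ⟨_, rfl⟩
  have hbig : ∀ F : K[X], F ∣ a * b * c * P2 * P1 → F.natDegree < c0 := by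
    intro F hF
    have := natDegree_le_of_dvd hF (mul_ne_zero (mul_ne_zero h0 hP2m.ne_zero) hP1m.ne_zero)
    omega
  obtain ⟨S, hS⟩ : ∃ S : Finset K[X], ∀ P, P ∈ S ↔ P.Monic ∧ Irreducible P ∧ P.natDegree < c0 :=
    ⟨(finite_primes c0).toFinset, fun P => by rw [Set.Finite.mem_toFinset]; rfl⟩
  have hsub : ∀ (p : K[X] → Prop) [DecidablePred p], ∀ R ∈ S.filter p, R.Monic ∧ Irreducible R := by
    intro p _ R hR
    have := (hS R).1 (Finset.mem_filter.1 hR).1
    exact ⟨this.1, this.2.1⟩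
  have hmon : ∀ (p : K[X] → Prop) [DecidablePred p], (∏ R ∈ S.filter p, R).Monic := by
    intro p _
    exact monic_prod_of_monic _ _ fun R hR => (hsub p R hR).1
  obtain ⟨A1, hA1⟩ : ∃ A1 : K[X], A1 = ∏ R ∈ S.filter (fun P => ¬ P ∣ b * c ∧ P ≠ P2), R := ⟨_, rfl⟩
  obtain ⟨B1, hB1⟩ : ∃ B1 : K[X], B1 = ∏ R ∈ S.filter (fun P => P ∣ b ∨ P = P2), R := ⟨_, rfl⟩
  obtain ⟨C1, hC1⟩ : ∃ C1 : K[X], C1 = ∏ R ∈ S.filter (fun P => P ∣ c), R := ⟨_, rfl⟩
  have mA : A1.Monic := by rw [hA1]; exact hmon _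
  have mB : B1.Monic := by rw [hB1]; exact hmon _
  have mC : C1.Monic := by rw [hC1]; exact hmon _
  have dA : ∀ P : K[X], P.Monic → Irreducible P →
      (P ∣ A1 ↔ P.natDegree < c0 ∧ ¬ P ∣ b * c ∧ P ≠ P2) := by
    intro P hP hPi
    rw [hA1, dvd_prod (hsub _) hP hPi, Finset.mem_filter, hS]
    tauto
  have dB : ∀ P : K[X], P.Monic → Irreducible P →
      (P ∣ B1 ↔ P.natDegree < c0 ∧ (P ∣ b ∨ P = P2)) := by
    intro P hP hPi
    rw [hB1, dvd_prod (hsub _) hP hPi, Finset.mem_filter, hS]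
    tauto
  have dC : ∀ P : K[X], P.Monic → Irreducible P → (P ∣ C1 ↔ P.natDegree < c0 ∧ P ∣ c) := by
    intro P hP hPi
    rw [hC1, dvd_prod (hsub _) hP hPi, Finset.mem_filter, hS]
    tauto
  have hP1d : P1 ∣ A1 := by
    rw [dA P1 hP1m hP1i]
    refine ⟨hbig _ (Dvd.intro_left _ rfl), fun h => hP1 ?_, fun h => hP1 ?_⟩
    · have : P1 ∣ a * (b * c) := h.mul_left a
      rw [← mul_assoc] at this
      exact this.mul_right _
    · rw [h]; exact Dvd.intro_left _ rfl
  have hP2d : P2 ∣ B1 := by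
    rw [dB P2 hP2m hP2i]
    exact ⟨hbig _ ((Dvd.intro_left _ rfl : P2 ∣ a * b * c * P2).mul_right _), Or.inr rfl⟩
  have pA : 1 ≤ A1.natDegree :=
    (natDegree_pos_of_irr hP1i).trans_le (natDegree_le_of_dvd hP1d mA.ne_zero)
  have pB : 1 ≤ B1.natDegree :=
    (natDegree_pos_of_irr hP2i).trans_le (natDegree_le_of_dvd hP2d mB.ne_zero)
  obtain ⟨t, ht⟩ : ∃ t, t = C1.natDegree + 1 := ⟨_, rfl⟩
  obtain ⟨A0, hA0⟩ : ∃ A0, A0 = A1 ^ (t * B1.natDegree) := ⟨_, rfl⟩
  obtain ⟨B0, hB0⟩ : ∃ B0, B0 = B1 ^ (t * A1.natDegree) := ⟨_, rfl⟩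
  have mA0 : A0.Monic := by rw [hA0]; exact mA.pow _
  have mB0 : B0.Monic := by rw [hB0]; exact mB.pow _
  have nA : 0 < t * B1.natDegree := Nat.mul_pos (by omega) (by omega)
  have nB : 0 < t * A1.natDegree := Nat.mul_pos (by omega) (by omega)
  have gA0 : A0.natDegree = t * B1.natDegree * A1.natDegree := by rw [hA0, mA.natDegree_pow]
  have gB0 : B0.natDegree = t * B1.natDegree * A1.natDegree := by
    rw [hB0, mB.natDegree_pow]; ring
  have gAC : C1.natDegree + 1 ≤ A0.natDegree := by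
    rw [gA0, ← ht, mul_assoc]
    exact Nat.le_mul_of_pos_right t (Nat.mul_pos (by omega) (by omega))
  have key := trick Q (br A0 - br C1) (br a - br c) (br B0 - br C1) (br b - br c)
    (c.natDegree + 1) ?_ 0
  · simpa using key
  intro L hL
  have hL0 : L ≠ 0 := by omega
  have m1 : (a * A0 ^ L).Monic := ha.mul (mA0.pow L)
  have m2 : (b * B0 ^ L).Monic := hb.mul (mB0.pow L)
  have m3 : (c * C1 ^ L).Monic := hc.mul (mC.pow L)
  -- divisibility
  have vA : ∀ P : K[X], P.Monic → Irreducible P → (P ∣ a * A0 ^ L ↔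
      P ∣ a ∨ (P.natDegree < c0 ∧ ¬ P ∣ b * c ∧ P ≠ P2)) := by
    intro P hP hPi
    rw [hPi.prime.dvd_mul, hPi.prime.dvd_pow_iff_dvd hL0, hA0,
      hPi.prime.dvd_pow_iff_dvd nA.ne', dA P hP hPi]
  have vB : ∀ P : K[X], P.Monic → Irreducible P → (P ∣ b * B0 ^ L ↔
      P ∣ b ∨ (P.natDegree < c0 ∧ (P ∣ b ∨ P = P2))) := by
    intro P hP hPi
    rw [hPi.prime.dvd_mul, hPi.prime.dvd_pow_iff_dvd hL0, hB0,
      hPi.prime.dvd_pow_iff_dvd nB.ne', dB P hP hPi]
  have vC : ∀ P : K[X], P.Monic → Irreducible P → (P ∣ c * C1 ^ L ↔ P ∣ c) := by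
    intro P hP hPi
    rw [hPi.prime.dvd_mul, hPi.prime.dvd_pow_iff_dvd hL0, dC P hP hPi]
    tauto
  have cop : ∀ {F F' : K[X]}, F.Monic → (∀ P : K[X], P.Monic → Irreducible P → P ∣ F → ¬ P ∣ F') →
      IsCoprime F F' := by
    intro F F' hF h
    refine isCoprime_of_irreducible_dvd (fun h => hF.ne_zero h.1) fun z hz h1 h2 => ?_
    obtain ⟨R, hR, hRi, -, hRd⟩ := exists_monic hz
    exact h R hR hRi ((hRd _).1 h1) ((hRd _).1 h2)
  have nd : ∀ {F F' : K[X]}, IsCoprime F F' → ∀ P : K[X], Irreducible P → P ∣ F → ¬ P ∣ F' := by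
    intro F F' h P hP h1 h2
    exact hP.not_isUnit (h.isUnit_of_dvd' h1 h2)
  have hP2a : ¬ P2 ∣ a := fun h => hP2 ((h.mul_right b).mul_right c)
  have hP2b : ¬ P2 ∣ b := fun h => hP2 ((h.mul_left a).mul_right c)
  have hP2c : ¬ P2 ∣ c := fun h => hP2 (h.mul_left _)
  have cAB : IsCoprime (a * A0 ^ L) (b * B0 ^ L) := by
    refine cop m1 fun P hP hPi h1 h2 => ?_
    rw [vA P hP hPi] at h1
    rw [vB P hP hPi] at h2
    rcases h1 with h1 | ⟨-, h1, h1'⟩
    · rcases h2 with h2 | ⟨-, h2 | h2⟩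
      · exact nd hab P hPi h1 h2
      · exact nd hab P hPi h1 h2
      · rw [h2] at h1; exact hP2a h1
    · rcases h2 with h2 | ⟨-, h2 | h2⟩
      · exact h1 (h2.mul_right c)
      · exact h1 (h2.mul_right c)
      · exact h1' h2
  have cAC : IsCoprime (a * A0 ^ L) (c * C1 ^ L) := by
    refine cop m1 fun P hP hPi h1 h2 => ?_
    rw [vA P hP hPi] at h1
    rw [vC P hP hPi] at h2
    rcases h1 with h1 | ⟨-, h1, h1'⟩
    · exact nd hac P hPi h1 h2
    · exact h1 (h2.mul_left b)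
  have cBC : IsCoprime (b * B0 ^ L) (c * C1 ^ L) := by
    refine cop m2 fun P hP hPi h1 h2 => ?_
    rw [vB P hP hPi] at h1
    rw [vC P hP hPi] at h2
    rcases h1 with h1 | ⟨-, h1 | h1⟩
    · exact nd hbc P hPi h1 h2
    · exact nd hbc P hPi h1 h2
    · rw [h1] at h2; exact hP2c h2
  have g1 : (a * A0 ^ L).natDegree = (b * B0 ^ L).natDegree := by
    rw [ha.natDegree_mul (mA0.pow L), hb.natDegree_mul (mB0.pow L), mA0.natDegree_pow,
      mB0.natDegree_pow, hd, gA0, gB0]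
  have g2 : (c * C1 ^ L).natDegree < (a * A0 ^ L).natDegree := by
    rw [ha.natDegree_mul (mA0.pow L), hc.natDegree_mul (mC.pow L), mA0.natDegree_pow,
      mC.natDegree_pow]
    have := Nat.mul_le_mul_left L gAC
    rw [Nat.mul_add, Nat.mul_one] at this
    omega
  have hkey := hK _ _ _ m1 m2 m3 cAB cAC cBC g1 g2 ⟨c0, by omega, fun P' hP'i => ?_⟩
  · rw [br_mul ha (mA0.pow L), br_mul hb (mB0.pow L), br_mul hc (mC.pow L), br_pow mA0,
      br_pow mB0, br_pow mC] at hkey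
    have e1 : br a + (L : ℤ) • br A0 - (br c + (L : ℤ) • br C1) =
        (L : ℤ) • (br A0 - br C1) + (br a - br c) := abs1 _ _ _ _ _
    have e2 : br b + (L : ℤ) • br B0 - (br c + (L : ℤ) • br C1) =
        (L : ℤ) • (br B0 - br C1) + (br b - br c) := abs1 _ _ _ _ _
    rw [e1, e2] at hkey
    exact hkey
  · obtain ⟨P, hP, hPi, hPn, hPd⟩ := exists_monic hP'i
    rw [hPd, ← hPn, hPi.prime.dvd_mul, hPi.prime.dvd_mul, vA P hP hPi, vB P hP hPi, vC P hP hPi]
    have hPa : P ∣ a → P.natDegree < c0 := fun h =>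
      hbig P ((((h.mul_right b).mul_right c).mul_right P2).mul_right P1)
    have hPb : P ∣ b → P.natDegree < c0 := fun h =>
      hbig P ((((h.mul_left a).mul_right c).mul_right P2).mul_right P1)
    have hPc : P ∣ c → P.natDegree < c0 := fun h =>
      hbig P (((h.mul_left (a * b)).mul_right P2).mul_right P1)
    exact taut _ _ _ _ _ _ hPa hPb hPc hPi.prime.dvd_mul

section steps

variable {c₁ : ℕ} (hK : KQ Q c₁)

include hK

/-- step 2 -/
lemma E2 {x y : K[X]} (hx : x.Monic) (hy : y.Monic) (hxy : IsCoprime x y) :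
    T Q (br x) (br y) = 0 := by
  by_cases hx0 : x.natDegree = 0
  · rw [eq_one_of_deg hx hx0, br_one, T_zero_left]
  by_cases hy0 : y.natDegree = 0
  · rw [eq_one_of_deg hy hy0, br_one, T_zero_right]
  have h := E hK (hx.pow y.natDegree) (hy.pow x.natDegree) monic_one (hxy.pow)
    isCoprime_one_right isCoprime_one_right
    (by rw [hx.natDegree_pow, hy.natDegree_pow, mul_comm])
  rw [br_one, sub_zero, sub_zero, br_pow hx, br_pow hy, T_zsmul_left, T_zsmul_right] at h
  have h1 : ((y.natDegree : ℤ) : ℚ) ≠ 0 := by exact_mod_cast hy0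
  have h2 : ((x.natDegree : ℤ) : ℚ) ≠ 0 := by exact_mod_cast hx0
  rcases mul_eq_zero.1 h with h3 | h3
  · exact absurd h3 (pow_ne_zero _ h1)
  · rcases mul_eq_zero.1 h3 with h4 | h4
    · exact absurd h4 h2
    · exact h4

/-- step 3 -/
lemma E3 {P x z : K[X]} (hP : P.Monic) (hx : x.Monic) (hz : z.Monic) (h1 : IsCoprime x P)
    (h2 : IsCoprime z P) (i j : ℤ) : T Q (i • br x + j • br z) (br P) = 0 := by
  refine trick' Q (br x) (j • br z) (br P) 0 (fun i _ => ?_) i
  rw [add_comm]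
  refine trick' Q (br z) ((i : ℤ) • br x) (br P) 0 (fun j _ => ?_) j
  rw [← br_pow hx, ← br_pow hz, ← br_mul (hz.pow j) (hx.pow i)]
  exact E2 hK ((hz.pow j).mul (hx.pow i)) hP ((h2.pow_left).mul_left h1.pow_left)

/-- step 4 -/
lemma E4 {P x : K[X]} (hP : P.Monic) (hPi : Irreducible P) (hx : x.Monic) (h1 : IsCoprime x P)
    (t r : ℤ) : T Q (t • br x + r • br P) (br P) = 0 := by
  obtain ⟨R, hR, hRi, hRd⟩ := exists_prime (mul_ne_zero hx.ne_zero hP.ne_zero)
  have cxR : IsCoprime x R := ((hRi.coprime_iff_not_dvd).2 fun h => hRd (h.mul_right P)).symm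
  have cPR : IsCoprime P R := ((hRi.coprime_iff_not_dvd).2 fun h => hRd (h.mul_left x)).symm
  have hR0 : R.natDegree ≠ 0 := (natDegree_pos_of_irr hRi).ne'
  have hR0' : ((R.natDegree : ℤ) : ℚ) ≠ 0 := by exact_mod_cast hR0
  -- natural exponents
  have s1 : ∀ i r : ℕ, 1 ≤ r →
      T Q ((i : ℤ) • ((R.natDegree : ℤ) • br x) + (r : ℤ) • (-br P)) (br P) = 0 := by
    intro i r hr
    have h := E hK (hx.pow (i * R.natDegree)) (hR.pow (i * x.natDegree)) (hP.pow r) cxR.pow
      h1.pow cPR.symm.pow (by rw [hx.natDegree_pow, hR.natDegree_pow]; ring)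
    rw [br_pow hx, br_pow hR, br_pow hP, T_sub, T_zsmul_right, T_zsmul_right] at h
    have e1 : (((i * R.natDegree : ℕ) : ℤ)) • br x - (r : ℤ) • br P =
        ((i * R.natDegree : ℕ) : ℤ) • br x + (-(r : ℤ)) • br P := by
      rw [neg_smul, sub_eq_add_neg]
    have e2 : ((i * R.natDegree : ℕ) : ℤ) • br x + (-(r : ℤ)) • br P =
        (i : ℤ) • ((R.natDegree : ℤ) • br x) + (r : ℤ) • (-br P) := abs2 _ _ _ _ _
    rw [e1, E3 hK hR hx hP cxR cPR, mul_zero, zero_sub, neg_eq_zero, mul_eq_zero] at h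
    rw [← e2]
    rcases h with h | h
    · exfalso
      have : (r : ℚ) = 0 := by exact_mod_cast h
      have : r = 0 := by exact_mod_cast this
      omega
    · exact h
  have s2 : ∀ i r : ℤ,
      T Q (i • ((R.natDegree : ℤ) • br x) + r • (-br P)) (br P) = 0 := by
    intro i r
    refine trick' Q _ _ _ 0 (fun i _ => ?_) i
    rw [add_comm]
    refine trick' Q _ _ _ 1 (fun r hr => ?_) r
    rw [add_comm]
    exact s1 i r hr
  have s3 := s2 t (-((R.natDegree : ℤ) * r))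
  have e3 : t • ((R.natDegree : ℤ) • br x) + (-((R.natDegree : ℤ) * r)) • (-br P) =
      (R.natDegree : ℤ) • (t • br x + r • br P) := abs3 _ _ _ _ _
  rw [e3, T_zsmul_left] at s3
  rcases mul_eq_zero.1 s3 with h | h
  · exact absurd h (pow_ne_zero _ hR0')
  · exact h

/-- step 5 -/
lemma E5 {P x1 x2 : K[X]} (hP : P.Monic) (hPi : Irreducible P) (hx1 : x1.Monic) (hx2 : x2.Monic)
    (h1 : IsCoprime x1 P) (h2 : IsCoprime x2 P) (r : ℤ) :
    T Q (br x1 - br x2 + r • br P) (br P) = 0 := by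
  have h := trick' Q (br x2) (br x1 + r • br P) (br P) 0 (fun j _ => ?_) (-1)
  · have e : (-1 : ℤ) • br x2 + (br x1 + r • br P) = br x1 - br x2 + r • br P := abs4 _ _ _
    rwa [e] at h
  · have h3 := E4 hK hP hPi (hx1.mul (hx2.pow j)) (h1.mul_left h2.pow_left) 1 r
    rw [one_smul, br_mul hx1 (hx2.pow j), br_pow hx2] at h3
    have e : (j : ℤ) • br x2 + (br x1 + r • br P) = br x1 + (j : ℤ) • br x2 + r • br P :=
      abs5 _ _ _
    rw [e]
    exact h3

omit hK in
lemma constTors : ConstTors K := by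
  intro c hc
  have := Fintype.ofFinite K
  have h1 : 0 < Fintype.card K - 1 := by
    have := Fintype.one_lt_card (α := K)
    omega
  exact ⟨Fintype.card K - 1, h1, FiniteField.pow_card_sub_one_eq_one c hc⟩

omit hK in
/-- every class is, up to torsion, a difference of classes of monic polynomials -/
lemma decomp2 (u : UV (RatFunc K)) : ∃ n d : K[X], n.Monic ∧ d.Monic ∧ Tors (u - (br n - br d)) := by
  obtain ⟨f, hf, rfl⟩ := exists_cl u
  have hn : f.num ≠ 0 := by rwa [Ne, RatFunc.num_eq_zero_iff]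
  have hl : f.num.leadingCoeff ≠ 0 := leadingCoeff_ne_zero.2 hn
  refine ⟨f.num * C f.num.leadingCoeff⁻¹, f.denom, monic_mul_leadingCoeff_inv hn,
    RatFunc.monic_denom f, ?_⟩
  have h1 : f = RatFunc.C f.num.leadingCoeff *
      algebraMap K[X] (RatFunc K) (f.num * C f.num.leadingCoeff⁻¹) /
        algebraMap K[X] (RatFunc K) f.denom := by
    rw [map_mul, RatFunc.algebraMap_C, mul_comm (algebraMap K[X] (RatFunc K) f.num), ← mul_assoc,
      ← map_mul, mul_inv_cancel₀ hl, map_one, one_mul, RatFunc.num_div_denom]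
  have hC : RatFunc.C f.num.leadingCoeff ≠ 0 := by
    rw [Ne, map_eq_zero]; exact hl
  have hm := (monic_mul_leadingCoeff_inv hn).ne_zero
  have h2 : cl f = cl (RatFunc.C f.num.leadingCoeff) + br (f.num * C f.num.leadingCoeff⁻¹) -
      br f.denom := by
    conv_lhs => rw [h1]
    rw [cl_div (mul_ne_zero hC (am_ne hm)) (am_ne (RatFunc.denom_ne_zero f)),
      cl_mul hC (am_ne hm)]
    rfl
  rw [h2]
  have h3 := tors_C (constTors (K := K)) _ hl
  convert h3 using 1
  exact abs6 _ _ _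

omit hK in
/-- removing the powers of a prime -/
lemma remove {P n : K[X]} (hP : P.Monic) (hPi : Irreducible P) (hn : n.Monic) :
    ∃ (a : ℕ) (x : K[X]), x.Monic ∧ IsCoprime x P ∧ n = P ^ a * x := by
  have hf : FiniteMultiplicity P n := FiniteMultiplicity.of_prime_left hPi.prime hn.ne_zero
  obtain ⟨x, hx, hxd⟩ := hf.exists_eq_pow_mul_and_not_dvd
  refine ⟨multiplicity P n, x, ?_, ((hPi.coprime_iff_not_dvd).2 hxd).symm, hx⟩
  refine Monic.of_mul_monic_left (hP.pow (multiplicity P n)) ?_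
  rw [← hx]
  exact hn

/-- step 6 -/
lemma E6 {P : K[X]} (hP : P.Monic) (hPi : Irreducible P) (u : UV (RatFunc K)) :
    T Q u (br P) = 0 := by
  obtain ⟨n, d, hn, hd, ht⟩ := decomp2 u
  obtain ⟨a, x1, hx1, c1, e1⟩ := remove hP hPi hn
  obtain ⟨b, x2, hx2, c2, e2⟩ := remove hP hPi hd
  have h1 := E5 hK hP hPi hx1 hx2 c1 c2 ((a : ℤ) - b)
  have e3 : br n - br d = br x1 - br x2 + ((a : ℤ) - b) • br P := by
    rw [e1, e2, br_mul (hP.pow a) hx1, br_mul (hP.pow b) hx2, br_pow hP, br_pow hP]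
    exact abs7 _ _ _ _ _
  rw [e3] at ht
  have h2 := Q_eq_of_tors Q u _ (br P) (br P) ht (by rw [sub_self]; exact Tors.zero)
  exact h2.trans h1

/-- step 7 -/
lemma E7 (u : UV (RatFunc K)) : ∀ (k : ℕ) (n : K[X]), n.Monic → n.natDegree ≤ k →
    T Q u (br n) = 0 := by
  intro k
  induction k with
  | zero =>
    intro n hn hk
    have h0 : n.natDegree = 0 := by omega
    rw [eq_one_of_deg hn h0, br_one, T_zero_right]
  | succ k ih =>
    intro n hn hk
    by_cases h0 : n.natDegree = 0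
    · rw [eq_one_of_deg hn h0, br_one, T_zero_right]
    obtain ⟨P, hP, hPi, x, hx⟩ := exists_monic_irreducible_factor n (fun h => h0
      (natDegree_eq_zero_of_isUnit h))
    have hxm : x.Monic := Monic.of_mul_monic_left hP (by rw [← hx]; exact hn)
    have hd := natDegree_pos_of_irr hPi
    have hdn : n.natDegree = P.natDegree + x.natDegree := by rw [hx, hP.natDegree_mul hxm]
    rw [hx, br_mul hP hxm, T_add, E6 hK hP hPi u, ih x hxm (by omega), add_zero]

lemma E8 (u v : UV (RatFunc K)) : Q (fun _ => u) v = 0 := by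
  obtain ⟨n, d, hn, hd, ht⟩ := decomp2 v
  have h1 := Q_eq_of_tors Q u u v _ (by rw [sub_self]; exact Tors.zero) ht
  rw [h1]
  show T Q u (br n - br d) = 0
  rw [T_sub, E7 hK u _ n hn le_rfl, E7 hK u _ d hd le_rfl, sub_zero]

end steps

end main

end FinL

theorem FIN (K : Type) [Field K] [Finite K] (m : ℕ) (h : KEY K m) : SpanDual (RatFunc K) m := by
  intro Q hQ s v
  obtain ⟨c₁, hc⟩ := h Q hQ
  exact FinL.E8 (c₁ := c₁) hc s v

end Pool.Agent.H366.GF
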