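import Pool.Agent.H366.GF.Span
import Pool.Graph.R_seed8.TH358.GP.Cls
import Pool.Graph.R_pool_sql_team_seeded_1e53cb71.Helper70K9.GC.LocRat
import Pool.Graph.R_pool_sql_team_seeded_1e53cb71.Helper70K9.GC.Perf
import Pool.Graph.R_seed8.H39R2.GonP.Bridge

/-! # Fields which are locally rational function fields over finite fields -/

set_option autoImplicit false

namespace Pool.Agent.H366.GF

open Polynomial H39Gon Pool.Agent.Helper70K9.GC Pool.Agent.TH358.GP

/-- every finite subset of `F` is contained in a subfield isomorphic to `k(x)`, `k` finite -/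
def LocRat (F : Type) [Field F] : Prop :=
  ∀ s : Finset F, ∃ (k : Type) (_ : Field k) (_ : Finite k) (φ : RatFunc k →+* F),
    ∀ x ∈ s, ∃ y, φ y = x

lemma exists_lift {k : Type} [Field k] (L : Subfield k) (f : k[X]) (h : ∀ n, f.coeff n ∈ L) :
    ∃ g : L[X], g.map L.subtype = f := by
  have h1 : f ∈ Polynomial.lifts L.subtype := by
    rw [Polynomial.lifts_iff_coeff_lifts]
    intro n
    exact ⟨⟨f.coeff n, h n⟩, rfl⟩
  obtain ⟨g, hg⟩ := (Polynomial.mem_lifts f).1 h1
  exact ⟨g, hg⟩

theorem locRat_ratFunc (p : ℕ) [Fact p.Prime] (k : Type) [Field k] [Algebra (ZMod p) k]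
    [Algebra.IsAlgebraic (ZMod p) k] : LocRat (RatFunc k) := by
  classical
  intro s
  set T : Finset k := s.biUnion (fun f => f.num.coeffs ∪ f.denom.coeffs) with hT
  have h1 : FiniteDimensional (ZMod p) (IntermediateField.adjoin (ZMod p) (T : Set k)) :=
    IntermediateField.finiteDimensional_adjoin
      (fun x _ => (Algebra.IsAlgebraic.isAlgebraic x).isIntegral)
  have h2 : Finite (IntermediateField.adjoin (ZMod p) (T : Set k)) :=
    Module.finite_of_finite (ZMod p)
  set L : Subfield k := (IntermediateField.adjoin (ZMod p) (T : Set k)).toSubfield with hL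
  have hfin : Finite L := h2
  have hTL : ∀ x ∈ T, x ∈ L := fun x hx =>
    IntermediateField.subset_adjoin (ZMod p) (T : Set k) hx
  refine ⟨L, inferInstance, hfin, rmT L.subtype, fun f hf => ?_⟩
  have hn : ∀ n, f.num.coeff n ∈ L := by
    intro n
    by_cases h0 : f.num.coeff n = 0
    · rw [h0]; exact L.zero_mem
    · apply hTL
      rw [hT, Finset.mem_biUnion]
      exact ⟨f, hf, Finset.mem_union_left _ (Polynomial.coeff_mem_coeffs h0)⟩
  have hd : ∀ n, f.denom.coeff n ∈ L := by
    intro n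
    by_cases h0 : f.denom.coeff n = 0
    · rw [h0]; exact L.zero_mem
    · apply hTL
      rw [hT, Finset.mem_biUnion]
      exact ⟨f, hf, Finset.mem_union_right _ (Polynomial.coeff_mem_coeffs h0)⟩
  obtain ⟨a, ha⟩ := exists_lift L f.num hn
  obtain ⟨b, hb⟩ := exists_lift L f.denom hd
  refine ⟨algebraMap L[X] (RatFunc L) a / algebraMap L[X] (RatFunc L) b, ?_⟩
  rw [rmT_div, ha, hb, RatFunc.num_div_denom]

theorem evS_finite (k : Type) [Field k] [Finite k] : EvS (RatFunc k) := by
  obtain ⟨p, hp⟩ := CharP.exists k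
  have hp' : p.Prime := (CharP.char_is_prime_or_zero k p).resolve_right (by
    rintro rfl
    haveI := CharP.charP_to_charZero k
    exact not_finite k)
  haveI : Fact p.Prime := ⟨hp'⟩
  letI := ZMod.algebra k p
  exact evS_ratFunc' p k

theorem locRat_acyclic (F : Type) [Field F] (h : LocRat F) :
    Nonempty (Differentials F) ∧ ∀ D : Differentials F, D.Acyclic := by
  have hF : EvS F := by
    apply evS_union
    intro s
    obtain ⟨k, i1, i2, φ, hφ⟩ := h s
    exact ⟨RatFunc k, inferInstance, φ, evS_finite k, hφ⟩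
  have hsd : ∀ m, SpanDual F m := by
    intro m
    apply spanDual_union
    intro s
    obtain ⟨k, i1, i2, φ, hφ⟩ := h s
    exact ⟨RatFunc k, inferInstance, φ, span_finite k m, hφ⟩
  exact ⟨exists_D hF, acyclic_of hF hsd⟩

/-- passing to larger fields -/
theorem locRat_comp {F : Type} [Field F] (h : ∀ s : Finset F, ∃ (F₀ : Type) (_ : Field F₀)
    (_ : LocRat F₀) (φ : F₀ →+* F), ∀ x ∈ s, ∃ y, φ y = x) : LocRat F := by
  classical
  intro s
  obtain ⟨F₀, i₀, h₀, φ, hφ⟩ := h s
  choose! g hg using hφ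
  obtain ⟨k, i1, i2, φ', hφ'⟩ := h₀ (s.image g)
  refine ⟨k, i1, i2, φ.comp φ', fun x hx => ?_⟩
  obtain ⟨y, hy⟩ := hφ' (g x) (Finset.mem_image_of_mem g hx)
  exact ⟨y, by rw [RingHom.comp_apply, hy, hg x hx]⟩

theorem locRat_perf (p : ℕ) [Fact p.Prime] (F : Type) [Field F] [CharP F p] (h : LocRat F) :
    LocRat (PerfectClosure F p) := by
  apply locRat_comp
  intro s
  obtain ⟨n, hn⟩ := perf_mem F p s
  exact ⟨F, inferInstance, h, rootMap F p n, hn⟩

end Pool.Agent.H366.GF
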