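import Pool.Agent.H366.GF.Key2

/-! # The key statement from the contraction theorem and the analytic input -/

set_option autoImplicit false

namespace Pool.Agent.H366.GF

open Polynomial H39Gon

section conv

lemma conv {s : ℕ} {S : Type} [Fintype S] [Nonempty S] (W : (Fin 3 → Fin s → S) → ℝ)
    (V : Finset (Fin 3 × Fin s)) (ε : ℝ)
    (h : Ex (fun z : Fin 3 → Fin s → S => |Ex (fun z' : Fin 3 → Fin s → S =>
      W (fun X => (Finset.univ.filter fun i => (X, i) ∈ V).piecewise (z X) (z' X))) - 1|) ≤ ε) :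
    ∑ z : Fin 3 × Fin s → S, |(∑ z' : Fin 3 × Fin s → S,
      W (fun X i => V.piecewise z z' (X, i))) / (Fintype.card (Fin 3 × Fin s → S) : ℝ) - 1| ≤
      ε * (Fintype.card (Fin 3 × Fin s → S) : ℝ) := by
  have e1 := Ex_equiv (Equiv.curry (Fin 3) (Fin s) S) (fun z =>
    |Ex (fun z' : Fin 3 → Fin s → S => 
      W (fun X => (Finset.univ.filter fun i => (X, i) ∈ V).piecewise (z X) (z' X))) - 1|)
  rw [← e1] at h
  rw [Ex, div_le_iff₀ (by exact_mod_cast Fintype.card_pos)] at h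
  refine le_trans (le_of_eq ?_) h
  refine Finset.sum_congr rfl fun z _ => ?_
  have e2 := Ex_equiv (Equiv.curry (Fin 3) (Fin s) S) (fun z' =>
    W (fun X => (Finset.univ.filter fun i => (X, i) ∈ V).piecewise
      (Equiv.curry (Fin 3) (Fin s) S z X) (z' X)))
  rw [← e2, Ex]
  have e3 : ∀ z' : Fin 3 × Fin s → S, (fun X i => V.piecewise z z' (X, i)) =
      (fun X => (Finset.univ.filter fun i => (X, i) ∈ V).piecewise
        (Equiv.curry (Fin 3) (Fin s) S z X) (Equiv.curry (Fin 3) (Fin s) S z' X)) := by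
    intro z'
    funext X i
    by_cases h : (X, i) ∈ V <;> simp [Finset.piecewise, h]
  simp only [e3]

/-- the analytic input for fixed `k`, `s` -/
def AIs (K : Type) [Field K] [Fintype K] (k s : ℕ) : Prop :=
  ∀ (ε : ℝ), 0 < ε → ∃ cs : ℕ, ∀ (c₀ μ : ℕ) (𝔮 : K[X]) (M : Fin 3 → K[X]),
    cs ≤ c₀ → Ctx K c₀ μ 𝔮 M → ∃ d₀ : ℕ, ∀ d : ℕ, d₀ ≤ d →
    ∀ v : Fin 3 → Fin s → K[X], (∀ X, SlotOK 𝔮 d (v X)) →
    𝔮 ∣ M 0 * ∏ i, v 0 i - (M 1 * ∏ i, v 1 i + M 2 * ∏ i, v 2 i) →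
    ∀ V : Fin 3 → Finset (Fin s), (∀ X, (V X).card ≤ k) →
    Ex (fun z : Fin 3 → Fin s → Fin d → K =>
      |Ex (fun z' : Fin 3 → Fin s → Fin d → K =>
        Wt (μ + s * (d + 𝔮.natDegree) - 𝔮.natDegree) 𝔮 M v
          (fun X => (V X).piecewise (z X) (z' X))) - 1|) ≤ ε

end conv

lemma ab1 {V : Type} [AddCommGroup V] (l : ℤ) (a c x y : V) :
    l • a + x - (l • c + y) = l • (a - c) + (x - y) := by rw [smul_sub]; abel

section main

variable {K : Type} [Field K] [Fintype K] {s d m : ℕ}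

/-- the product of the group `X` -/
noncomputable def PG (𝔮 : K[X]) (M : Fin 3 → K[X]) (v : Fin 3 → Fin s → K[X])
    (z : Fin 3 × Fin s → Fin d → K) (X : Fin 3) : K[X] :=
  M X * ∏ i, zz 𝔮 (v X) (fun i => z (X, i)) i

/-- the value at a tuple of slots -/
noncomputable def GG
    (Q : MultilinearMap ℤ (fun _ : Fin (m + 1) => UV (RatFunc K)) (UV (RatFunc K) →ₗ[ℤ] ℚ))
    (𝔮 : K[X]) (M : Fin 3 → K[X]) (v : Fin 3 → Fin s → K[X]) (z : Fin 3 × Fin s → Fin d → K) : ℚ :=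
  Q (fun _ => cp (PG 𝔮 M v z 0) - cp (PG 𝔮 M v z 2)) (cp (PG 𝔮 M v z 1) - cp (PG 𝔮 M v z 2))

lemma cp_PG {c₀ μ : ℕ} {𝔮 : K[X]} {M : Fin 3 → K[X]} (hC : Ctx K c₀ μ 𝔮 M)
    {v : Fin 3 → Fin s → K[X]} (hv : ∀ X, SlotOK 𝔮 d (v X)) (z : Fin 3 × Fin s → Fin d → K)
    (X : Fin 3) : cp (PG 𝔮 M v z X) = cp (M X) + ∑ i, cp (zz 𝔮 (v X) (fun i => z (X, i)) i) := by
  rw [PG, cp_mul (hC.mM X).ne_zero, cp_prod]
  · intro i _
    exact (zz_monic hC.mq (hv X) _ i).ne_zero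
  · exact (prod_zz_monic hC.mq (hv X) _ Finset.univ).ne_zero

/-- `cp P_X - cp P_Y` as a sum over all the slots -/
lemma cp_sub {c₀ μ : ℕ} {𝔮 : K[X]} {M : Fin 3 → K[X]} (hC : Ctx K c₀ μ 𝔮 M) (hs : 0 < s)
    {v : Fin 3 → Fin s → K[X]} (hv : ∀ X, SlotOK 𝔮 d (v X)) (X Y : Fin 3) :
    ∃ α : Fin 3 × Fin s → (Fin d → K) → UV (RatFunc K), ∀ z : Fin 3 × Fin s → Fin d → K,
      cp (PG 𝔮 M v z X) - cp (PG 𝔮 M v z Y) = ∑ i, α i (z i) := by
  classical
  refine ⟨fun i c => (if i.1 = X then cp (v X i.2 + 𝔮 * pol c) else 0)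
    - (if i.1 = Y then cp (v Y i.2 + 𝔮 * pol c) else 0)
    + (if i = (0, ⟨0, hs⟩) then cp (M X) - cp (M Y) else 0), fun z => ?_⟩
  rw [Finset.sum_add_distrib, Finset.sum_sub_distrib, Finset.sum_ite_eq' Finset.univ
    ((0 : Fin 3), (⟨0, hs⟩ : Fin s)), if_pos (Finset.mem_univ _)]
  have h1 : ∀ X : Fin 3, ∑ i : Fin 3 × Fin s, (if i.1 = X then cp (v X i.2 + 𝔮 * pol (z i)) else 0)
      = ∑ i, cp (zz 𝔮 (v X) (fun i => z (X, i)) i) := by
    intro X
    rw [Fintype.sum_prod_type, Finset.sum_eq_single X]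
    · refine Finset.sum_congr rfl fun i _ => ?_
      simp [zz]
    · intro Y _ hY
      refine Finset.sum_eq_zero fun i _ => ?_
      simp [hY]
    · simp
  rw [h1, h1, cp_PG hC hv, cp_PG hC hv]
  abel

lemma GG_degree {c₀ μ : ℕ} {𝔮 : K[X]} {M : Fin 3 → K[X]} (hC : Ctx K c₀ μ 𝔮 M) (hs : 0 < s)
    {v : Fin 3 → Fin s → K[X]} (hv : ∀ X, SlotOK 𝔮 d (v X))
    (Q : MultilinearMap ℤ (fun _ : Fin (m + 1) => UV (RatFunc K)) (UV (RatFunc K) →ₗ[ℤ] ℚ)) :
    ∃ F : (Fin (m + 2) → Fin 3 × Fin s) → (Fin (m + 2) → Fin d → K) → ℝ, ∀ z,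
      (GG Q 𝔮 M v z : ℝ) = ∑ j, F j (z ∘ j) := by
  classical
  obtain ⟨α, hα⟩ := cp_sub hC hs hv 0 2
  obtain ⟨β, hβ⟩ := cp_sub hC hs hv 1 2
  refine ⟨fun j c => ((Q (fun t => α (j t.castSucc) (c t.castSucc))
    (β (j (Fin.last (m + 1))) (c (Fin.last (m + 1)))) : ℚ) : ℝ), fun z => ?_⟩
  rw [GG]
  simp only [hα, hβ]
  rw [expand Q α β z]
  push_cast
  rfl

lemma GG_van {c₀ μ : ℕ} {𝔮 : K[X]} {M : Fin 3 → K[X]} (hC : Ctx K c₀ μ 𝔮 M)
    {v : Fin 3 → Fin s → K[X]} (hv : ∀ X, SlotOK 𝔮 d (v X))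
    (Q : MultilinearMap ℤ (fun _ : Fin (m + 1) => UV (RatFunc K)) (UV (RatFunc K) →ₗ[ℤ] ℚ))
    (hQ : ∀ f : RatFunc K, f ≠ 0 → f ≠ 1 → Q (fun _ => cl f) (cl (1 - f)) = 0) (N : ℕ)
    (z : Fin 3 × Fin s → Fin d → K) (hw : Wt N 𝔮 M v (fun X i => z (X, i)) ≠ 0) :
    GG Q 𝔮 M v z = 0 := by
  have h0 : ∀ X, PG 𝔮 M v z X ≠ 0 := fun X =>
    mul_ne_zero (hC.mM X).ne_zero (prod_zz_monic hC.mq (hv X) _ Finset.univ).ne_zero
  have h1 : PG 𝔮 M v z 0 = PG 𝔮 M v z 1 + PG 𝔮 M v z 2 := by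
    by_contra hne
    exact hw (if_neg hne)
  exact Q_van Q hQ (h0 0) (h0 1) (h0 2) h1

theorem KEY_aux {k s : ℕ} (hAI : AIs K k s) (hs0 : 0 < s) {m : ℕ} (hk : k = 2 * (m + 2)) :
    KEY K m := by
  classical
  intro Q hQ
  obtain ⟨ε, hε, hctr⟩ := CTR (Fin 3 × Fin s) (m + 2) (1 / (m + 4 : ℝ)) (by positivity)
  obtain ⟨cs, hcs⟩ := hAI ε hε
  refine ⟨max cs 1, ?_⟩
  intro A B C hA hB hC hAB hAC hBC hdeg hlt ⟨c₀, hc₀, hp⟩
  have hc0 : 0 < c₀ := lt_of_lt_of_le Nat.zero_lt_one ((le_max_right _ _).trans hc₀)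
  have hcs0 : cs ≤ c₀ := (le_max_left _ _).trans hc₀
  obtain ⟨φ, hφ, hφ'⟩ := exists_phi hA hB hC hAB hAC hBC
  obtain ⟨L, hL⟩ : ∃ L : ℕ → ℕ, ∀ j, L j = 1 + j * φ := ⟨fun j => 1 + j * φ, fun _ => rfl⟩
  have hL0 : ∀ j, 0 < L j := fun j => by rw [hL]; positivity
  have hctx : ∀ j, Ctx K c₀ (L j * A.natDegree) (A * B * C) (Ms A B C (L j)) :=
    fun j => ctx_of hA hB hC hAB hdeg hlt hc0 hp (hL0 j)
  choose d₀ hd₀ using fun j => hcs c₀ (L j * A.natDegree) (A * B * C) (Ms A B C (L j)) hcs0 (hctx j)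
  obtain ⟨d, hd⟩ : ∃ d : ℕ, d = (∑ j ∈ Finset.range (m + 3), d₀ j) +
    (∑ X, (rs A B C X).natDegree) + 1 := ⟨_, rfl⟩
  have hdX : ∀ X, (rs A B C X).natDegree < d := by
    intro X
    have : (rs A B C X).natDegree ≤ ∑ X, (rs A B C X).natDegree :=
      Finset.single_le_sum (f := fun X => (rs A B C X).natDegree)
      (fun _ _ => Nat.zero_le _) (Finset.mem_univ X)
    omega
  have hv : ∀ X, SlotOK (A * B * C) d (vs A B C s d X) :=
    fun X => vs_ok hA hB hC hAB hAC hBC hdX X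
  have hrel : ∀ j, A * B * C ∣ Ms A B C (L j) 0 * ∏ i, vs A B C s d 0 i -
      (Ms A B C (L j) 1 * ∏ i, vs A B C s d 1 i + Ms A B C (L j) 2 * ∏ i, vs A B C s d 2 i) :=
    fun j => vs_rel A B C hs0 d (L j) (by rw [hL]; exact (hφ' j).1) (by rw [hL]; exact (hφ' j).2.1)
      (by rw [hL]; exact (hφ' j).2.2)
  have hsmall : ∀ j < m + 3, (((Finset.univ : Finset (Fin 3 × Fin s → Fin d → K)).filter
      fun z => (GG Q (A * B * C) (Ms A B C (L j)) (vs A B C s d) z : ℝ) ≠ 0).card : ℝ) ≤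
      (1 / (m + 4 : ℝ)) * (Fintype.card (Fin 3 × Fin s → Fin d → K) : ℝ) := by
    intro j hj
    have hdj : d₀ j ≤ d := by
      have := Finset.single_le_sum (f := d₀) (fun _ _ => Nat.zero_le _) (Finset.mem_range.2 hj)
      omega
    have hd1 := hd₀ j d hdj (vs A B C s d) hv (hrel j)
    obtain ⟨N, hN⟩ : ∃ N : ℕ, N = L j * A.natDegree + s * (d + (A * B * C).natDegree) -
      (A * B * C).natDegree := ⟨_, rfl⟩
    rw [← hN] at hd1
    refine hctr (Fin d → K) (fun z => Wt N (A * B * C) (Ms A B C (L j)) (vs A B C s d)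
      (fun X i => z (X, i))) (fun z => (GG Q (A * B * C) (Ms A B C (L j)) (vs A B C s d) z : ℝ))
      ?_ ?_ ?_ ?_
    · intro z
      dsimp only [Wt]
      split_ifs
      · positivity
      · exact le_refl _
    · intro V hV
      refine conv (fun z => Wt N (A * B * C) (Ms A B C (L j)) (vs A B C s d) z) V ε ?_
      refine hd1 _ fun X => ?_
      rw [hk]
      refine le_trans (Finset.card_le_card_of_injOn (fun i => (X, i)) ?_ ?_) hV
      · intro i hi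
        simpa using hi
      · intro i _ i' _ h
        exact (Prod.mk.inj h).2
    · exact GG_degree (hctx j) hs0 hv Q
    · intro z hw
      show (GG Q (A * B * C) (Ms A B C (L j)) (vs A B C s d) z : ℝ) = 0
      rw [GG_van (hctx j) hv Q hQ N z hw]
      exact Rat.cast_zero
  -- a common zero
  obtain ⟨z, hz⟩ : ∃ z : Fin 3 × Fin s → Fin d → K, ∀ j < m + 3,
      GG Q (A * B * C) (Ms A B C (L j)) (vs A B C s d) z = 0 := by
    by_contra hcon
    push Not at hcon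
    have h1 : (Finset.univ : Finset (Fin 3 × Fin s → Fin d → K)) ⊆
        (Finset.range (m + 3)).biUnion fun j => Finset.univ.filter
          fun z => (GG Q (A * B * C) (Ms A B C (L j)) (vs A B C s d) z : ℝ) ≠ 0 := by
      intro z _
      obtain ⟨j, hj, hz⟩ := hcon z
      rw [Finset.mem_biUnion]
      refine ⟨j, Finset.mem_range.2 hj, ?_⟩
      rw [Finset.mem_filter]
      exact ⟨Finset.mem_univ _, Rat.cast_ne_zero.2 hz⟩
    have h2 := (Finset.card_le_card h1).trans Finset.card_biUnion_le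
    rw [Finset.card_univ] at h2
    have h3 : (Fintype.card (Fin 3 × Fin s → Fin d → K) : ℝ) ≤
        ∑ j ∈ Finset.range (m + 3), (((Finset.univ :
          Finset (Fin 3 × Fin s → Fin d → K)).filter
          fun z => (GG Q (A * B * C) (Ms A B C (L j)) (vs A B C s d) z : ℝ) ≠ 0).card : ℝ) := by
      exact_mod_cast h2
    have h4 := h3.trans (Finset.sum_le_sum fun j hj => hsmall j (Finset.mem_range.1 hj))
    rw [Finset.sum_const, Finset.card_range, nsmul_eq_mul, ← mul_assoc] at h4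
    have h5 : (0 : ℝ) < Fintype.card (Fin 3 × Fin s → Fin d → K) := by
      exact_mod_cast Fintype.card_pos
    have h6 : (((m + 3 : ℕ) : ℝ) * (1 / (m + 4 : ℝ))) < 1 := by
      rw [mul_one_div, div_lt_one (by positivity)]
      push_cast; linarith
    nlinarith
  have hfin : ∀ j, (GG Q (A * B * C) (Ms A B C (L j)) (vs A B C s d) z) =
      Q (fun _ => ((L j : ℤ)) • (cp A - cp C) +
        ((∑ i, cp (zz (A * B * C) (vs A B C s d 0) (fun i => z (0, i)) i)) -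
          (∑ i, cp (zz (A * B * C) (vs A B C s d 2) (fun i => z (2, i)) i))))
      (((L j : ℤ)) • (cp B - cp C) +
        ((∑ i, cp (zz (A * B * C) (vs A B C s d 1) (fun i => z (1, i)) i)) -
          (∑ i, cp (zz (A * B * C) (vs A B C s d 2) (fun i => z (2, i)) i)))) := by
    intro j
    rw [GG, cp_PG (hctx j) hv, cp_PG (hctx j) hv, cp_PG (hctx j) hv]
    have e0 : cp (Ms A B C (L j) 0) = (L j : ℤ) • cp A := cp_pow hA.ne_zero _
    have e1 : cp (Ms A B C (L j) 1) = (L j : ℤ) • cp B := cp_pow hB.ne_zero _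
    have e2 : cp (Ms A B C (L j) 2) = (L j : ℤ) • cp C := cp_pow hC.ne_zero _
    rw [e0, e1, e2, ab1, ab1]
  refine lead Q (cp A - cp C) _ (cp B - cp C) _ (fun j => (L j : ℤ)) ?_
    (fun j hj => (hfin j).symm.trans (hz j hj))
  intro a b hab
  have hab' : (L a : ℤ) = (L b : ℤ) := hab
  have h1 : L a = L b := by exact_mod_cast hab'
  rw [hL, hL] at h1
  exact Nat.eq_of_mul_eq_mul_right hφ (by omega)

theorem KEY_of (hAI : AI K) (m : ℕ) : KEY K m :=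
  KEY_aux (k := 2 * (m + 2)) (s := 4 * (2 * (m + 2)) + 4) (hAI (2 * (m + 2)))
    (Nat.succ_pos _) rfl

end main

end Pool.Agent.H366.GF
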