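import Pool.Agent.H366.GF.An

/-! # helper366's project, task D6 (helper127): the probability that two slots are not coprime -/

set_option autoImplicit false

namespace Pool.Agent.H366.GF

open Polynomial UniqueFactorizationMonoid

namespace D6

variable {K : Type} [Field K] [Fintype K] {d : ℕ} {𝔮 : K[X]}

/-- the number of entries divisible by a given polynomial -/
lemma card_dvd_le {v P : K[X]} (hP : P.Monic) (hP𝔮 : IsCoprime P 𝔮) [DecidablePred fun c : Fin d → K => P ∣ v + 𝔮 * pol c] :
    ((Finset.univ : Finset (Fin d → K)).filter (fun c => P ∣ v + 𝔮 * pol c)).card ≤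
      Fintype.card K ^ (d - P.natDegree) := by
  classical
  rcases (Finset.univ.filter (fun c : Fin d → K => P ∣ v + 𝔮 * pol c)).eq_empty_or_nonempty with
    he | ⟨c₁, hc₁⟩
  · rw [he]; simp
  · rw [Finset.mem_filter] at hc₁
    have hsub : (Finset.univ.filter (fun c : Fin d → K => P ∣ v + 𝔮 * pol c)) ⊆
        (Finset.univ : Finset (Fin (d - P.natDegree) → K)).image
          (fun g (i : Fin d) => c₁ i + (P * pol g).coeff i) := by
      intro c hc
      rw [Finset.mem_filter] at hc
      have h1 : P ∣ 𝔮 * (pol c - pol c₁) := by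
        have := dvd_sub hc.2 hc₁.2
        have h2 : v + 𝔮 * pol c - (v + 𝔮 * pol c₁) = 𝔮 * (pol c - pol c₁) := by ring
        rwa [h2] at this
      obtain ⟨g, hg⟩ := hP𝔮.dvd_of_dvd_mul_left h1
      have hdeg : g.degree < ((d - P.natDegree : ℕ) : WithBot ℕ) := by
        rcases eq_or_ne g 0 with h0 | h0
        · rw [h0, degree_zero]; exact WithBot.bot_lt_coe _
        · have h3 : (pol c - pol c₁).degree < d :=
            lt_of_le_of_lt (degree_sub_le _ _) (max_lt (pol_degree_lt c) (pol_degree_lt c₁))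
          rw [hg, degree_mul, degree_eq_natDegree hP.ne_zero, degree_eq_natDegree h0] at h3
          rw [degree_eq_natDegree h0]
          have h4 : P.natDegree + g.natDegree < d := by exact_mod_cast h3
          have h5 : g.natDegree < d - P.natDegree := by omega
          exact_mod_cast h5
      obtain ⟨e, he⟩ := exists_pol g hdeg
      rw [Finset.mem_image]
      refine ⟨e, Finset.mem_univ _, ?_⟩
      funext i
      rw [he, ← hg, coeff_sub, pol_coeff, pol_coeff]
      ring
    refine (Finset.card_le_card hsub).trans (Finset.card_image_le.trans ?_)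
    rw [Finset.card_univ, Fintype.card_fun, Fintype.card_fin]

open Classical in
/-- the corresponding probability -/
lemma prob_le {v P : K[X]} (hq : IsCoprime v 𝔮) (hP : P.Monic) :
    Ex (fun c : Fin d → K => if P ∣ v + 𝔮 * pol c then (1 : ℝ) else 0) ≤
      1 / (Fintype.card K : ℝ) ^ (min P.natDegree d) := by
  have hq0 : (0 : ℝ) < Fintype.card K := by exact_mod_cast Fintype.card_pos
  by_cases hP𝔮 : IsCoprime P 𝔮
  · rw [Ex, Finset.sum_boole]
    have h1 := card_dvd_le (d := d) (v := v) hP hP𝔮
    have h2 : (((Finset.univ.filter (fun c : Fin d → K => P ∣ v + 𝔮 * pol c)).card : ℕ) : ℝ) ≤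
        (Fintype.card K : ℝ) ^ (d - P.natDegree) := by exact_mod_cast h1
    rw [Fintype.card_fun, Fintype.card_fin, div_le_div_iff₀ (by positivity) (by positivity), one_mul]
    calc _ ≤ (Fintype.card K : ℝ) ^ (d - P.natDegree) * (Fintype.card K : ℝ) ^ (min P.natDegree d) :=
          mul_le_mul_of_nonneg_right h2 (by positivity)
      _ = ((Fintype.card K ^ d : ℕ) : ℝ) := by
          rw [← pow_add]; push_cast
          congr 1; omega
  · have h0 : ∀ c : Fin d → K, ¬ P ∣ v + 𝔮 * pol c := by
      intro c hc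
      apply hP𝔮
      have h1 : IsCoprime (v + 𝔮 * pol c) 𝔮 := by
        rw [IsCoprime.add_mul_left_left_iff]; exact hq
      exact h1.of_isCoprime_of_dvd_left hc
    have h2 : (fun c : Fin d → K => if P ∣ v + 𝔮 * pol c then (1 : ℝ) else 0) = fun _ => 0 := by
      funext c; rw [if_neg (h0 c)]
    rw [h2, Ex_const]
    positivity

/-- monic polynomials of degree `e` -/
noncomputable def mo {e : ℕ} (a : Fin e → K) : K[X] := X ^ e + pol a

omit [Fintype K] in
lemma mo_monic {e : ℕ} (a : Fin e → K) : (mo a).Monic := by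
  rw [mo]
  exact monic_X_pow_add (pol_degree_lt a)

omit [Fintype K] in
lemma mo_natDegree {e : ℕ} (a : Fin e → K) : (mo a).natDegree = e := by
  rw [mo]
  rw [natDegree_add_eq_left_of_degree_lt, natDegree_X_pow]
  rw [degree_X_pow]; exact pol_degree_lt a

omit [Fintype K] in
lemma exists_mo {P : K[X]} (hP : P.Monic) : ∃ a : Fin P.natDegree → K, mo a = P := by
  have h1 : (P - X ^ P.natDegree).degree < (P.natDegree : WithBot ℕ) := by
    rcases eq_or_ne P 1 with h | h
    · subst h; simp
    · have := degree_sub_lt_left (p := P) (q := X ^ P.natDegree)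
        (by rw [degree_X_pow, degree_eq_natDegree hP.ne_zero]) hP.ne_zero
        (by rw [hP.leadingCoeff, (monic_X_pow _).leadingCoeff])
      rwa [degree_eq_natDegree hP.ne_zero] at this
  obtain ⟨a, ha⟩ := exists_pol _ h1
  exact ⟨a, by rw [mo, ha]; ring⟩

open Classical in
/-- monic prime factors of degree `> d` -/
noncomputable def bf (d : ℕ) (F : K[X]) : Finset K[X] :=
  ((normalizedFactors F).toFinset).filter (fun P => d < P.natDegree)

open Classical in
omit [Fintype K] in
lemma card_bf_le {F : K[X]} (hF : F ≠ 0) : (bf d F).card ≤ F.natDegree := by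
  unfold bf
  refine (Finset.card_filter_le _ _).trans ((Multiset.toFinset_card_le _).trans ?_)
  have h1 := prod_normalizedFactors hF
  have h2 : (normalizedFactors F).prod.natDegree = F.natDegree := by
    exact natDegree_eq_of_degree_eq (degree_eq_degree_of_associated h1)
  rw [← h2, natDegree_multiset_prod]
  · rw [← Multiset.card_map natDegree]
    have h3 : ∀ x ∈ (normalizedFactors F).map natDegree, 1 ≤ x := by
      intro x hx
      rw [Multiset.mem_map] at hx
      obtain ⟨P, hP, rfl⟩ := hx
      exact (irreducible_of_normalized_factor P hP).natDegree_pos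
    have := Multiset.card_nsmul_le_sum h3
    simpa using this
  · intro h
    exact (irreducible_of_normalized_factor 0 h).ne_zero rfl

end D6

open D6

open Classical in
/-- [D6] the probability that two slots are not coprime. -/
theorem prob_noncop {K : Type} [Field K] [Fintype K] {d : ℕ} {𝔮 : K[X]}
    (h𝔮 : 𝔮.Monic) {c₀ : ℕ} (hc : 0 < c₀)
    (hsm : ∀ P : K[X], Irreducible P → P.natDegree < c₀ → P ∣ 𝔮) (v v' : K[X])
    (hv : v.Monic) (hv' : v'.Monic) (hd : v.natDegree = d + 𝔮.natDegree)
    (hd' : v'.natDegree = d + 𝔮.natDegree) (hq : IsCoprime v 𝔮) (hq' : IsCoprime v' 𝔮) :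
    Ex (fun c : Fin d → K => Ex (fun c' : Fin d → K =>
      if IsCoprime (v + 𝔮 * pol c) (v' + 𝔮 * pol c') then (0 : ℝ) else 1)) ≤
      2 / 2 ^ c₀ + ((d + 𝔮.natDegree : ℕ) : ℝ) / 2 ^ d := by
  have hzm : ∀ (w : K[X]) (hw : w.Monic) (hwd : w.natDegree = d + 𝔮.natDegree) (c : Fin d → K),
      (w + 𝔮 * pol c).Monic := fun w hw hwd c => hw.add_of_left (zz_aux h𝔮 c hw hwd)
  have hzd : ∀ (w : K[X]) (hw : w.Monic) (hwd : w.natDegree = d + 𝔮.natDegree) (c : Fin d → K),
      (w + 𝔮 * pol c).natDegree = d + 𝔮.natDegree := fun w hw hwd c => by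
    rw [natDegree_add_eq_left_of_degree_lt (zz_aux h𝔮 c hw hwd), hwd]
  -- pointwise bound
  have hpt : ∀ c c' : Fin d → K,
      (if IsCoprime (v + 𝔮 * pol c) (v' + 𝔮 * pol c') then (0 : ℝ) else 1) ≤
      (∑ e ∈ Finset.Ico c₀ (d + 1), ∑ a : Fin e → K,
        (if mo a ∣ v + 𝔮 * pol c then (1 : ℝ) else 0) *
        (if mo a ∣ v' + 𝔮 * pol c' then (1 : ℝ) else 0)) +
      ∑ P ∈ bf d (v + 𝔮 * pol c), (if P ∣ v' + 𝔮 * pol c' then (1 : ℝ) else 0) := by
    intro c c'
    have hn1 : 0 ≤ ∑ e ∈ Finset.Ico c₀ (d + 1), ∑ a : Fin e → K,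
        (if mo a ∣ v + 𝔮 * pol c then (1 : ℝ) else 0) *
        (if mo a ∣ v' + 𝔮 * pol c' then (1 : ℝ) else 0) :=
      Finset.sum_nonneg fun e _ => Finset.sum_nonneg fun a _ => by split_ifs <;> norm_num
    have hn2 : 0 ≤ ∑ P ∈ bf d (v + 𝔮 * pol c), (if P ∣ v' + 𝔮 * pol c' then (1 : ℝ) else 0) :=
      Finset.sum_nonneg fun e _ => by split_ifs <;> norm_num
    split_ifs with hcop
    · positivity
    · -- common monic prime
      have hne : v + 𝔮 * pol c ≠ 0 := (hzm v hv hd c).ne_zero
      obtain ⟨P, hPirr, hPm, hP1, hP2⟩ : ∃ P : K[X], Irreducible P ∧ P.Monic ∧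
          P ∣ v + 𝔮 * pol c ∧ P ∣ v' + 𝔮 * pol c' := by
        rw [← EuclideanDomain.gcd_isUnit_iff] at hcop
        have hg0 : EuclideanDomain.gcd (v + 𝔮 * pol c) (v' + 𝔮 * pol c') ≠ 0 := by
          intro h
          rw [EuclideanDomain.gcd_eq_zero_iff] at h
          exact hne h.1
        obtain ⟨P, hP, hPd⟩ := WfDvdMonoid.exists_irreducible_factor hcop hg0
        refine ⟨normalize P, ?_, Polynomial.monic_normalize hP.ne_zero, ?_, ?_⟩
        · exact (associated_normalize P).irreducible hP
        · rw [normalize_dvd_iff]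
          exact hPd.trans (EuclideanDomain.gcd_dvd_left _ _)
        · rw [normalize_dvd_iff]
          exact hPd.trans (EuclideanDomain.gcd_dvd_right _ _)
      have hc₀ : c₀ ≤ P.natDegree := by
        by_contra hlt
        push Not at hlt
        have h1 := hsm P hPirr hlt
        have h2 : IsCoprime (v + 𝔮 * pol c) 𝔮 := by
          rw [IsCoprime.add_mul_left_left_iff]; exact hq
        exact hPirr.not_isUnit (h2.isUnit_of_dvd' hP1 h1)
      rcases le_or_gt P.natDegree d with hle | hgt
      · obtain ⟨a, ha⟩ := exists_mo hPm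
        have h1 : (1 : ℝ) ≤ ∑ a : Fin P.natDegree → K,
            (if mo a ∣ v + 𝔮 * pol c then (1 : ℝ) else 0) *
            (if mo a ∣ v' + 𝔮 * pol c' then (1 : ℝ) else 0) := by
          refine le_trans (le_of_eq ?_) (Finset.single_le_sum (f := fun a : Fin P.natDegree → K =>
            (if mo a ∣ v + 𝔮 * pol c then (1 : ℝ) else 0) *
            (if mo a ∣ v' + 𝔮 * pol c' then (1 : ℝ) else 0)) (fun a _ => by
              split_ifs <;> norm_num) (Finset.mem_univ a))
          simp only [ha, if_pos hP1, if_pos hP2, mul_one]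
        have h2 := Finset.single_le_sum (f := fun e => ∑ a : Fin e → K,
            (if mo a ∣ v + 𝔮 * pol c then (1 : ℝ) else 0) *
            (if mo a ∣ v' + 𝔮 * pol c' then (1 : ℝ) else 0)) (s := Finset.Ico c₀ (d + 1))
            (fun e _ => Finset.sum_nonneg fun a _ => by split_ifs <;> norm_num)
            (Finset.mem_Ico.2 ⟨hc₀, Nat.lt_succ_of_le hle⟩)
        linarith
      · have hmem : P ∈ bf d (v + 𝔮 * pol c) := by
          unfold bf
          rw [Finset.mem_filter, Multiset.mem_toFinset]
          refine ⟨?_, hgt⟩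
          obtain ⟨Q, hQ, hQa⟩ := exists_mem_normalizedFactors_of_dvd hne hPirr hP1
          have h3 : normalize Q = Q := normalize_normalized_factor Q hQ
          have h4 : normalize P = P := hPm.normalize_eq_self
          have h5 : P = Q := by
            rw [← h3, ← h4]; exact normalize_eq_normalize_iff_associated.2 hQa
          rwa [h5]
        have h1 := Finset.single_le_sum (f := fun P => if P ∣ v' + 𝔮 * pol c' then (1 : ℝ) else 0)
          (s := bf d (v + 𝔮 * pol c)) (fun P _ => by split_ifs <;> norm_num) hmem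
        simp only [if_pos hP2] at h1
        linarith
  -- averaging
  have hq2 : (2 : ℝ) ≤ Fintype.card K := by exact_mod_cast Fintype.one_lt_card
  calc _ ≤ Ex (fun c : Fin d → K => Ex (fun c' : Fin d → K =>
        (∑ e ∈ Finset.Ico c₀ (d + 1), ∑ a : Fin e → K,
        (if mo a ∣ v + 𝔮 * pol c then (1 : ℝ) else 0) *
        (if mo a ∣ v' + 𝔮 * pol c' then (1 : ℝ) else 0)) +
      ∑ P ∈ bf d (v + 𝔮 * pol c), (if P ∣ v' + 𝔮 * pol c' then (1 : ℝ) else 0))) :=
        Ex_mono fun c => Ex_mono fun c' => hpt c c'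
    _ = Ex (fun c : Fin d → K => (∑ e ∈ Finset.Ico c₀ (d + 1), ∑ a : Fin e → K,
          (if mo a ∣ v + 𝔮 * pol c then (1 : ℝ) else 0) *
          Ex (fun c' : Fin d → K => (if mo a ∣ v' + 𝔮 * pol c' then (1 : ℝ) else 0))) +
        ∑ P ∈ bf d (v + 𝔮 * pol c),
          Ex (fun c' : Fin d → K => (if P ∣ v' + 𝔮 * pol c' then (1 : ℝ) else 0))) := by
        congr 1
        funext c
        rw [Ex_add, Ex_sum, Ex_sum]
        congr 1
        refine Finset.sum_congr rfl fun e _ => ?_
        rw [Ex_sum]
        exact Finset.sum_congr rfl fun a _ => Ex_mul_left _ _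
    _ ≤ Ex (fun c : Fin d → K => (∑ e ∈ Finset.Ico c₀ (d + 1), ∑ a : Fin e → K,
          (if mo a ∣ v + 𝔮 * pol c then (1 : ℝ) else 0) *
          (1 / (Fintype.card K : ℝ) ^ e)) + ((d + 𝔮.natDegree : ℕ) : ℝ) / 2 ^ d) := by
        refine Ex_mono fun c => add_le_add ?_ ?_
        · refine Finset.sum_le_sum fun e he => Finset.sum_le_sum fun a _ => ?_
          refine mul_le_mul_of_nonneg_left ?_ (by split_ifs <;> norm_num)
          have h1 := prob_le (d := d) hq' (mo_monic a)
          rw [mo_natDegree, min_eq_left (Nat.le_of_lt_succ (Finset.mem_Ico.1 he).2)] at h1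
          exact h1
        · have h1 : ∀ P ∈ bf d (v + 𝔮 * pol c),
              Ex (fun c' : Fin d → K => (if P ∣ v' + 𝔮 * pol c' then (1 : ℝ) else 0)) ≤
                1 / 2 ^ d := by
            intro P hP
            unfold bf at hP
            rw [Finset.mem_filter, Multiset.mem_toFinset] at hP
            have hPm : P.Monic := by
              have h3 : normalize P = P := normalize_normalized_factor P hP.1
              rw [← h3]
              exact Polynomial.monic_normalize (irreducible_of_normalized_factor P hP.1).ne_zero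
            refine (prob_le (d := d) hq' hPm).trans ?_
            rw [min_eq_right hP.2.le]
            exact one_div_le_one_div_of_le (by positivity) (pow_le_pow_left₀ (by norm_num) hq2 _)
          refine (Finset.sum_le_sum h1).trans ?_
          rw [Finset.sum_const, nsmul_eq_mul, mul_one_div]
          refine div_le_div_of_nonneg_right ?_ (by positivity)
          have h2 := card_bf_le (d := d) (hzm v hv hd c).ne_zero
          rw [hzd v hv hd c] at h2
          exact_mod_cast h2
    _ = (∑ e ∈ Finset.Ico c₀ (d + 1), ∑ a : Fin e → K,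
          Ex (fun c : Fin d → K => (if mo a ∣ v + 𝔮 * pol c then (1 : ℝ) else 0)) *
          (1 / (Fintype.card K : ℝ) ^ e)) + ((d + 𝔮.natDegree : ℕ) : ℝ) / 2 ^ d := by
        rw [Ex_add, Ex_const, Ex_sum]
        congr 1
        refine Finset.sum_congr rfl fun e _ => ?_
        rw [Ex_sum]
        exact Finset.sum_congr rfl fun a _ => Ex_mul_right _ _
    _ ≤ (∑ e ∈ Finset.Ico c₀ (d + 1), (1 / 2 : ℝ) ^ e) + ((d + 𝔮.natDegree : ℕ) : ℝ) / 2 ^ d := by
        refine add_le_add (Finset.sum_le_sum fun e he => ?_) le_rfl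
        have h1 : ∀ a ∈ (Finset.univ : Finset (Fin e → K)),
            Ex (fun c : Fin d → K => (if mo a ∣ v + 𝔮 * pol c then (1 : ℝ) else 0)) *
            (1 / (Fintype.card K : ℝ) ^ e) ≤
            (1 / (Fintype.card K : ℝ) ^ e) * (1 / (Fintype.card K : ℝ) ^ e) := by
          intro a _
          refine mul_le_mul_of_nonneg_right ?_ (by positivity)
          have h1 := prob_le (d := d) hq (mo_monic a)
          rw [mo_natDegree, min_eq_left (Nat.le_of_lt_succ (Finset.mem_Ico.1 he).2)] at h1
          exact h1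
        refine (Finset.sum_le_sum h1).trans ?_
        rw [Finset.sum_const, Finset.card_univ, Fintype.card_fun, Fintype.card_fin, nsmul_eq_mul]
        push_cast
        have hq0 : (0 : ℝ) < Fintype.card K := by linarith
        have h3 : (Fintype.card K : ℝ) ^ e * (1 / (Fintype.card K : ℝ) ^ e *
            (1 / (Fintype.card K : ℝ) ^ e)) = 1 / (Fintype.card K : ℝ) ^ e := by
          field_simp
        rw [h3, one_div_pow]
        exact one_div_le_one_div_of_le (by positivity) (pow_le_pow_left₀ (by norm_num) hq2 _)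
    _ ≤ 2 / 2 ^ c₀ + ((d + 𝔮.natDegree : ℕ) : ℝ) / 2 ^ d := by
        refine add_le_add ?_ le_rfl
        have h1 : ∀ n : ℕ, ∑ e ∈ Finset.Ico c₀ n, (1 / 2 : ℝ) ^ e ≤ 2 / 2 ^ c₀ := by
          intro n
          rw [Finset.sum_Ico_eq_sum_range]
          simp only [pow_add]
          rw [← Finset.mul_sum]
          have h2 : ∑ i ∈ Finset.range (n - c₀), (1 / 2 : ℝ) ^ i ≤ 2 := by
            rw [geom_sum_eq (by norm_num)]
            have h4 : (0 : ℝ) ≤ (1 / 2) ^ (n - c₀) := by positivity
            rw [div_le_iff_of_neg (by norm_num)]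
            linarith
          calc (1 / 2 : ℝ) ^ c₀ * ∑ i ∈ Finset.range (n - c₀), (1 / 2 : ℝ) ^ i
              ≤ (1 / 2 : ℝ) ^ c₀ * 2 := mul_le_mul_of_nonneg_left h2 (by positivity)
            _ = 2 / 2 ^ c₀ := by rw [one_div_pow]; ring
        exact h1 _

end Pool.Agent.H366.GF
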