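import Pool.Agent.H366.GF.Minor
import Pool.Agent.H366.GF.Cop

/-! # The minor arcs, final form; the probability of non-coprime slots -/

set_option autoImplicit false

namespace Pool.Agent.H366.GF

open Polynomial

section minor

variable {K : Type} [Field K] [Fintype K]

/-- a constant -/
noncomputable def Cst (q : ℝ) (s μ δ : ℕ) : ℝ :=
  q ^ (3 * μ + 1 + 3 * ((s - 1) * δ)) * (1 + 8 * 2 ^ μ) * 2 ^ (δ + 1)

lemma Cst_pos {q : ℝ} (hq : 0 < q) (s μ δ : ℕ) : 0 < Cst q s μ δ := by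
  unfold Cst; positivity

lemma tau_bound {k s D c₀ : ℕ} (hk : k ≤ s) (hs : 0 < s) (hc : 40 * s ^ 2 ≤ c₀) :
    tau s D c₀ ^ 4 * 2 ^ (k * D / c₀) ≤ 2 ^ (D / 8) := by
  unfold tau
  rw [← pow_mul, ← pow_mul, ← pow_add]
  refine pow_le_pow_right₀ (by norm_num) ?_
  have h1 : s * D / c₀ * s * 4 ≤ (4 * s ^ 2 * D) / c₀ := by
    calc s * D / c₀ * s * 4 = (4 * s) * (s * D / c₀) := by ring
      _ ≤ (4 * s) * (s * D) / c₀ := Nat.mul_div_le_mul_div_assoc _ _ _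
      _ = (4 * s ^ 2 * D) / c₀ := by congr 1; ring
  have h2 : (4 * s ^ 2 * D) / c₀ + k * D / c₀ ≤ (4 * s ^ 2 * D + k * D) / c₀ :=
    Nat.add_div_le_add_div _ _ _
  have h3 : 4 * s ^ 2 * D + k * D ≤ (5 * s ^ 2) * D := by
    have : k ≤ s ^ 2 := hk.trans (Nat.le_self_pow (by norm_num) s)
    nlinarith
  have h4 : (4 * s ^ 2 * D + k * D) / c₀ ≤ (5 * s ^ 2 * D) / (40 * s ^ 2) :=
    (Nat.div_le_div_right h3).trans (Nat.div_le_div_left hc (by positivity))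
  have h5 : (5 * s ^ 2 * D) / (40 * s ^ 2) = D / 8 := by
    have e1 : 5 * s ^ 2 * D = (5 * s ^ 2) * D := rfl
    have e2 : 40 * s ^ 2 = (5 * s ^ 2) * 8 := by ring
    rw [e1, e2, Nat.mul_div_mul_left _ _ (by positivity)]
  have h6 : s * D / c₀ * (s * 4) = s * D / c₀ * s * 4 := by ring
  omega

lemma numB {q τ : ℝ} {k s d δ c₀ μ : ℕ} (hq1 : 1 ≤ q) (hτ0 : 0 ≤ τ)
    (hτ : τ ^ 4 * 2 ^ (k * (d + δ) / c₀) ≤ 2 ^ ((d + δ) / 8)) :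
    τ * q ^ (μ + (s - 1) * δ) * (τ ^ 3 * q ^ (2 * μ + 1 + 2 * ((s - 1) * δ)) *
      2 ^ (k * (d + δ) / c₀) * (1 / 2 ^ d + 8 * 2 ^ μ / 2 ^ ((d + 1) / 2))) ≤
      Cst q s μ δ / 2 ^ (d / 8) := by
  obtain ⟨E, hE⟩ : ∃ E : ℕ, E = (s - 1) * δ := ⟨_, rfl⟩
  have hq0 : 0 < q := by linarith
  have e1 : τ * q ^ (μ + (s - 1) * δ) * (τ ^ 3 * q ^ (2 * μ + 1 + 2 * ((s - 1) * δ)) *
      2 ^ (k * (d + δ) / c₀) * (1 / 2 ^ d + 8 * 2 ^ μ / 2 ^ ((d + 1) / 2))) =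
      (τ ^ 4 * 2 ^ (k * (d + δ) / c₀)) * (q ^ (3 * μ + 1 + 3 * ((s - 1) * δ)) *
        (1 / 2 ^ d + 8 * 2 ^ μ / 2 ^ ((d + 1) / 2))) := by
    have : 3 * μ + 1 + 3 * ((s - 1) * δ) = (μ + (s - 1) * δ) + (2 * μ + 1 + 2 * ((s - 1) * δ)) := by
      ring
    rw [this, pow_add q (μ + (s - 1) * δ)]
    ring
  rw [e1]
  have e2 : (1 : ℝ) / 2 ^ d + 8 * 2 ^ μ / 2 ^ ((d + 1) / 2) ≤
      (1 + 8 * 2 ^ μ) * (1 / 2 ^ ((d + 1) / 2)) := by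
    have h1 : (1 : ℝ) / 2 ^ d ≤ 1 / 2 ^ ((d + 1) / 2) :=
      one_div_le_one_div_of_le (by positivity) (pow_le_pow_right₀ (by norm_num) (by omega))
    have h2 : (1 + 8 * (2 : ℝ) ^ μ) * (1 / 2 ^ ((d + 1) / 2)) =
      1 / 2 ^ ((d + 1) / 2) + 8 * 2 ^ μ / 2 ^ ((d + 1) / 2) := by ring
    rw [h2]
    linarith
  have e3 : (2 : ℝ) ^ ((d + δ) / 8) * (1 / 2 ^ ((d + 1) / 2)) ≤ 2 ^ (δ + 1) / 2 ^ (d / 8) := by
    rw [mul_one_div, div_le_div_iff₀ (by positivity) (by positivity), ← pow_add, ← pow_add]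
    exact pow_le_pow_right₀ (by norm_num) (by omega)
  calc (τ ^ 4 * 2 ^ (k * (d + δ) / c₀)) * (q ^ (3 * μ + 1 + 3 * ((s - 1) * δ)) *
        (1 / 2 ^ d + 8 * 2 ^ μ / 2 ^ ((d + 1) / 2)))
      ≤ 2 ^ ((d + δ) / 8) * (q ^ (3 * μ + 1 + 3 * ((s - 1) * δ)) *
        ((1 + 8 * 2 ^ μ) * (1 / 2 ^ ((d + 1) / 2)))) := by
        refine mul_le_mul hτ (mul_le_mul_of_nonneg_left e2 (by positivity)) (by positivity)
          (by positivity)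
    _ = (q ^ (3 * μ + 1 + 3 * ((s - 1) * δ)) * (1 + 8 * 2 ^ μ)) *
        (2 ^ ((d + δ) / 8) * (1 / 2 ^ ((d + 1) / 2))) := by ring
    _ ≤ (q ^ (3 * μ + 1 + 3 * ((s - 1) * δ)) * (1 + 8 * 2 ^ μ)) *
        (2 ^ (δ + 1) / 2 ^ (d / 8)) := mul_le_mul_of_nonneg_left e3 (by positivity)
    _ = Cst q s μ δ / 2 ^ (d / 8) := by unfold Cst; ring

open Classical in
/-- the minor arcs -/
theorem minor {c₀ μ : ℕ} {𝔮 : K[X]} {M : Fin 3 → K[X]} (hC : Ctx K c₀ μ 𝔮 M) {k s : ℕ}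
    (hs : s = 4 * k + 4) (hc : 40 * s ^ 2 ≤ c₀) {d : ℕ} (hd : μ < d) {v : Fin 3 → Fin s → K[X]}
    (hv : ∀ X, SlotOK 𝔮 d (v X)) {N : ℕ}
    (hN : N + 𝔮.natDegree = μ + s * (d + 𝔮.natDegree)) (ψ : Fin 3 → AddChar K ℂ)
    (hψ : ∀ X, (ψ X).IsPrimitive) (V : Fin 3 → Finset (Fin s)) (hV : ∀ X, (V X).card ≤ k) :
    Ex (fun z₀ : Fin s → Fin d → K => Ex (fun z₁ : Fin s → Fin d → K =>
      Ex (fun z₂ : Fin s → Fin d → K =>
      if IsCoprime (M 0 * ∏ i ∈ V 0, zz 𝔮 (v 0) z₀ i) (M 1 * ∏ i ∈ V 1, zz 𝔮 (v 1) z₁ i) then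
        ‖∑ a ∈ Finset.univ.filter (fun a : Fin N → K => d < rk a),
          TT (ψ 0) 𝔮 (M 0) (v 0) a (V 0) z₀ * TT (ψ 1) 𝔮 (M 1) (v 1) a (V 1) z₁ *
            TT (ψ 2) 𝔮 (M 2) (v 2) a (V 2) z₂‖
      else 0))) ≤
    Real.sqrt (Cst (Fintype.card K) s μ 𝔮.natDegree / 2 ^ (d / 8)) := by
  set q : ℝ := (Fintype.card K : ℝ) with hq
  have hq2 : 2 ≤ q := by
    rw [hq]; exact_mod_cast Fintype.one_lt_card
  have hq1 : 1 ≤ q := by linarith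
  have hq0 : 0 < q := by linarith
  have hτ0 : 0 < tau s (d + 𝔮.natDegree) c₀ := by rw [tau]; positivity
  refine Real.le_sqrt_of_sq_le ?_
  refine (Ex_sq_le _).trans ((Ex_mono fun z₀ => (Ex_sq_le _).trans
    (Ex_mono fun z₁ => Ex_sq_le _)).trans ?_)
  have h1 : ∀ z₀ z₁ : Fin s → Fin d → K, Ex (fun z₂ : Fin s → Fin d → K =>
      (if IsCoprime (M 0 * ∏ i ∈ V 0, zz 𝔮 (v 0) z₀ i) (M 1 * ∏ i ∈ V 1, zz 𝔮 (v 1) z₁ i) then
        ‖∑ a ∈ Finset.univ.filter (fun a : Fin N → K => d < rk a),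
          TT (ψ 0) 𝔮 (M 0) (v 0) a (V 0) z₀ * TT (ψ 1) 𝔮 (M 1) (v 1) a (V 1) z₁ *
            TT (ψ 2) 𝔮 (M 2) (v 2) a (V 2) z₂‖
      else 0) ^ 2) ≤
      (tau s (d + 𝔮.natDegree) c₀ * q ^ (μ + (s - 1) * 𝔮.natDegree)) *
      (if IsCoprime (M 0 * ∏ i ∈ V 0, zz 𝔮 (v 0) z₀ i) (M 1 * ∏ i ∈ V 1, zz 𝔮 (v 1) z₁ i) then
        ∑ a ∈ Finset.univ.filter (fun a : Fin N → K => d < rk a),
          ‖TT (ψ 0) 𝔮 (M 0) (v 0) a (V 0) z₀‖ ^ 2 * ‖TT (ψ 1) 𝔮 (M 1) (v 1) a (V 1) z₁‖ ^ 2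
      else 0) := by
    intro z₀ z₁
    split_ifs with hcop
    · have h2 := L34.L4 (N := N) hC.mq (hC.mM 2) hC.deg2 hC.pos hC.small (hv 2) (by omega) hN
        (hψ 2) (V 2) (fun a => if d < rk a then TT (ψ 0) 𝔮 (M 0) (v 0) a (V 0) z₀ *
          TT (ψ 1) 𝔮 (M 1) (v 1) a (V 1) z₁ else 0)
      refine le_trans (le_of_eq ?_) (h2.trans (le_of_eq ?_))
      · congr 1; funext z₂
        congr 2
        rw [Finset.sum_filter]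
        refine Finset.sum_congr rfl fun a _ => ?_
        split_ifs
        · rfl
        · rw [zero_mul]
      · congr 1
        rw [Finset.sum_filter]
        refine Finset.sum_congr rfl fun a _ => ?_
        split_ifs
        · rw [norm_mul, mul_pow]
        · simp
    · simp [Ex_const]
  refine (Ex_mono fun z₀ => Ex_mono fun z₁ => h1 z₀ z₁).trans ?_
  simp only [Ex_mul_left]
  have h3 := minorZ hC hs hd hv hN ψ hψ V hV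
  refine (mul_le_mul_of_nonneg_left h3 (by positivity)).trans ?_
  have hτ := tau_bound (k := k) (s := s) (D := d + 𝔮.natDegree) (c₀ := c₀) (by omega) (by omega) hc
  exact numB hq1 hτ0.le hτ

end minor

section cop

variable {K : Type} [Field K]

lemma cop_of_smooth {c₀ μ : ℕ} {𝔮 : K[X]} {M : Fin 3 → K[X]} (hC : Ctx K c₀ μ 𝔮 M) (X : Fin 3)
    {z : K[X]} (hz : IsCoprime z 𝔮) : IsCoprime (M X) z := by
  refine isCoprime_of_irreducible_dvd (fun h => (hC.mM X).ne_zero h.1) ?_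
  intro P hP h1 h2
  have h3 := hC.small P hP (hC.smooth X P hP h1)
  exact hP.not_isUnit (hz.isUnit_of_dvd' h2 h3)

lemma cop_all {c₀ μ : ℕ} {𝔮 : K[X]} {M : Fin 3 → K[X]} (hC : Ctx K c₀ μ 𝔮 M) {s d : ℕ}
    {v : Fin 3 → Fin s → K[X]} (hv : ∀ X, SlotOK 𝔮 d (v X)) (V₀ V₁ : Finset (Fin s))
    (z₀ z₁ : Fin s → Fin d → K)
    (h : ∀ i ∈ V₀, ∀ j ∈ V₁, IsCoprime (zz 𝔮 (v 0) z₀ i) (zz 𝔮 (v 1) z₁ j)) :
    IsCoprime (M 0 * ∏ i ∈ V₀, zz 𝔮 (v 0) z₀ i) (M 1 * ∏ i ∈ V₁, zz 𝔮 (v 1) z₁ i) := by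
  refine IsCoprime.mul_left (IsCoprime.mul_right hC.cop ?_) (IsCoprime.mul_right ?_ ?_)
  · exact cop_of_smooth hC 0 (prod_zz_cop (hv 1) z₁ V₁)
  · exact (cop_of_smooth hC 1 (prod_zz_cop (hv 0) z₀ V₀)).symm
  · exact IsCoprime.prod_left fun i hi => IsCoprime.prod_right fun j hj => h i hi j hj

lemma Ex_coord {σ S : Type} [Fintype σ] [DecidableEq σ] [Fintype S] [Nonempty S] (i : σ)
    (f : S → ℝ) : Ex (fun z : σ → S => f (z i)) = Ex f := by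
  have h1 := Ex_equiv (Equiv.funSplitAt i S) (fun p => f p.1)
  have h2 : (fun z : σ → S => f (z i)) =
    fun z => (fun p : S × ({j // j ≠ i} → S) => f p.1) (Equiv.funSplitAt i S z) := rfl
  rw [h2, h1, Ex_prod]
  congr 1
  funext z
  exact Ex_const (α := {j // j ≠ i} → S) (f z)

open Classical in
/-- the probability that the special products are not coprime -/
lemma noncop [Fintype K] {c₀ μ : ℕ} {𝔮 : K[X]} {M : Fin 3 → K[X]} (hC : Ctx K c₀ μ 𝔮 M)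
    {k s d : ℕ} {v : Fin 3 → Fin s → K[X]} (hv : ∀ X, SlotOK 𝔮 d (v X))
    (V : Fin 3 → Finset (Fin s)) (hV : ∀ X, (V X).card ≤ k) :
    Ex (fun z₀ : Fin s → Fin d → K => Ex (fun z₁ : Fin s → Fin d → K =>
      if IsCoprime (M 0 * ∏ i ∈ V 0, zz 𝔮 (v 0) z₀ i) (M 1 * ∏ i ∈ V 1, zz 𝔮 (v 1) z₁ i) then
        (0 : ℝ) else 1)) ≤
      (k : ℝ) ^ 2 * (2 / 2 ^ c₀ + ((d + 𝔮.natDegree : ℕ) : ℝ) / 2 ^ d) := by
  have hpt : ∀ z₀ z₁ : Fin s → Fin d → K,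
      (if IsCoprime (M 0 * ∏ i ∈ V 0, zz 𝔮 (v 0) z₀ i) (M 1 * ∏ i ∈ V 1, zz 𝔮 (v 1) z₁ i) then
        (0 : ℝ) else 1) ≤ ∑ i ∈ V 0, ∑ j ∈ V 1,
        (if IsCoprime (v 0 i + 𝔮 * pol (z₀ i)) (v 1 j + 𝔮 * pol (z₁ j)) then (0 : ℝ) else 1) := by
    intro z₀ z₁
    have hnn : ∀ i j, (0 : ℝ) ≤
      (if IsCoprime (v 0 i + 𝔮 * pol (z₀ i)) (v 1 j + 𝔮 * pol (z₁ j)) then (0 : ℝ) else 1) := by
      intro i j; split_ifs <;> norm_num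
    split_ifs with h
    · exact Finset.sum_nonneg fun i _ => Finset.sum_nonneg fun j _ => hnn i j
    · have : ∃ i ∈ V 0, ∃ j ∈ V 1, ¬ IsCoprime (zz 𝔮 (v 0) z₀ i) (zz 𝔮 (v 1) z₁ j) := by
        by_contra hcon
        push Not at hcon
        exact h (cop_all hC hv _ _ z₀ z₁ hcon)
      obtain ⟨i, hi, j, hj, hij⟩ := this
      calc (1 : ℝ) = (if IsCoprime (v 0 i + 𝔮 * pol (z₀ i)) (v 1 j + 𝔮 * pol (z₁ j)) then
            (0 : ℝ) else 1) := (if_neg hij).symm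
        _ ≤ ∑ j ∈ V 1, (if IsCoprime (v 0 i + 𝔮 * pol (z₀ i)) (v 1 j + 𝔮 * pol (z₁ j)) then
            (0 : ℝ) else 1) := Finset.single_le_sum (f := fun j =>
              (if IsCoprime (v 0 i + 𝔮 * pol (z₀ i)) (v 1 j + 𝔮 * pol (z₁ j)) then
              (0 : ℝ) else 1)) (fun j _ => hnn i j) hj
        _ ≤ _ := Finset.single_le_sum (f := fun i => ∑ j ∈ V 1,
              (if IsCoprime (v 0 i + 𝔮 * pol (z₀ i)) (v 1 j + 𝔮 * pol (z₁ j)) then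
              (0 : ℝ) else 1)) (fun i _ => Finset.sum_nonneg fun j _ => hnn i j) hi
  refine (Ex_mono fun z₀ => Ex_mono fun z₁ => hpt z₀ z₁).trans ?_
  simp only [Ex_sum]
  have h2 : ∀ i j, Ex (fun z₀ : Fin s → Fin d → K => Ex (fun z₁ : Fin s → Fin d → K =>
      (if IsCoprime (v 0 i + 𝔮 * pol (z₀ i)) (v 1 j + 𝔮 * pol (z₁ j)) then (0 : ℝ) else 1))) ≤
      2 / 2 ^ c₀ + ((d + 𝔮.natDegree : ℕ) : ℝ) / 2 ^ d := by
    intro i j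
    have h3 := prob_noncop (d := d) hC.mq hC.pos hC.small (v 0 i) (v 1 j) ((hv 0).monic i)
      ((hv 1).monic j) ((hv 0).deg i) ((hv 1).deg j) ((hv 0).cop i) ((hv 1).cop j)
    refine le_trans (le_of_eq ?_) h3
    rw [← Ex_coord i (fun c : Fin d → K => Ex (fun c' : Fin d → K =>
      if IsCoprime (v 0 i + 𝔮 * pol c) (v 1 j + 𝔮 * pol c') then (0 : ℝ) else 1))]
    congr 1; funext z₀
    exact Ex_coord j (fun c' : Fin d → K =>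
      if IsCoprime (v 0 i + 𝔮 * pol (z₀ i)) (v 1 j + 𝔮 * pol c') then (0 : ℝ) else 1)
  refine (Finset.sum_le_sum fun i _ => Finset.sum_le_sum fun j _ => h2 i j).trans ?_
  rw [Finset.sum_const, Finset.sum_const, nsmul_eq_mul, nsmul_eq_mul, ← mul_assoc, sq]
  refine mul_le_mul_of_nonneg_right ?_ (by positivity)
  exact mul_le_mul (by exact_mod_cast hV 0) (by exact_mod_cast hV 1) (by positivity)
    (by positivity)

end cop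

end Pool.Agent.H366.GF
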