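import Pool.Agent.H366.GF.AI1

/-! # The analytic input -/

set_option autoImplicit false

namespace Pool.Agent.H366.GF

open Polynomial

section final

variable {K : Type} [Field K] [Fintype K]

open Classical in
/-- splitting off the zero functional, the major and the minor arcs -/
lemma sum_split {N d : ℕ} (F : (Fin N → K) → ℂ) (h0 : F 0 = 1) :
    ∑ a, F a - 1 = ∑ a ∈ Finset.univ.filter (fun a : Fin N → K => a ≠ 0 ∧ rk a ≤ d), F a +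
      ∑ a ∈ Finset.univ.filter (fun a : Fin N → K => d < rk a), F a := by
  have h1 : ∀ a : Fin N → K, F a = (if a = 0 then F a else 0) +
      ((if a ≠ 0 ∧ rk a ≤ d then F a else 0) + (if d < rk a then F a else 0)) := by
    intro a
    by_cases ha : a = 0
    · subst ha
      have : ¬ d < rk (0 : Fin N → K) := by rw [rk_zero]; omega
      simp [this]
    · by_cases hd : d < rk a
      · have : ¬ rk a ≤ d := by omega
        simp [ha, hd, this]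
      · have : rk a ≤ d := by omega
        simp [ha, hd, this]
  rw [Finset.sum_filter, Finset.sum_filter]
  conv_lhs => rw [Finset.sum_congr rfl fun a _ => h1 a]
  rw [Finset.sum_add_distrib, Finset.sum_add_distrib, Finset.sum_ite_eq' Finset.univ
    (0 : Fin N → K), if_pos (Finset.mem_univ _), h0]
  ring

open Classical in
lemma cop_part {c₀ μ : ℕ} {𝔮 : K[X]} {M : Fin 3 → K[X]} (hC : Ctx K c₀ μ 𝔮 M) {k s : ℕ}
    (hs : s = 4 * k + 4) (hc : 40 * s ^ 2 ≤ c₀) {d : ℕ} (hd : μ < d) {v : Fin 3 → Fin s → K[X]}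
    (hv : ∀ X, SlotOK 𝔮 d (v X))
    (hrel : 𝔮 ∣ M 0 * ∏ i, v 0 i - (M 1 * ∏ i, v 1 i + M 2 * ∏ i, v 2 i)) {N : ℕ}
    (hN : N + 𝔮.natDegree = μ + s * (d + 𝔮.natDegree))
    (V : Fin 3 → Finset (Fin s)) (hV : ∀ X, (V X).card ≤ k) :
    Ex (fun z : Fin 3 → Fin s → Fin d → K =>
      if IsCoprime (M 0 * ∏ i ∈ V 0, zz 𝔮 (v 0) (z 0) i) (M 1 * ∏ i ∈ V 1, zz 𝔮 (v 1) (z 1) i)
      then |AW N 𝔮 M v V z - 1| else 0) ≤
      4 / 2 ^ (c₀ / 2) + Real.sqrt (Cst (Fintype.card K) s μ 𝔮.natDegree / 2 ^ (d / 8)) := by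
  obtain ⟨ψ, hψ⟩ := exists_prim K
  set T : Fin 3 → (Fin N → K) → (Fin s → Fin d → K) → ℂ :=
    fun X a z => TT (ps ψ X) 𝔮 (M X) (v X) a (V X) z with hT
  have hpt : ∀ z : Fin 3 → Fin s → Fin d → K,
      (if IsCoprime (M 0 * ∏ i ∈ V 0, zz 𝔮 (v 0) (z 0) i) (M 1 * ∏ i ∈ V 1, zz 𝔮 (v 1) (z 1) i)
      then |AW N 𝔮 M v V z - 1| else 0) ≤
      ∑ a ∈ Finset.univ.filter (fun a : Fin N → K => a ≠ 0 ∧ rk a ≤ d),
        ‖T 0 a (z 0)‖ * ‖T 1 a (z 1)‖ * ‖T 2 a (z 2)‖ +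
      (if IsCoprime (M 0 * ∏ i ∈ V 0, zz 𝔮 (v 0) (z 0) i) (M 1 * ∏ i ∈ V 1, zz 𝔮 (v 1) (z 1) i)
      then ‖∑ a ∈ Finset.univ.filter (fun a : Fin N → K => d < rk a),
        T 0 a (z 0) * T 1 a (z 1) * T 2 a (z 2)‖ else 0) := by
    intro z
    have hnn : 0 ≤ ∑ a ∈ Finset.univ.filter (fun a : Fin N → K => a ≠ 0 ∧ rk a ≤ d),
        ‖T 0 a (z 0)‖ * ‖T 1 a (z 1)‖ * ‖T 2 a (z 2)‖ :=
      Finset.sum_nonneg fun a _ => by positivity
    split_ifs with hcop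
    · have h1 : |AW N 𝔮 M v V z - 1| = ‖((AW N 𝔮 M v V z : ℝ) : ℂ) - 1‖ := by
        rw [← Complex.ofReal_one, ← Complex.ofReal_sub, Complex.norm_real, Real.norm_eq_abs]
      rw [h1, AW_eq hC hv hrel hN hψ V z, sum_split (d := d) _ (by
        rw [TT_zero, TT_zero, TT_zero, one_mul, one_mul])]
      refine (norm_add_le _ _).trans (add_le_add ?_ le_rfl)
      refine (norm_sum_le _ _).trans (le_of_eq ?_)
      refine Finset.sum_congr rfl fun a _ => ?_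
      rw [norm_mul, norm_mul]
    · linarith
  refine (Ex_mono hpt).trans ?_
  rw [Ex_add]
  refine add_le_add ?_ ?_
  · rw [Ex_sum]
    refine le_trans (le_of_eq ?_) (MajN.major hC (s := s) (by nlinarith) hv hN (ps ψ) (ps_prim hψ) V
      (fun X => by have := hV X; omega))
    refine Finset.sum_congr rfl fun a _ => ?_
    rw [Fin.prod_univ_three]
    exact Ex_mul3 (fun z => ‖T 0 a z‖) (fun z => ‖T 1 a z‖) (fun z => ‖T 2 a z‖)
  · rw [Ex3 (fun z₀ z₁ z₂ : Fin s → Fin d → K =>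
      if IsCoprime (M 0 * ∏ i ∈ V 0, zz 𝔮 (v 0) z₀ i) (M 1 * ∏ i ∈ V 1, zz 𝔮 (v 1) z₁ i)
      then ‖∑ a ∈ Finset.univ.filter (fun a : Fin N → K => d < rk a),
        T 0 a z₀ * T 1 a z₁ * T 2 a z₂‖ else 0)]
    exact minor hC hs hc hd hv hN (ps ψ) (ps_prim hψ) V hV

open Classical in
theorem AI_bound {c₀ μ : ℕ} {𝔮 : K[X]} {M : Fin 3 → K[X]} (hC : Ctx K c₀ μ 𝔮 M) {k s : ℕ}
    (hs : s = 4 * k + 4) (hc : 40 * s ^ 2 ≤ c₀) {d : ℕ} (hd : μ < d) {v : Fin 3 → Fin s → K[X]}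
    (hv : ∀ X, SlotOK 𝔮 d (v X))
    (hrel : 𝔮 ∣ M 0 * ∏ i, v 0 i - (M 1 * ∏ i, v 1 i + M 2 * ∏ i, v 2 i)) {N : ℕ}
    (hN : N + 𝔮.natDegree = μ + s * (d + 𝔮.natDegree))
    (V : Fin 3 → Finset (Fin s)) (hV : ∀ X, (V X).card ≤ k) :
    Ex (fun z : Fin 3 → Fin s → Fin d → K => |AW N 𝔮 M v V z - 1|) ≤
      3 * (4 / 2 ^ (c₀ / 2) + Real.sqrt (Cst (Fintype.card K) s μ 𝔮.natDegree / 2 ^ (d / 8))) +
      2 * ((k : ℝ) ^ 2 * (2 / 2 ^ c₀ + ((d + 𝔮.natDegree : ℕ) : ℝ) / 2 ^ d)) := by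
  set e₁ : ℝ := 4 / 2 ^ (c₀ / 2) +
    Real.sqrt (Cst (Fintype.card K) s μ 𝔮.natDegree / 2 ^ (d / 8)) with he₁
  set p : ℝ := (k : ℝ) ^ 2 * (2 / 2 ^ c₀ + ((d + 𝔮.natDegree : ℕ) : ℝ) / 2 ^ d) with hp
  have hAW0 : ∀ V' z, 0 ≤ AW N 𝔮 M v (d := d) V' z := by
    intro V' z
    refine Ex_nonneg fun z' => ?_
    rw [Wt]
    split_ifs
    · positivity
    · exact le_rfl
  -- V = ∅
  have hEAW : ∀ V' : Fin 3 → Finset (Fin s), Ex (fun z : Fin 3 → Fin s → Fin d → K =>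
      AW N 𝔮 M v V' z) = Ex (fun z : Fin 3 → Fin s → Fin d → K => Wt N 𝔮 M v z) := fun V' =>
    Ex_pw3 V' (fun z : Fin 3 → Fin s → Fin d → K => Wt N 𝔮 M v z)
  have hE : Ex (fun z : Fin 3 → Fin s → Fin d → K => AW N 𝔮 M v V z) ≤ 1 + e₁ := by
    have h1 := cop_part hC hs hc hd hv hrel hN (fun _ => ∅) (fun _ => Nat.zero_le _)
    have h2 : ∀ z : Fin 3 → Fin s → Fin d → K, AW N 𝔮 M v (fun _ => ∅) z ≤ 1 +
        (if IsCoprime (M 0 * ∏ i ∈ (∅ : Finset (Fin s)), zz 𝔮 (v 0) (z 0) i)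
          (M 1 * ∏ i ∈ (∅ : Finset (Fin s)), zz 𝔮 (v 1) (z 1) i)
        then |AW N 𝔮 M v (fun _ => ∅) z - 1| else 0) := by
      intro z
      rw [if_pos (by simpa using hC.cop)]
      have := le_abs_self (AW N 𝔮 M v (fun _ => ∅) z - 1)
      linarith
    rw [hEAW V, ← hEAW (fun _ => ∅)]
    refine (Ex_mono h2).trans ?_
    rw [Ex_add, Ex_const]
    exact add_le_add le_rfl h1
  have h1 := cop_part hC hs hc hd hv hrel hN V hV
  have h2 : Ex (fun z : Fin 3 → Fin s → Fin d → K =>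
      if IsCoprime (M 0 * ∏ i ∈ V 0, zz 𝔮 (v 0) (z 0) i) (M 1 * ∏ i ∈ V 1, zz 𝔮 (v 1) (z 1) i)
      then (0 : ℝ) else 1) ≤ p := by
    rw [Ex3 (fun z₀ z₁ _ : Fin s → Fin d → K =>
      if IsCoprime (M 0 * ∏ i ∈ V 0, zz 𝔮 (v 0) z₀ i) (M 1 * ∏ i ∈ V 1, zz 𝔮 (v 1) z₁ i)
      then (0 : ℝ) else 1)]
    simp only [Ex_const]
    exact noncop hC hv V hV
  have hpt : ∀ z : Fin 3 → Fin s → Fin d → K, |AW N 𝔮 M v V z - 1| ≤
      2 * (if IsCoprime (M 0 * ∏ i ∈ V 0, zz 𝔮 (v 0) (z 0) i)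
        (M 1 * ∏ i ∈ V 1, zz 𝔮 (v 1) (z 1) i) then |AW N 𝔮 M v V z - 1| else 0) +
      AW N 𝔮 M v V z + 2 * (if IsCoprime (M 0 * ∏ i ∈ V 0, zz 𝔮 (v 0) (z 0) i)
        (M 1 * ∏ i ∈ V 1, zz 𝔮 (v 1) (z 1) i) then (0 : ℝ) else 1) - 1 := by
    intro z
    have h0 := hAW0 V z
    split_ifs with hcop
    · have := neg_abs_le (AW N 𝔮 M v V z - 1)
      linarith
    · have : |AW N 𝔮 M v V z - 1| ≤ AW N 𝔮 M v V z + 1 := by
        rw [abs_le]; constructor <;> linarith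
      linarith
  refine (Ex_mono hpt).trans ?_
  rw [Ex_sub, Ex_add, Ex_add, Ex_mul_left, Ex_mul_left, Ex_const]
  linarith

/-- the analytic input holds -/
theorem AI_true (K : Type) [Field K] [Fintype K] : AI K := by
  intro k ε hε
  -- choice of `c₀`
  obtain ⟨n, hn⟩ : ∃ n : ℕ, (48 + 16 * (k : ℝ) ^ 2) / ε < 2 ^ n := by
    obtain ⟨n, hn⟩ := pow_unbounded_of_one_lt ((48 + 16 * (k : ℝ) ^ 2) / ε) (one_lt_two : (1 : ℝ) < 2)
    exact ⟨n, hn⟩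
  refine ⟨max (2 * n) (40 * (4 * k + 4) ^ 2), ?_⟩
  intro c₀ μ 𝔮 M hc₀ hC
  have hcn : 2 * n ≤ c₀ := (le_max_left _ _).trans hc₀
  have hc40 : 40 * (4 * k + 4) ^ 2 ≤ c₀ := (le_max_right _ _).trans hc₀
  -- choice of `d`
  set δ := 𝔮.natDegree with hδ
  set Cc := Cst (Fintype.card K) (4 * k + 4) μ δ with hCc
  have hq0 : (0 : ℝ) < Fintype.card K := by exact_mod_cast Fintype.card_pos
  have hCpos : 0 < Cc := Cst_pos hq0 _ _ _
  obtain ⟨n₁, hn₁⟩ := pow_unbounded_of_one_lt (Cc / (ε / 12) ^ 2) (one_lt_two : (1 : ℝ) < 2)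
  have hlim : Filter.Tendsto (fun d : ℕ => 2 * ((k : ℝ) ^ 2 * (((d + δ : ℕ) : ℝ) / 2 ^ d)))
      Filter.atTop (nhds 0) := by
    have t1 : Filter.Tendsto (fun d : ℕ => (d : ℝ) ^ 1 / 2 ^ d) Filter.atTop (nhds 0) :=
      tendsto_pow_const_div_const_pow_of_one_lt 1 (by norm_num)
    have t2 : Filter.Tendsto (fun d : ℕ => (d : ℝ) ^ 0 / 2 ^ d) Filter.atTop (nhds 0) :=
      tendsto_pow_const_div_const_pow_of_one_lt 0 (by norm_num)
    have t3 := ((t1.add (t2.const_mul (δ : ℝ))).const_mul ((k : ℝ) ^ 2)).const_mul 2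
    simp only [mul_zero, add_zero] at t3
    refine t3.congr fun d => ?_
    push_cast
    ring
  obtain ⟨d₁, hd₁⟩ := Filter.eventually_atTop.1
    (hlim.eventually (gt_mem_nhds (show (0 : ℝ) < ε / 4 by positivity)))
  refine ⟨max (max (8 * n₁) (μ + 1)) d₁, ?_⟩
  intro d hd v hv hrel V hV
  have hd8 : 8 * n₁ ≤ d := ((le_max_left _ _).trans (le_max_left _ _)).trans hd
  have hdμ : μ < d := ((le_max_right _ _).trans (le_max_left _ _)).trans hd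
  have hdd : d₁ ≤ d := (le_max_right _ _).trans hd
  have hN : (μ + (4 * k + 4) * (d + 𝔮.natDegree) - 𝔮.natDegree) + 𝔮.natDegree =
      μ + (4 * k + 4) * (d + 𝔮.natDegree) := by
    apply Nat.sub_add_cancel
    have : 1 * (d + 𝔮.natDegree) ≤ (4 * k + 4) * (d + 𝔮.natDegree) :=
      Nat.mul_le_mul_right _ (by omega)
    omega
  have hb := AI_bound hC rfl hc40 hdμ hv hrel hN V hV
  refine hb.trans ?_
  have b1 : (4 : ℝ) / 2 ^ (c₀ / 2) ≤ ε / 12 := by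
    rw [div_le_div_iff₀ (by positivity) (by norm_num)]
    have h1 : (2 : ℝ) ^ n ≤ 2 ^ (c₀ / 2) := pow_le_pow_right₀ (by norm_num) (by omega)
    rw [div_lt_iff₀ hε] at hn
    have h2 : (0 : ℝ) ≤ 16 * (k : ℝ) ^ 2 := by positivity
    nlinarith
  have b2 : 2 * ((k : ℝ) ^ 2 * (2 / 2 ^ c₀)) ≤ ε / 4 := by
    have h1 : (2 : ℝ) ^ n ≤ 2 ^ c₀ := pow_le_pow_right₀ (by norm_num) (by omega)
    rw [div_lt_iff₀ hε] at hn
    have h3 : 2 * ((k : ℝ) ^ 2 * (2 / 2 ^ c₀)) = (4 * (k : ℝ) ^ 2) / 2 ^ c₀ := by ring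
    rw [h3, div_le_div_iff₀ (by positivity) (by norm_num)]
    nlinarith
  have b3 : Real.sqrt (Cc / 2 ^ (d / 8)) ≤ ε / 12 := by
    rw [Real.sqrt_le_left (by positivity), div_le_iff₀ (by positivity)]
    rw [div_lt_iff₀ (by positivity)] at hn₁
    have h1 : (2 : ℝ) ^ n₁ ≤ 2 ^ (d / 8) := pow_le_pow_right₀ (by norm_num) (by omega)
    have h2 : 0 < (ε / 12) ^ 2 := by positivity
    nlinarith
  have b4 := hd₁ d hdd
  have b5 : 2 * ((k : ℝ) ^ 2 * (2 / 2 ^ c₀ + ((d + δ : ℕ) : ℝ) / 2 ^ d)) =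
    2 * ((k : ℝ) ^ 2 * (2 / 2 ^ c₀)) + 2 * ((k : ℝ) ^ 2 * (((d + δ : ℕ) : ℝ) / 2 ^ d)) := by ring
  rw [b5]
  linarith

end final

end Pool.Agent.H366.GF
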