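import Pool.Agent.H366.GF.Rk2

/-! # Averages, slots, exponential sums: definitions and basic facts -/

set_option autoImplicit false

namespace Pool.Agent.H366.GF

open Polynomial

/-! ### averages -/

/-- average of a real function -/
noncomputable def Ex {α : Type} [Fintype α] (f : α → ℝ) : ℝ := (∑ x, f x) / (Fintype.card α : ℝ)

/-- average of a complex function -/
noncomputable def ExC {α : Type} [Fintype α] (f : α → ℂ) : ℂ := (∑ x, f x) / (Fintype.card α : ℂ)

section Av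

variable {α β : Type} [Fintype α] [Fintype β]

lemma Ex_mono {f g : α → ℝ} (h : ∀ x, f x ≤ g x) : Ex f ≤ Ex g :=
  div_le_div_of_nonneg_right (Finset.sum_le_sum fun x _ => h x) (Nat.cast_nonneg _)

lemma Ex_nonneg {f : α → ℝ} (h : ∀ x, 0 ≤ f x) : 0 ≤ Ex f :=
  div_nonneg (Finset.sum_nonneg fun x _ => h x) (Nat.cast_nonneg _)

lemma card_ne [Nonempty α] : (Fintype.card α : ℝ) ≠ 0 := by
  exact_mod_cast Fintype.card_ne_zero

lemma card_neC [Nonempty α] : (Fintype.card α : ℂ) ≠ 0 := by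
  exact_mod_cast Fintype.card_ne_zero

lemma Ex_const [Nonempty α] (c : ℝ) : Ex (fun _ : α => c) = c := by
  rw [Ex, Finset.sum_const, Finset.card_univ, nsmul_eq_mul, mul_div_cancel_left₀ _ card_ne]

lemma ExC_const [Nonempty α] (c : ℂ) : ExC (fun _ : α => c) = c := by
  rw [ExC, Finset.sum_const, Finset.card_univ, nsmul_eq_mul, mul_div_cancel_left₀ _ card_neC]

lemma Ex_add (f g : α → ℝ) : Ex (fun x => f x + g x) = Ex f + Ex g := by
  rw [Ex, Ex, Ex, Finset.sum_add_distrib, add_div]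

lemma Ex_sub (f g : α → ℝ) : Ex (fun x => f x - g x) = Ex f - Ex g := by
  rw [Ex, Ex, Ex, Finset.sum_sub_distrib, sub_div]

lemma Ex_mul_left (c : ℝ) (f : α → ℝ) : Ex (fun x => c * f x) = c * Ex f := by
  rw [Ex, Ex, ← Finset.mul_sum, mul_div_assoc]

lemma Ex_mul_right (c : ℝ) (f : α → ℝ) : Ex (fun x => f x * c) = Ex f * c := by
  rw [Ex, Ex, ← Finset.sum_mul, mul_div_right_comm]

lemma ExC_mul_left (c : ℂ) (f : α → ℂ) : ExC (fun x => c * f x) = c * ExC f := by
  rw [ExC, ExC, ← Finset.mul_sum, mul_div_assoc]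

lemma ExC_mul_right (c : ℂ) (f : α → ℂ) : ExC (fun x => f x * c) = ExC f * c := by
  rw [ExC, ExC, ← Finset.sum_mul, mul_div_right_comm]

lemma Ex_sum {κ : Type} (s : Finset κ) (f : κ → α → ℝ) :
    Ex (fun x => ∑ i ∈ s, f i x) = ∑ i ∈ s, Ex (f i) := by
  simp only [Ex]
  rw [Finset.sum_comm, Finset.sum_div]

lemma ExC_sum {κ : Type} (s : Finset κ) (f : κ → α → ℂ) :
    ExC (fun x => ∑ i ∈ s, f i x) = ∑ i ∈ s, ExC (f i) := by
  simp only [ExC]
  rw [Finset.sum_comm, Finset.sum_div]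

lemma Ex_comm (f : α → β → ℝ) : Ex (fun x => Ex (fun y => f x y)) = Ex (fun y => Ex (fun x => f x y)) := by
  simp only [Ex, ← Finset.sum_div]
  rw [Finset.sum_comm, div_right_comm]

lemma ExC_comm (f : α → β → ℂ) :
    ExC (fun x => ExC (fun y => f x y)) = ExC (fun y => ExC (fun x => f x y)) := by
  simp only [ExC, ← Finset.sum_div]
  rw [Finset.sum_comm, div_right_comm]

lemma Ex_equiv (e : α ≃ β) (f : β → ℝ) : Ex (fun x => f (e x)) = Ex f := by
  rw [Ex, Ex, Fintype.card_congr e, Equiv.sum_comp e f]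

lemma ExC_equiv (e : α ≃ β) (f : β → ℂ) : ExC (fun x => f (e x)) = ExC f := by
  rw [ExC, ExC, Fintype.card_congr e, Equiv.sum_comp e f]

lemma Ex_prod (f : α × β → ℝ) : Ex f = Ex (fun x => Ex (fun y => f (x, y))) := by
  simp only [Ex, ← Finset.sum_div]
  rw [Fintype.sum_prod_type, Fintype.card_prod, Nat.cast_mul, div_div, mul_comm (Fintype.card β : ℝ)]

lemma norm_ExC_le (f : α → ℂ) : ‖ExC f‖ ≤ Ex (fun x => ‖f x‖) := by
  rw [ExC, Ex, norm_div, Complex.norm_natCast]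
  exact div_le_div_of_nonneg_right (norm_sum_le _ _) (Nat.cast_nonneg _)

lemma Ex_sq_le (f : α → ℝ) : (Ex f) ^ 2 ≤ Ex (fun x => f x ^ 2) := by
  cases isEmpty_or_nonempty α
  · simp [Ex]
  · rw [Ex, Ex, div_pow, div_le_div_iff₀ (by positivity) (by positivity)]
    have := sq_sum_le_card_mul_sum_sq (s := (Finset.univ : Finset α)) (f := f)
    rw [Finset.card_univ] at this
    have h2 : (0 : ℝ) ≤ Fintype.card α := Nat.cast_nonneg _
    nlinarith

lemma norm_ExC_sq_le (f : α → ℂ) : ‖ExC f‖ ^ 2 ≤ Ex (fun x => ‖f x‖ ^ 2) :=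
  (pow_le_pow_left₀ (norm_nonneg _) (norm_ExC_le f) 2).trans (Ex_sq_le _)

lemma Ex_ofReal (f : α → ℝ) : ((Ex f : ℝ) : ℂ) = ExC (fun x => (f x : ℂ)) := by
  rw [Ex, ExC]; push_cast; rfl

end Av

/-! ### piecewise averages -/

section Pw

variable {σ S : Type} [Fintype σ] [DecidableEq σ] [Fintype S]

/-- the involution swapping the coordinates outside `V` -/
def swp (V : Finset σ) : ((σ → S) × (σ → S)) ≃ ((σ → S) × (σ → S)) where
  toFun p := (V.piecewise p.1 p.2, V.piecewise p.2 p.1)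
  invFun p := (V.piecewise p.1 p.2, V.piecewise p.2 p.1)
  left_inv p := by
    ext i <;> by_cases h : i ∈ V <;> simp [Finset.piecewise, h]
  right_inv p := by
    ext i <;> by_cases h : i ∈ V <;> simp [Finset.piecewise, h]

/-- averaging over `z` and `z'` of `f (V.piecewise z z')`. -/
lemma Ex_pw [Nonempty S] (V : Finset σ) (f : (σ → S) → ℝ) :
    Ex (fun z => Ex (fun z' => f (V.piecewise z z'))) = Ex f := by
  rw [← Ex_prod (fun p : (σ → S) × (σ → S) => f (V.piecewise p.1 p.2))]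
  have h1 := Ex_equiv (swp V) (fun p : (σ → S) × (σ → S) => f p.1)
  have h2 : (fun p : (σ → S) × (σ → S) => f (V.piecewise p.1 p.2)) =
    fun p => (fun p : (σ → S) × (σ → S) => f p.1) (swp V p) := rfl
  rw [h2, h1, Ex_prod]
  congr 1
  funext z
  exact Ex_const (α := σ → S) (f z)

omit [Fintype σ] [Fintype S] in
lemma pw_pw {V B : Finset σ} (h : V ⊆ B) (z z' z'' : σ → S) :
    B.piecewise (V.piecewise z z') z'' = V.piecewise z (B.piecewise z' z'') := by
  funext i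
  by_cases hV : i ∈ V
  · simp [Finset.piecewise, hV, h hV]
  · by_cases hB : i ∈ B <;> simp [Finset.piecewise, hV, hB]

end Pw

/-! ### slots -/

section Slots

variable {K : Type} [Field K] {σ : Type} {d : ℕ}

/-- the entry of the slot `i`. -/
noncomputable def zz (𝔮 : K[X]) (v : σ → K[X]) (h : σ → Fin d → K) (i : σ) : K[X] :=
  v i + 𝔮 * pol (h i)

/-- admissible base points of the slots -/
structure SlotOK (𝔮 : K[X]) (d : ℕ) (v : σ → K[X]) : Prop where
  monic : ∀ i, (v i).Monic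
  deg : ∀ i, (v i).natDegree = d + 𝔮.natDegree
  cop : ∀ i, IsCoprime (v i) 𝔮

variable {𝔮 : K[X]} {v : σ → K[X]}

lemma zz_aux (h𝔮 : 𝔮.Monic) (c : Fin d → K) {w : K[X]} (hw : w.Monic)
    (hd : w.natDegree = d + 𝔮.natDegree) : (𝔮 * pol c).degree < w.degree := by
  rw [degree_eq_natDegree hw.ne_zero, hd, degree_mul, degree_eq_natDegree h𝔮.ne_zero]
  have h1 := pol_degree_lt c
  rcases eq_or_ne (pol c) 0 with h0 | h0
  · rw [h0, degree_zero, WithBot.add_bot]
    exact WithBot.bot_lt_coe _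
  · rw [degree_eq_natDegree h0] at h1 ⊢
    have h2 : (pol c).natDegree < d := by exact_mod_cast h1
    have : 𝔮.natDegree + (pol c).natDegree < d + 𝔮.natDegree := by omega
    exact_mod_cast this

lemma zz_monic (h𝔮 : 𝔮.Monic) (hv : SlotOK 𝔮 d v) (h : σ → Fin d → K) (i : σ) :
    (zz 𝔮 v h i).Monic :=
  (hv.monic i).add_of_left (zz_aux h𝔮 (h i) (hv.monic i) (hv.deg i))

lemma zz_natDegree (h𝔮 : 𝔮.Monic) (hv : SlotOK 𝔮 d v) (h : σ → Fin d → K) (i : σ) :
    (zz 𝔮 v h i).natDegree = d + 𝔮.natDegree := by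
  rw [zz, natDegree_add_eq_left_of_degree_lt (zz_aux h𝔮 (h i) (hv.monic i) (hv.deg i)), hv.deg i]

lemma zz_cop (hv : SlotOK 𝔮 d v) (h : σ → Fin d → K) (i : σ) :
    IsCoprime (zz 𝔮 v h i) 𝔮 := by
  rw [zz, IsCoprime.add_mul_left_left_iff]
  exact hv.cop i

lemma zz_inj (h𝔮 : 𝔮.Monic) {h h' : σ → Fin d → K} (hz : ∀ i, zz 𝔮 v h i = zz 𝔮 v h' i) :
    h = h' := by
  funext i
  have := hz i
  rw [zz, zz, add_right_inj] at this
  exact pol_injective (mul_left_cancel₀ h𝔮.ne_zero this)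

lemma prod_zz_monic (h𝔮 : 𝔮.Monic) (hv : SlotOK 𝔮 d v) (h : σ → Fin d → K) (B : Finset σ) :
    (∏ i ∈ B, zz 𝔮 v h i).Monic := monic_prod_of_monic _ _ fun i _ => zz_monic h𝔮 hv h i

lemma prod_zz_natDegree (h𝔮 : 𝔮.Monic) (hv : SlotOK 𝔮 d v) (h : σ → Fin d → K) (B : Finset σ) :
    (∏ i ∈ B, zz 𝔮 v h i).natDegree = B.card * (d + 𝔮.natDegree) := by
  rw [natDegree_prod_of_monic _ _ fun i _ => zz_monic h𝔮 hv h i]
  rw [Finset.sum_congr rfl fun i _ => zz_natDegree h𝔮 hv h i, Finset.sum_const, smul_eq_mul]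

lemma prod_zz_cop (hv : SlotOK 𝔮 d v) (h : σ → Fin d → K) (B : Finset σ) :
    IsCoprime (∏ i ∈ B, zz 𝔮 v h i) 𝔮 :=
  IsCoprime.prod_left fun i _ => zz_cop hv h i

/-- products of slots are congruent to the products of the base points -/
lemma prod_zz_congr (h : σ → Fin d → K) (B : Finset σ) :
    𝔮 ∣ ∏ i ∈ B, zz 𝔮 v h i - ∏ i ∈ B, v i := by
  classical
  induction B using Finset.induction_on with
  | empty => simp
  | insert i B hi ih =>
    rw [Finset.prod_insert hi, Finset.prod_insert hi]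
    obtain ⟨c, hc⟩ := ih
    refine ⟨pol (h i) * ∏ i ∈ B, zz 𝔮 v h i + v i * c, ?_⟩
    rw [zz]
    linear_combination (v i) * hc

end Slots

/-! ### exponential sums -/

section TT

variable {K : Type} [Field K] [Fintype K] {σ : Type} [Fintype σ] [DecidableEq σ] {d : ℕ}

/-- the averaged exponential sum -/
noncomputable def TT (ψ : AddChar K ℂ) (𝔮 M : K[X]) (v : σ → K[X]) {N : ℕ} (a : Fin N → K)
    (V : Finset σ) (z : σ → Fin d → K) : ℂ :=
  ExC (fun z' : σ → Fin d → K =>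
    ψ (Lf a ((M * ∏ i, zz 𝔮 v (V.piecewise z z') i) /ₘ 𝔮)))

end TT

/-! ### characters and linear functionals -/

section Char

variable {K : Type} [Field K] [Fintype K]

lemma norm_psi (ψ : AddChar K ℂ) (x : K) : ‖ψ x‖ = 1 := AddChar.norm_apply ψ x

lemma exists_psi (ψ : AddChar K ℂ) (hψ : ψ.IsPrimitive) : ∃ x, ψ x ≠ 1 := by
  have h1 : AddChar.mulShift ψ 1 ≠ 1 := hψ one_ne_zero
  rw [AddChar.mulShift_one] at h1
  by_contra h
  push Not at h
  apply h1
  ext x
  rw [h x, AddChar.one_apply]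

open Classical in
/-- orthogonality for a linear functional on `K^m` -/
lemma sum_char_linear {ψ : AddChar K ℂ} (hψ : ψ.IsPrimitive) {m : ℕ} (ℓ : (Fin m → K) →ₗ[K] K) :
    ∑ c : Fin m → K, ψ (ℓ c) = if ℓ = 0 then (Fintype.card K : ℂ) ^ m else 0 := by
  have h1 := AddChar.sum_eq_ite (ψ.compAddMonoidHom ℓ.toAddMonoidHom)
  simp only [AddChar.compAddMonoidHom_apply, LinearMap.toAddMonoidHom_coe] at h1
  rw [h1]
  by_cases h : ℓ = 0
  · rw [if_pos h, if_pos]
    · simp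
    · ext c
      simp [h]
  · rw [if_neg h, if_neg]
    intro h0
    apply h
    obtain ⟨x, hx⟩ := exists_psi ψ hψ
    by_contra h'
    obtain ⟨c, hc⟩ : ∃ c, ℓ c ≠ 0 := by
      by_contra hcon
      push Not at hcon
      exact h' (LinearMap.ext hcon)
    apply hx
    have h2 := DFunLike.congr_fun h0 ((x * (ℓ c)⁻¹) • c)
    simp only [AddChar.compAddMonoidHom_apply, LinearMap.toAddMonoidHom_coe, map_smul,
      smul_eq_mul, AddChar.zero_apply] at h2
    rwa [mul_assoc, inv_mul_cancel₀ hc, mul_one] at h2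

open Classical in
/-- orthogonality in the argument -/
lemma sum_char_kl {ψ : AddChar K ℂ} (hψ : ψ.IsPrimitive) {N : ℕ} (a : Fin N → K) (R : K[X])
    (m : ℕ) : ∑ c : Fin m → K, ψ (Lf a (R * pol c)) =
      if Kl a R m then (Fintype.card K : ℂ) ^ m else 0 := by
  have h1 := sum_char_linear hψ ((Lf a).comp ((LinearMap.mulLeft K R).comp (pol (m := m))))
  simp only [LinearMap.comp_apply, LinearMap.mulLeft_apply] at h1
  rw [h1]
  congr 1
  apply propext
  constructor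
  · intro h g hg
    obtain ⟨c, rfl⟩ := exists_pol' g hg
    exact DFunLike.congr_fun h c
  · intro h
    ext1 c
    ext
    simp only [LinearMap.comp_apply, LinearMap.mulLeft_apply, LinearMap.zero_apply]
    rcases Nat.eq_zero_or_pos m with hm | hm
    · subst hm
      exact c.elim0
    · exact h _ (pol_natDegree_lt hm _)

open Classical in
/-- orthogonality in the functional -/
lemma sum_char_arg {ψ : AddChar K ℂ} (hψ : ψ.IsPrimitive) {N : ℕ} (g : K[X]) (hg : g.degree < N) :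
    ∑ a : Fin N → K, ψ (Lf a g) = if g = 0 then (Fintype.card K : ℂ) ^ N else 0 := by
  have h1 := sum_char_linear hψ (∑ i : Fin N, (g.coeff i) • LinearMap.proj (R := K)
    (φ := fun _ : Fin N => K) i)
  have h2 : ∀ a : Fin N → K, (∑ i : Fin N, (g.coeff i) • LinearMap.proj (R := K)
    (φ := fun _ : Fin N => K) i) a = Lf a g := by
    intro a
    rw [Lf_apply]
    simp [LinearMap.sum_apply, mul_comm]
  simp only [h2] at h1
  rw [h1]
  congr 1
  apply propext
  constructor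
  · intro h
    ext i
    rw [coeff_zero]
    by_cases hi : i < N
    · have h3 := h2 (Pi.single ⟨i, hi⟩ 1)
      rw [h, LinearMap.zero_apply, Lf_apply, Finset.sum_eq_single ⟨i, hi⟩] at h3
      · simpa using h3.symm
      · intro j _ hj
        rw [Pi.single_eq_of_ne hj, zero_mul]
      · simp
    · exact (degree_lt_iff_coeff_zero _ _).1 hg i (by omega)
  · rintro rfl
    simp

omit [Fintype K] in
open Classical in
/-- comparison of an average with the sum over a parametrized set of values -/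
lemma Ex_fibre {α κ : Type} [Fintype α] [Fintype κ] (f : α → K[X]) (g : κ → K[X])
    (hg : ∀ x, ∃ c, g c = f x) (p : ℝ)
    (hp : ∀ F, Ex (fun x => if f x = F then (1 : ℝ) else 0) ≤ p) (G : K[X] → ℝ)
    (hG : ∀ F, 0 ≤ G F) : Ex (fun x => G (f x)) ≤ p * ∑ c, G (g c) := by
  calc Ex (fun x => G (f x)) ≤ Ex (fun x => ∑ c, G (g c) * (if f x = g c then (1 : ℝ) else 0)) := by
        refine Ex_mono fun x => ?_
        obtain ⟨c, hc⟩ := hg x
        refine le_trans (le_of_eq ?_) (Finset.single_le_sum (f := fun c => G (g c) *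
          (if f x = g c then (1 : ℝ) else 0)) (fun c _ => mul_nonneg (hG _) (by split_ifs <;> simp))
          (Finset.mem_univ c))
        simp [hc]
    _ = ∑ c, G (g c) * Ex (fun x => (if f x = g c then (1 : ℝ) else 0)) := by
        rw [Ex_sum]
        exact Finset.sum_congr rfl fun c _ => Ex_mul_left _ _
    _ ≤ ∑ c, G (g c) * p := Finset.sum_le_sum fun c _ => mul_le_mul_of_nonneg_left (hp _) (hG _)
    _ = p * ∑ c, G (g c) := by rw [← Finset.sum_mul, mul_comm]

end Char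

/-! ### context -/

/-- the fixed data: the modulus `𝔮`, the three multipliers, `c₀`. -/
structure Ctx (K : Type) [Field K] (c₀ μ : ℕ) (𝔮 : K[X]) (M : Fin 3 → K[X]) : Prop where
  pos : 0 < c₀
  mq : 𝔮.Monic
  mM : ∀ X, (M X).Monic
  small : ∀ P : K[X], Irreducible P → P.natDegree < c₀ → P ∣ 𝔮
  smooth : ∀ (X : Fin 3) (P : K[X]), Irreducible P → P ∣ M X → P.natDegree < c₀
  cop : IsCoprime (M 0) (M 1)
  deg0 : (M 0).natDegree = μ
  deg1 : (M 1).natDegree = μ
  deg2 : (M 2).natDegree < μ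

open Classical in
/-- the weight -/
noncomputable def Wt {K : Type} [Field K] [Fintype K] {σ : Type} [Fintype σ] {d : ℕ} (N : ℕ)
    (𝔮 : K[X]) (M : Fin 3 → K[X]) (v : Fin 3 → σ → K[X]) (z : Fin 3 → σ → Fin d → K) : ℝ :=
  if M 0 * ∏ i, zz 𝔮 (v 0) (z 0) i =
      M 1 * ∏ i, zz 𝔮 (v 1) (z 1) i + M 2 * ∏ i, zz 𝔮 (v 2) (z 2) i
    then (Fintype.card K : ℝ) ^ N else 0

/-- the analytic input -/
def AI (K : Type) [Field K] [Fintype K] : Prop :=
  ∀ (k : ℕ) (ε : ℝ), 0 < ε → ∃ cs : ℕ, ∀ (c₀ μ : ℕ) (𝔮 : K[X]) (M : Fin 3 → K[X]),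
    cs ≤ c₀ → Ctx K c₀ μ 𝔮 M → ∃ d₀ : ℕ, ∀ d : ℕ, d₀ ≤ d →
    ∀ v : Fin 3 → Fin (4 * k + 4) → K[X], (∀ X, SlotOK 𝔮 d (v X)) →
    𝔮 ∣ M 0 * ∏ i, v 0 i - (M 1 * ∏ i, v 1 i + M 2 * ∏ i, v 2 i) →
    ∀ V : Fin 3 → Finset (Fin (4 * k + 4)), (∀ X, (V X).card ≤ k) →
    Ex (fun z : Fin 3 → Fin (4 * k + 4) → Fin d → K =>
      |Ex (fun z' : Fin 3 → Fin (4 * k + 4) → Fin d → K =>
        Wt (μ + (4 * k + 4) * (d + 𝔮.natDegree) - 𝔮.natDegree) 𝔮 M v
          (fun X => (V X).piecewise (z X) (z' X))) - 1|) ≤ ε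

end Pool.Agent.H366.GF
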