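import Pool.Agent.H980.Ctr

/-! The contraction theorem `Pool.Agent.H366.GF.CTR` is proved in `Pool.Agent.H980.Ctr`. -/
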