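import Pool.Agent.H366.GF.An

/-! # Divisors and fibres of products (by helper340) -/

set_option autoImplicit false

namespace Pool.Agent.H366.GF

open Polynomial UniqueFactorizationMonoid

variable {K : Type} [Field K]

open Classical in
/-- the monic divisors (for `F ≠ 0`). -/
noncomputable def dv (F : K[X]) : Finset K[X] :=
  ((normalizedFactors F).powerset.map Multiset.prod).toFinset

open Classical in
/-- [D1] -/
theorem mem_dv {F g : K[X]} (hF : F ≠ 0) (hg : g.Monic) (h : g ∣ F) : g ∈ dv F := by
  rw [dv, Multiset.mem_toFinset, Multiset.mem_map]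
  refine ⟨normalizedFactors g, ?_, ?_⟩
  · rw [Multiset.mem_powerset]
    exact (dvd_iff_normalizedFactors_le_normalizedFactors hg.ne_zero hF).1 h
  · rw [prod_normalizedFactors_eq hg.ne_zero]
    exact hg.normalize_eq_self

open Classical in
/-- [D2] -/
theorem of_mem_dv {F g : K[X]} (hF : F ≠ 0) (h : g ∈ dv F) : g.Monic ∧ g ∣ F := by
  rw [dv, Multiset.mem_toFinset, Multiset.mem_map] at h
  obtain ⟨s, hs, rfl⟩ := h
  rw [Multiset.mem_powerset] at hs
  refine ⟨monic_multiset_prod_of_monic s id ?_ |> fun h => by simpa using h, ?_⟩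
  · intro P hP
    have h1 := Multiset.mem_of_le hs hP
    have h2 := normalize_normalized_factor P h1
    have h3 : P ≠ 0 := (irreducible_of_normalized_factor P h1).ne_zero
    rw [← h2]
    exact monic_normalize h3
  · refine (Multiset.prod_dvd_prod_of_le hs).trans ?_
    rw [prod_normalizedFactors_eq hF]
    exact (normalize_associated F).dvd

open Classical in
lemma card_nf {F : K[X]} (hF : F ≠ 0) {c : ℕ}
    (h : ∀ P : K[X], Irreducible P → P ∣ F → c ≤ P.natDegree) :
    c * (normalizedFactors F).card ≤ F.natDegree := by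
  have h1 : ((normalizedFactors F).map natDegree).sum = F.natDegree := by
    rw [← natDegree_multiset_prod _ (zero_notMem_normalizedFactors F),
      prod_normalizedFactors_eq hF]
    exact natDegree_eq_of_degree_eq (degree_normalize)
  rw [← h1]
  have h2 := Multiset.card_nsmul_le_sum (s := (normalizedFactors F).map natDegree) (a := c) ?_
  · rwa [Multiset.card_map, smul_eq_mul, mul_comm] at h2
  · intro x hx
    obtain ⟨P, hP, rfl⟩ := Multiset.mem_map.1 hx
    exact h P (irreducible_of_normalized_factor P hP) (dvd_of_mem_normalizedFactors hP)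

open Classical in
/-- [D3] the number of monic divisors of `M F`, all primes of `F` having degree at least `c₀`. -/
theorem card_dv_le {M F : K[X]} (hM : M ≠ 0) (hF : F ≠ 0) {c₀ : ℕ} (hc : 0 < c₀)
    (h : ∀ P : K[X], Irreducible P → P ∣ F → c₀ ≤ P.natDegree) :
    (dv (M * F)).card ≤ 2 ^ (M.natDegree + F.natDegree / c₀) := by
  have h1 : (dv (M * F)).card ≤ 2 ^ (normalizedFactors (M * F)).card := by
    refine (Multiset.toFinset_card_le _).trans ?_
    rw [Multiset.card_map, Multiset.card_powerset]
  refine h1.trans (Nat.pow_le_pow_right (by norm_num) ?_)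
  rw [normalizedFactors_mul hM hF, Multiset.card_add]
  have h2 := card_nf (F := M) hM (c := 1) (fun P hP _ => hP.natDegree_pos)
  have h3 := card_nf hF h
  rw [one_mul] at h2
  have h4 : (normalizedFactors F).card ≤ F.natDegree / c₀ := by
    rw [Nat.le_div_iff_mul_le hc, mul_comm]
    exact h3
  omega

variable [Fintype K] {σ : Type} [Fintype σ] [DecidableEq σ] {d : ℕ} {𝔮 : K[X]} {v : σ → K[X]}

/-- probability of independent conditions on the slots -/
lemma prob_pi {K : Type} [Fintype K] [Nonempty K] {σ : Type} [Fintype σ] [DecidableEq σ] {d : ℕ}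
    (B : Finset σ) (S : σ → Finset (Fin d → K)) (e : σ → ℕ) (he : ∀ i ∈ B, e i ≤ d)
    (hS : ∀ i ∈ B, (S i).card ≤ Fintype.card K ^ (d - e i))
    [DecidablePred fun h : σ → Fin d → K => ∀ i ∈ B, h i ∈ S i] :
    Ex (fun h : σ → Fin d → K => if ∀ i ∈ B, h i ∈ S i then (1 : ℝ) else 0) ≤
      1 / (Fintype.card K : ℝ) ^ (∑ i ∈ B, e i) := by
  have hq : (0 : ℝ) < Fintype.card K := by exact_mod_cast Fintype.card_pos
  rw [Ex, Finset.sum_boole, div_le_div_iff₀ (by exact_mod_cast Fintype.card_pos) (by positivity),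
    one_mul]
  have h1 : (Finset.univ.filter fun h : σ → Fin d → K => ∀ i ∈ B, h i ∈ S i) =
      Fintype.piFinset (fun i => if i ∈ B then S i else Finset.univ) := by
    ext h
    simp only [Finset.mem_filter, Finset.mem_univ, true_and, Fintype.mem_piFinset]
    refine forall_congr' fun i => ?_
    by_cases hi : i ∈ B <;> simp [hi]
  rw [h1, Fintype.card_piFinset]
  have h2 : (∏ i, (if i ∈ B then S i else Finset.univ).card) *
      Fintype.card K ^ (∑ i ∈ B, e i) ≤ Fintype.card (σ → Fin d → K) := by
    rw [← Finset.prod_pow_eq_pow_sum, ← Finset.prod_ite_mem_eq B, ← Finset.prod_mul_distrib,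
      Fintype.card_fun, Fintype.card_fun, Fintype.card_fin]
    calc _ ≤ ∏ _i : σ, Fintype.card K ^ d := by
          refine Finset.prod_le_prod' fun i _ => ?_
          by_cases hi : i ∈ B
          · rw [if_pos hi, if_pos hi]
            calc _ ≤ Fintype.card K ^ (d - e i) * Fintype.card K ^ (e i) :=
                  Nat.mul_le_mul_right _ (hS i hi)
              _ = _ := by rw [← pow_add, Nat.sub_add_cancel (he i hi)]
          · rw [if_neg hi, if_neg hi, mul_one, Finset.card_univ, Fintype.card_fun,
              Fintype.card_fin]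
      _ = _ := by rw [Finset.prod_const, Finset.card_univ]
  exact_mod_cast h2

/-- union bound -/
lemma prob_union {α κ : Type} [Fintype α] (T : Finset κ) (P : α → Prop)
    (R : κ → α → Prop) [DecidablePred P] [∀ w, DecidablePred (R w)]
    (hP : ∀ h, P h → ∃ w ∈ T, R w h) (c : ℝ)
    (hc : ∀ w ∈ T, Ex (fun h => if R w h then (1 : ℝ) else 0) ≤ c) :
    Ex (fun h => if P h then (1 : ℝ) else 0) ≤ T.card * c := by
  calc Ex (fun h => if P h then (1 : ℝ) else 0)
      ≤ Ex (fun h => ∑ w ∈ T, if R w h then (1 : ℝ) else 0) := by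
        refine Ex_mono fun h => ?_
        by_cases hh : P h
        · obtain ⟨w, hw, hR⟩ := hP h hh
          rw [if_pos hh]
          refine le_trans (le_of_eq ?_) (Finset.single_le_sum
            (f := fun w => if R w h then (1 : ℝ) else 0) (fun w _ => by split_ifs <;> simp) hw)
          simp [hR]
        · rw [if_neg hh]
          exact Finset.sum_nonneg fun w _ => by split_ifs <;> simp
    _ = ∑ w ∈ T, Ex (fun h => if R w h then (1 : ℝ) else 0) := Ex_sum _ _
    _ ≤ ∑ w ∈ T, c := Finset.sum_le_sum hc
    _ = T.card * c := by rw [Finset.sum_const, nsmul_eq_mul]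

open Classical in
/-- [D4] the fibres of a product of slots. -/
theorem prob_fibre (h𝔮 : 𝔮.Monic) (hv : SlotOK 𝔮 d v) {c₀ : ℕ} (hc : 0 < c₀)
    (hsm : ∀ P : K[X], Irreducible P → P.natDegree < c₀ → P ∣ 𝔮) (B : Finset σ) (F : K[X]) :
    Ex (fun h : σ → Fin d → K => if ∏ i ∈ B, zz 𝔮 v h i = F then (1 : ℝ) else 0) ≤
      ((2 : ℝ) ^ (B.card * (d + 𝔮.natDegree) / c₀)) ^ B.card /
        (Fintype.card K : ℝ) ^ (d * B.card) := by
  have hq : (0 : ℝ) < Fintype.card K := by exact_mod_cast Fintype.card_pos
  by_cases hex : ∃ h : σ → Fin d → K, ∏ i ∈ B, zz 𝔮 v h i = F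
  · obtain ⟨h0, hh0⟩ := hex
    have hm : F.Monic := hh0 ▸ prod_zz_monic h𝔮 hv h0 B
    have hdeg : F.natDegree = B.card * (d + 𝔮.natDegree) := hh0 ▸ prod_zz_natDegree h𝔮 hv h0 B
    have hcop : IsCoprime F 𝔮 := hh0 ▸ prod_zz_cop hv h0 B
    have hcard : (dv F).card ≤ 2 ^ (B.card * (d + 𝔮.natDegree) / c₀) := by
      have h1 := card_dv_le (M := (1 : K[X])) one_ne_zero hm.ne_zero hc ?_
      · rwa [one_mul, natDegree_one, zero_add, hdeg] at h1
      · intro P hP hPF
        by_contra hlt
        push Not at hlt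
        exact hP.not_isUnit (hcop.isUnit_of_dvd' hPF (hsm P hP hlt))
    have h1 := prob_union
      (Fintype.piFinset (fun i => if i ∈ B then dv F else {0}))
      (fun h => ∏ i ∈ B, zz 𝔮 v h i = F)
      (fun w h => ∀ i ∈ B, h i ∈ Finset.univ.filter (fun c : Fin d → K => v i + 𝔮 * pol c = w i))
      (by
        intro h hh
        refine ⟨fun i => if i ∈ B then zz 𝔮 v h i else 0, ?_, ?_⟩
        · rw [Fintype.mem_piFinset]
          intro i
          by_cases hi : i ∈ B
          · simp only [if_pos hi]
            exact mem_dv hm.ne_zero (zz_monic h𝔮 hv h i) (hh ▸ Finset.dvd_prod_of_mem _ hi)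
          · simp [if_neg hi]
        · intro i hi
          simp only [if_pos hi, Finset.mem_filter, Finset.mem_univ, true_and]
          rfl)
      (1 / (Fintype.card K : ℝ) ^ (∑ i ∈ B, d))
      (by
        intro w _
        refine prob_pi (K := K) B _ (fun _ => d) (fun _ _ => le_refl _) ?_
        intro i _
        rw [Nat.sub_self, pow_zero, Finset.card_le_one]
        intro a ha b hb
        rw [Finset.mem_filter] at ha hb
        have h2 : v i + 𝔮 * pol a = v i + 𝔮 * pol b := ha.2.trans hb.2.symm
        rw [add_right_inj] at h2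
        exact pol_injective (mul_left_cancel₀ h𝔮.ne_zero h2))
    refine h1.trans ?_
    rw [Fintype.card_piFinset, Finset.sum_const, smul_eq_mul, mul_comm B.card d, mul_one_div]
    refine div_le_div_of_nonneg_right ?_ (by positivity)
    have h3 : (∏ i : σ, (if i ∈ B then dv F else {0}).card) = (dv F).card ^ B.card := by
      rw [← Finset.prod_const, ← Finset.prod_ite_mem_eq B]
      refine Finset.prod_congr rfl fun i _ => ?_
      by_cases hi : i ∈ B <;> simp [hi]
    rw [h3]
    have h4 : (dv F).card ^ B.card ≤ (2 ^ (B.card * (d + 𝔮.natDegree) / c₀)) ^ B.card :=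
      Nat.pow_le_pow_left hcard _
    exact_mod_cast h4
  · push Not at hex
    have h1 : Ex (fun h : σ → Fin d → K => if ∏ i ∈ B, zz 𝔮 v h i = F then (1 : ℝ) else 0) = 0 := by
      rw [Ex, Finset.sum_eq_zero, zero_div]
      intro h _
      rw [if_neg (hex h)]
    rw [h1]
    positivity

open Classical in
/-- the number of the entries of a slot divisible by `W` -/
lemma card_slot {W w : K[X]} (hW : W.Monic) (hcop : IsCoprime W 𝔮) (hd : W.natDegree ≤ d) :
    (Finset.univ.filter (fun c : Fin d → K => W ∣ w + 𝔮 * pol c)).card ≤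
      Fintype.card K ^ (d - W.natDegree) := by
  have h1 : Fintype.card (Fin (d - W.natDegree) → K) = Fintype.card K ^ (d - W.natDegree) := by
    rw [Fintype.card_fun, Fintype.card_fin]
  rw [← h1, ← Finset.card_univ]
  have hdegq : ∀ c : Fin d → K, (pol c /ₘ W).degree < ((d - W.natDegree : ℕ) : WithBot ℕ) := by
    intro c
    by_cases h0 : pol c /ₘ W = 0
    · rw [h0, degree_zero]; exact WithBot.bot_lt_coe _
    · have h2 : (pol c /ₘ W).natDegree = (pol c).natDegree - W.natDegree := natDegree_divByMonic _ hW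
      have h3 : ¬ (pol c).degree < W.degree := fun h => h0 ((divByMonic_eq_zero_iff hW).2 h)
      have h4 : pol c ≠ 0 := by
        intro h
        apply h0
        rw [h, zero_divByMonic]
      have h5 : W.natDegree ≤ (pol c).natDegree := natDegree_le_natDegree (not_lt.1 h3)
      have h6 : (pol c).natDegree < d := by
        have := pol_degree_lt c
        rw [degree_eq_natDegree h4] at this
        exact_mod_cast this
      rw [degree_eq_natDegree h0]
      have h7 : (pol c /ₘ W).natDegree < d - W.natDegree := by omega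
      exact_mod_cast h7
  refine Finset.card_le_card_of_injOn
    (fun c => fun j : Fin (d - W.natDegree) => (pol c /ₘ W).coeff j) (fun _ _ => Finset.mem_univ _) ?_
  intro a ha b hb hab
  simp only [Finset.coe_filter, Finset.mem_univ, true_and, Set.mem_ofPred_eq] at ha hb
  have h2 : pol a /ₘ W = pol b /ₘ W := by
    ext j
    by_cases hj : j < d - W.natDegree
    · exact congrFun hab ⟨j, hj⟩
    · rw [(degree_lt_iff_coeff_zero _ _).1 (hdegq a) j (by omega),
        (degree_lt_iff_coeff_zero _ _).1 (hdegq b) j (by omega)]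
  have h3 : W ∣ pol a - pol b := by
    refine hcop.dvd_of_dvd_mul_left ?_
    have := dvd_sub ha hb
    have h4 : w + 𝔮 * pol a - (w + 𝔮 * pol b) = 𝔮 * (pol a - pol b) := by ring
    rwa [h4] at this
  have h5 : pol a %ₘ W = pol b %ₘ W := by
    rw [← sub_eq_zero, ← sub_modByMonic, modByMonic_eq_zero_iff_dvd hW]
    exact h3
  apply pol_injective
  rw [← modByMonic_add_div (pol a) W, ← modByMonic_add_div (pol b) W, h2, h5]

omit [Fintype K] [Fintype σ] in
open Classical in
/-- splitting a divisor of a product -/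
lemma split_dvd {z : σ → K[X]} (hz : ∀ i, z i ≠ 0) (B : Finset σ) :
    ∀ {Q : K[X]}, Q.Monic → Q ∣ ∏ i ∈ B, z i →
      ∃ w : σ → K[X], (∀ i ∈ B, (w i).Monic ∧ w i ∣ z i) ∧ ∏ i ∈ B, w i = Q := by
  induction B using Finset.induction_on with
  | empty =>
    intro Q hQ h
    refine ⟨fun _ => 1, by simp, ?_⟩
    rw [Finset.prod_empty] at h ⊢
    exact ((hQ.isUnit_iff).1 (isUnit_of_dvd_one h)).symm
  | insert i B hi ih =>
    intro Q hQ h
    rw [Finset.prod_insert hi] at h
    obtain ⟨Q1, Q2, h1, h2, h3⟩ := exists_dvd_and_dvd_of_dvd_mul h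
    have hQ1 : Q1 ≠ 0 := by rintro rfl; exact hQ.ne_zero (by rw [h3, zero_mul])
    have hQ2 : Q2 ≠ 0 := by rintro rfl; exact hQ.ne_zero (by rw [h3, mul_zero])
    have hm1 : (normalize Q1).Monic := monic_normalize hQ1
    have hm2 : (normalize Q2).Monic := monic_normalize hQ2
    obtain ⟨w, hw, hw2⟩ := ih hm2 ((normalize_associated Q2).dvd.trans h2)
    refine ⟨Function.update w i (normalize Q1), ?_, ?_⟩
    · intro j hj
      by_cases hji : j = i
      · subst hji
        rw [Function.update_self]
        exact ⟨hm1, (normalize_associated Q1).dvd.trans h1⟩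
      · rw [Function.update_of_ne hji]
        exact hw j (Finset.mem_of_mem_insert_of_ne hj hji)
    · rw [Finset.prod_insert hi, Function.update_self]
      have h4 : ∏ j ∈ B, Function.update w i (normalize Q1) j = ∏ j ∈ B, w j := by
        refine Finset.prod_congr rfl fun j hj => ?_
        rw [Function.update_of_ne]
        rintro rfl
        exact hi hj
      rw [h4, hw2, ← normalize_mul, ← h3, hQ.normalize_eq_self]

open Classical in
/-- [D5] the probability that a product of slots is divisible by `Q`. -/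
theorem prob_dvd (h𝔮 : 𝔮.Monic) (hv : SlotOK 𝔮 d v) {Q : K[X]} (hQ : Q.Monic)
    (hQ𝔮 : IsCoprime Q 𝔮) (hQd : Q.natDegree ≤ d) (B : Finset σ) :
    Ex (fun h : σ → Fin d → K => if Q ∣ ∏ i ∈ B, zz 𝔮 v h i then (1 : ℝ) else 0) ≤
      ((dv Q).card : ℝ) ^ B.card / (Fintype.card K : ℝ) ^ Q.natDegree := by
  have hq : (0 : ℝ) < Fintype.card K := by exact_mod_cast Fintype.card_pos
  have h1 := prob_union
    ((Fintype.piFinset (fun i => if i ∈ B then dv Q else {0})).filter
      (fun w => ∏ i ∈ B, w i = Q))
    (fun h => Q ∣ ∏ i ∈ B, zz 𝔮 v h i)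
    (fun w h => ∀ i ∈ B, h i ∈ Finset.univ.filter (fun c : Fin d → K => w i ∣ v i + 𝔮 * pol c))
    (by
      intro h hh
      obtain ⟨w, hw, hw2⟩ := split_dvd (fun i => (zz_monic h𝔮 hv h i).ne_zero) B hQ hh
      refine ⟨fun i => if i ∈ B then w i else 0, ?_, ?_⟩
      · rw [Finset.mem_filter, Fintype.mem_piFinset]
        constructor
        · intro i
          by_cases hi : i ∈ B
          · simp only [if_pos hi]
            exact mem_dv hQ.ne_zero (hw i hi).1 (hw2 ▸ Finset.dvd_prod_of_mem _ hi)
          · simp [if_neg hi]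
        · rw [← hw2]
          exact Finset.prod_congr rfl fun i hi => if_pos hi
      · intro i hi
        simp only [if_pos hi, Finset.mem_filter, Finset.mem_univ, true_and]
        exact (hw i hi).2)
    (1 / (Fintype.card K : ℝ) ^ Q.natDegree)
    (by
      intro w hw
      rw [Finset.mem_filter, Fintype.mem_piFinset] at hw
      have hw1 : ∀ i ∈ B, (w i).Monic ∧ w i ∣ Q := by
        intro i hi
        have := hw.1 i
        rw [if_pos hi] at this
        exact of_mem_dv hQ.ne_zero this
      have hsum : ∑ i ∈ B, (w i).natDegree = Q.natDegree := by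
        rw [← hw.2, natDegree_prod_of_monic _ _ fun i hi => (hw1 i hi).1]
      rw [← hsum]
      have hle : ∀ i ∈ B, (w i).natDegree ≤ d := fun i hi =>
        (natDegree_le_of_dvd (hw1 i hi).2 hQ.ne_zero).trans hQd
      refine prob_pi (K := K) B _ (fun i => (w i).natDegree) hle ?_
      intro i hi
      exact card_slot (hw1 i hi).1 (hQ𝔮.of_isCoprime_of_dvd_left (hw1 i hi).2) (hle i hi))
  refine h1.trans ?_
  rw [mul_one_div]
  refine div_le_div_of_nonneg_right ?_ (by positivity)
  have h3 : (∏ i : σ, (if i ∈ B then dv Q else {0}).card) = (dv Q).card ^ B.card := by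
    rw [← Finset.prod_const, ← Finset.prod_ite_mem_eq B]
    refine Finset.prod_congr rfl fun i _ => ?_
    by_cases hi : i ∈ B <;> simp [hi]
  have h4 := (Finset.card_filter_le (Fintype.piFinset (fun i => if i ∈ B then dv Q else {0}))
      (fun w => ∏ i ∈ B, w i = Q)).trans (le_of_eq (Fintype.card_piFinset _))
  rw [h3] at h4
  exact_mod_cast h4

end Pool.Agent.H366.GF
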