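import Pool.Graph.R_seed8.H39R2.Gon.Base

/-! # [FIN] statements -/

set_option autoImplicit false

namespace Pool.Agent.H366.GF

open Polynomial H39Gon

/-- the key vanishing statement for the field `K(x)`. -/
def KEY (K : Type) [Field K] (m : ℕ) : Prop :=
  ∀ Q : MultilinearMap ℤ (fun _ : Fin (m + 1) => UV (RatFunc K)) (UV (RatFunc K) →ₗ[ℤ] ℚ),
    (∀ f : RatFunc K, f ≠ 0 → f ≠ 1 → Q (fun _ => cl f) (cl (1 - f)) = 0) →
    ∃ c₁ : ℕ, ∀ A B C : K[X], A.Monic → B.Monic → C.Monic →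
      IsCoprime A B → IsCoprime A C → IsCoprime B C →
      A.natDegree = B.natDegree → C.natDegree < A.natDegree →
      (∃ c₀ : ℕ, c₁ ≤ c₀ ∧ ∀ P : K[X], Irreducible P → (P ∣ A * B * C ↔ P.natDegree < c₀)) →
      Q (fun _ => cl (algebraMap K[X] (RatFunc K) A) - cl (algebraMap K[X] (RatFunc K) C))
        (cl (algebraMap K[X] (RatFunc K) B) - cl (algebraMap K[X] (RatFunc K) C)) = 0

end Pool.Agent.H366.GF
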