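import Pool.Agent.H366.GF.An
import Pool.Agent.H366.GF.FinDefs
import Pool.Graph.R_seed8.H39R2.Gon.B2

/-! # Multilinear algebra for the key statement -/

set_option autoImplicit false

namespace Pool.Agent.H366.GF

open Polynomial H39Gon

section lead

variable {V : Type} [AddCommGroup V] {m : ℕ}
  (Q : MultilinearMap ℤ (fun _ : Fin (m + 1) => V) (V →ₗ[ℤ] ℚ))

/-- the values along a line are given by a polynomial of degree `≤ m + 2` whose top
coefficient is `Q(x,…,x;v)`. -/
lemma exists_poly' (x y v w : V) : ∃ p : ℚ[X], p.natDegree ≤ m + 2 ∧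
    p.coeff (m + 2) = Q (fun _ => x) v ∧ ∀ i : ℤ,
    Q (fun _ => i • x + y) (i • v + w) = p.eval (i : ℚ) := by
  classical
  refine ⟨∑ s : Finset (Fin (m + 1)), X ^ s.card *
    (C (Q (s.piecewise (fun _ => x) (fun _ => y)) v) * X +
      C (Q (s.piecewise (fun _ => x) (fun _ => y)) w)), ?_, ?_, fun i => ?_⟩
  · refine natDegree_sum_le_of_forall_le _ _ fun s _ => ?_
    have h1 : s.card ≤ m + 1 := by
      have := Finset.card_le_univ s
      rwa [Fintype.card_fin] at this
    refine natDegree_mul_le.trans ?_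
    rw [natDegree_X_pow]
    have h2 := natDegree_linear_le (a := Q (s.piecewise (fun _ => x) (fun _ => y)) v)
      (b := Q (s.piecewise (fun _ => x) (fun _ => y)) w)
    omega
  · rw [finsetSum_coeff, Finset.sum_eq_single (Finset.univ : Finset (Fin (m + 1)))]
    · rw [Finset.card_univ, Fintype.card_fin, coeff_X_pow_mul']
      simp [Finset.piecewise_univ]
    · intro s _ hs
      have h1 : s.card < m + 1 := by
        have h3 : s.card < (Finset.univ : Finset (Fin (m + 1))).card :=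
          Finset.card_lt_card (Finset.ssubset_univ_iff.2 hs)
        rwa [Finset.card_univ, Fintype.card_fin] at h3
      apply coeff_eq_zero_of_natDegree_lt
      refine lt_of_le_of_lt natDegree_mul_le ?_
      rw [natDegree_X_pow]
      have h2 := natDegree_linear_le (a := Q (s.piecewise (fun _ => x) (fun _ => y)) v)
        (b := Q (s.piecewise (fun _ => x) (fun _ => y)) w)
      omega
    · simp
  have h1 : Q (fun _ => i • x + y) = ∑ s : Finset (Fin (m + 1)),
      i ^ s.card • Q (s.piecewise (fun _ => x) (fun _ => y)) := by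
    have h2 := Q.map_add_univ (fun _ => i • x) (fun _ => y)
    have h3 : ((fun _ => i • x) + fun _ => y : Fin (m + 1) → V) = fun _ => i • x + y := rfl
    rw [h3] at h2
    rw [h2]
    refine Finset.sum_congr rfl fun s _ => ?_
    have h4 := Q.map_piecewise_smul (fun _ => i) (s.piecewise (fun _ => x) (fun _ => y)) s
    rw [Finset.prod_const] at h4
    rw [← h4]
    congr 1
    funext j
    by_cases hj : j ∈ s
    · simp [Finset.piecewise_eq_of_mem, hj]
    · simp [Finset.piecewise_eq_of_notMem, hj]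
  rw [h1, LinearMap.sum_apply, eval_finsetSum]
  refine Finset.sum_congr rfl fun s _ => ?_
  rw [LinearMap.smul_apply, map_add, map_zsmul, zsmul_eq_mul, zsmul_eq_mul]
  simp only [eval_mul, eval_pow, eval_X, eval_add, eval_C]
  push_cast
  ring

lemma lead (x y v w : V) (L : ℕ → ℤ) (hL : Function.Injective L)
    (h : ∀ j < m + 3, Q (fun _ => L j • x + y) (L j • v + w) = 0) : Q (fun _ => x) v = 0 := by
  obtain ⟨p, hd, hc, hp⟩ := exists_poly' Q x y v w
  have hp0 : p = 0 := by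
    refine eq_zero_of_natDegree_lt_card_of_eval_eq_zero (ι := Fin (m + 3)) p
      (f := fun j => ((L j : ℤ) : ℚ)) ?_ ?_ ?_
    · intro a b hab
      have hab' : ((L a : ℤ) : ℚ) = ((L b : ℤ) : ℚ) := hab
      exact Fin.ext (hL (by exact_mod_cast hab'))
    · intro j
      rw [← hp]
      exact h j j.2
    · rw [Fintype.card_fin]; omega
  rw [← hc, hp0, coeff_zero]

lemma expand {ι S : Type} [Fintype ι] [DecidableEq ι] (α β : ι → S → V) (z : ι → S) :
    Q (fun _ => ∑ i, α i (z i)) (∑ i, β i (z i)) =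
      ∑ j : Fin (m + 2) → ι, Q (fun t => α (j t.castSucc) (z (j t.castSucc)))
        (β (j (Fin.last (m + 1))) (z (j (Fin.last (m + 1))))) := by
  have h1 : Q (fun _ => ∑ i, α i (z i)) = ∑ j : Fin (m + 1) → ι, Q (fun t => α (j t) (z (j t))) :=
    Q.map_sum (fun _ i => α i (z i))
  rw [h1, LinearMap.sum_apply]
  simp only [map_sum]
  rw [← (Fin.snocEquiv (fun _ : Fin (m + 2) => ι)).sum_comp, Fintype.sum_prod_type_right]
  refine Finset.sum_congr rfl fun j _ => Finset.sum_congr rfl fun i _ => ?_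
  simp [Fin.snocEquiv]

end lead

section cp

variable {K : Type} [Field K]

/-- the class of a polynomial -/
noncomputable def cp (A : K[X]) : UV (RatFunc K) := cl (algebraMap K[X] (RatFunc K) A)

lemma am_ne {A : K[X]} (hA : A ≠ 0) : algebraMap K[X] (RatFunc K) A ≠ 0 := by
  rwa [Ne, map_eq_zero_iff _ (IsFractionRing.injective K[X] (RatFunc K))]

lemma cp_mul {A B : K[X]} (hA : A ≠ 0) (hB : B ≠ 0) : cp (A * B) = cp A + cp B := by
  rw [cp, map_mul, TaskB.cl_mul (am_ne hA) (am_ne hB)]; rfl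

lemma cp_pow {A : K[X]} (hA : A ≠ 0) (n : ℕ) : cp (A ^ n) = (n : ℤ) • cp A := by
  rw [cp, map_pow, TaskB.cl_pow (am_ne hA), natCast_zsmul]; rfl

lemma cp_prod {ι : Type} (s : Finset ι) (f : ι → K[X]) (h : ∀ i ∈ s, f i ≠ 0) :
    cp (∏ i ∈ s, f i) = ∑ i ∈ s, cp (f i) := by
  rw [cp, map_prod, TaskB.cl_prod s _ fun i hi => am_ne (h i hi)]; rfl

/-- the vanishing of `Q` on solutions of `P₀ = P₁ + P₂`. -/
lemma Q_van {m : ℕ}
    (Q : MultilinearMap ℤ (fun _ : Fin (m + 1) => UV (RatFunc K)) (UV (RatFunc K) →ₗ[ℤ] ℚ))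
    (hQ : ∀ f : RatFunc K, f ≠ 0 → f ≠ 1 → Q (fun _ => cl f) (cl (1 - f)) = 0)
    {P₀ P₁ P₂ : K[X]} (h₀ : P₀ ≠ 0) (h₁ : P₁ ≠ 0) (h₂ : P₂ ≠ 0) (h : P₀ = P₁ + P₂) :
    Q (fun _ => cp P₀ - cp P₂) (cp P₁ - cp P₂) = 0 := by
  set f : RatFunc K := algebraMap K[X] (RatFunc K) P₀ / algebraMap K[X] (RatFunc K) P₂ with hf
  have h2 : cl f = cp P₀ - cp P₂ := TaskB.cl_div (am_ne h₀) (am_ne h₂)
  have hmul : f * algebraMap K[X] (RatFunc K) P₂ = algebraMap K[X] (RatFunc K) P₀ :=
    div_mul_cancel₀ _ (am_ne h₂)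
  have h3 : 1 - f = (-1) * (algebraMap K[X] (RatFunc K) P₁ / algebraMap K[X] (RatFunc K) P₂) := by
    apply mul_right_cancel₀ (am_ne h₂)
    rw [sub_mul, hmul, mul_assoc, div_mul_cancel₀ _ (am_ne h₂), h, map_add]
    ring
  have h4 : f ≠ 0 := div_ne_zero (am_ne h₀) (am_ne h₂)
  have h5 : f ≠ 1 := by
    intro h1
    rw [h1, sub_self] at h3
    exact mul_ne_zero (neg_ne_zero.2 one_ne_zero) (div_ne_zero (am_ne h₁) (am_ne h₂)) h3.symm
  have h6 := hQ f h4 h5
  rw [h2, h3, TaskB.cl_mul (neg_ne_zero.2 one_ne_zero) (div_ne_zero (am_ne h₁) (am_ne h₂)),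
    TaskB.cl_div (am_ne h₁) (am_ne h₂), map_add] at h6
  have h7 : Q (fun _ => cp P₀ - cp P₂) (cl (-1)) = 0 := by
    have h8 : (2 : ℤ) • cl (-1 : RatFunc K) = 0 := by
      rw [two_zsmul, ← TaskB.cl_mul (neg_ne_zero.2 one_ne_zero) (neg_ne_zero.2 one_ne_zero)]
      norm_num
      exact TaskB.cl_one
    have h9 : (2 : ℤ) • Q (fun _ => cp P₀ - cp P₂) (cl (-1)) = 0 := by
      rw [← map_zsmul, h8, map_zero]
    rw [zsmul_eq_mul] at h9
    have : ((2 : ℤ) : ℚ) ≠ 0 := by norm_num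
    exact (mul_eq_zero.1 h9).resolve_left this
  rw [h7, zero_add] at h6
  exact h6

end cp

end Pool.Agent.H366.GF
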