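import Pool.Agent.H366.GF.Key1
import Pool.Agent.H366.GF.Ctr

/-! # The key statement from the contraction theorem and the analytic input -/

set_option autoImplicit false

namespace Pool.Agent.H366.GF

open Polynomial H39Gon

section alg

variable {K : Type} [Field K]

lemma prod_congr_dvd {σ : Type} (s : Finset σ) (f g : σ → K[X]) (q : K[X])
    (h : ∀ i ∈ s, q ∣ f i - g i) : q ∣ ∏ i ∈ s, f i - ∏ i ∈ s, g i := by
  classical
  induction s using Finset.induction_on with
  | empty => simp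
  | insert i s hi ih =>
    rw [Finset.prod_insert hi, Finset.prod_insert hi]
    obtain ⟨c, hc⟩ := ih fun j hj => h j (Finset.mem_insert_of_mem hj)
    obtain ⟨e, he⟩ := h i (Finset.mem_insert_self _ _)
    exact ⟨e * ∏ i ∈ s, f i + g i * c, by linear_combination (g i) * hc + (∏ i ∈ s, f i) * he⟩

lemma exists_exp [Fintype K] {A q : K[X]} (hq : q.Monic) (hA : IsCoprime A q) :
    ∃ φ : ℕ, 0 < φ ∧ q ∣ A ^ φ - 1 := by
  classical
  obtain ⟨i, j, hij, h⟩ := Finite.exists_ne_map_eq_of_infinite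
    (fun i : ℕ => fun t : Fin q.natDegree => ((A ^ i) %ₘ q).coeff t)
  have key : ∀ i j : ℕ, i < j → (fun t : Fin q.natDegree => ((A ^ i) %ₘ q).coeff t) =
      (fun t : Fin q.natDegree => ((A ^ j) %ₘ q).coeff t) → ∃ φ : ℕ, 0 < φ ∧ q ∣ A ^ φ - 1 := by
    intro i j hlt h
    have h1 : (A ^ i) %ₘ q = (A ^ j) %ₘ q := by
      ext t
      by_cases ht : t < q.natDegree
      · exact congr_fun h ⟨t, ht⟩
      · have h2 : ∀ B : K[X], (B %ₘ q).coeff t = 0 := by
          intro B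
          apply coeff_eq_zero_of_degree_lt
          refine lt_of_lt_of_le (degree_modByMonic_lt B hq) ?_
          rw [degree_eq_natDegree hq.ne_zero]
          exact_mod_cast (not_lt.1 ht)
        rw [h2, h2]
    have h3 : q ∣ A ^ j - A ^ i := by
      have e1 := modByMonic_add_div (A ^ i) q
      have e2 := modByMonic_add_div (A ^ j) q
      exact ⟨(A ^ j) /ₘ q - (A ^ i) /ₘ q, by linear_combination -e2 + e1 - h1⟩
    refine ⟨j - i, by omega, ?_⟩
    have h4 : A ^ j - A ^ i = A ^ i * (A ^ (j - i) - 1) := by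
      rw [mul_sub, ← pow_add, mul_one]
      congr 2
      omega
    rw [h4] at h3
    exact (hA.pow_left (m := i)).symm.dvd_of_dvd_mul_left h3
  rcases lt_or_gt_of_ne hij with hlt | hlt
  · exact key i j hlt h
  · exact key j i hlt h.symm

lemma dvd_pow_sub {A q : K[X]} {φ : ℕ} (h : q ∣ A ^ φ - 1) (j : ℕ) : q ∣ A ^ (j * φ) - 1 := by
  refine h.trans ?_
  rw [mul_comm, pow_mul]
  simpa using sub_dvd_pow_sub_pow (A ^ φ) 1 j

lemma exists_phi [Fintype K] {A B C : K[X]} (hA : A.Monic) (hB : B.Monic) (hC : C.Monic)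
    (hAB : IsCoprime A B) (hAC : IsCoprime A C) (hBC : IsCoprime B C) :
    ∃ φ : ℕ, 0 < φ ∧ ∀ j, A * B * C ∣ A ^ (1 + j * φ) - A ∧ A * B * C ∣ B ^ (1 + j * φ) - B ∧
      A * B * C ∣ C ^ (1 + j * φ) - C := by
  obtain ⟨φ₁, h1, h1'⟩ := exists_exp (hB.mul hC) (hAB.mul_right hAC)
  obtain ⟨φ₂, h2, h2'⟩ := exists_exp (hA.mul hC) (hAB.symm.mul_right hBC)
  obtain ⟨φ₃, h3, h3'⟩ := exists_exp (hA.mul hB) (hAC.symm.mul_right hBC.symm)
  refine ⟨φ₁ * φ₂ * φ₃, by positivity, fun j => ⟨?_, ?_, ?_⟩⟩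
  · obtain ⟨c, hc⟩ := dvd_pow_sub h1' (j * φ₂ * φ₃)
    refine ⟨c, ?_⟩
    have e : j * (φ₁ * φ₂ * φ₃) = (j * φ₂ * φ₃) * φ₁ := by ring
    rw [pow_add, pow_one, e]
    linear_combination A * hc
  · obtain ⟨c, hc⟩ := dvd_pow_sub h2' (j * φ₁ * φ₃)
    refine ⟨c, ?_⟩
    have e : j * (φ₁ * φ₂ * φ₃) = (j * φ₁ * φ₃) * φ₂ := by ring
    rw [pow_add, pow_one, e]
    linear_combination B * hc
  · obtain ⟨c, hc⟩ := dvd_pow_sub h3' (j * φ₁ * φ₂)
    refine ⟨c, ?_⟩
    have e : j * (φ₁ * φ₂ * φ₃) = (j * φ₁ * φ₂) * φ₃ := by ring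
    rw [pow_add, pow_one, e]
    linear_combination C * hc

/-- the classes of the special slots -/
noncomputable def rs (A B C : K[X]) : Fin 3 → K[X] :=
  ![A * B ^ 2 + C ^ 2, A ^ 2 * B - C, A * C + B]

lemma rs_rel (A B C : K[X]) : A * rs A B C 0 - (B * rs A B C 1 + C * rs A B C 2) = 0 := by
  simp [rs]; ring

lemma rs_cop {A B C : K[X]} (hAB : IsCoprime A B) (hAC : IsCoprime A C) (hBC : IsCoprime B C)
    (X : Fin 3) : IsCoprime (rs A B C X) (A * B * C) := by
  have key : ∀ {x y z w : K[X]}, IsCoprime x y → w = x + y * z → IsCoprime w y := by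
    intro x y z w h hw
    rw [hw]
    exact IsCoprime.add_mul_left_left_iff.2 h
  fin_cases X
  · refine ((key (x := C ^ 2) (z := B ^ 2) ?_ ?_).mul_right
      (key (x := C ^ 2) (z := A * B) ?_ ?_)).mul_right (key (x := A * B ^ 2) (z := C) ?_ ?_)
    · exact hAC.symm.pow_left
    · simp [rs]; ring
    · exact hBC.symm.pow_left
    · simp [rs]; ring
    · exact hAC.mul_left hBC.pow_left
    · simp [rs]; ring
  · refine ((key (x := -C) (z := A * B) ?_ ?_).mul_right
      (key (x := -C) (z := A ^ 2) ?_ ?_)).mul_right (key (x := A ^ 2 * B) (z := -1) ?_ ?_)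
    · exact hAC.symm.neg_left
    · simp [rs]; ring
    · exact hBC.symm.neg_left
    · simp [rs]; ring
    · exact hAC.pow_left.mul_left hBC
    · simp [rs]; ring
  · refine ((key (x := B) (z := C) ?_ ?_).mul_right
      (key (x := A * C) (z := 1) ?_ ?_)).mul_right (key (x := B) (z := A) ?_ ?_)
    · exact hAB.symm
    · simp [rs]; ring
    · exact hAB.mul_left hBC.symm
    · simp [rs]
    · exact hBC
    · simp [rs]; ring

/-- the base points -/
noncomputable def vs (A B C : K[X]) (s d : ℕ) (X : Fin 3) (i : Fin s) : K[X] :=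
  (if (i : ℕ) = 0 then rs A B C X else 1) + (A * B * C) * Polynomial.X ^ d

lemma vs_ok {A B C : K[X]} (hA : A.Monic) (hB : B.Monic) (hC : C.Monic)
    (hAB : IsCoprime A B) (hAC : IsCoprime A C) (hBC : IsCoprime B C) {s d : ℕ}
    (hd : ∀ X, (rs A B C X).natDegree < d) (X : Fin 3) :
    SlotOK (A * B * C) d (vs A B C s d X) := by
  have hm : (A * B * C).Monic := (hA.mul hB).mul hC
  have hm2 : ((A * B * C) * Polynomial.X ^ d).Monic := hm.mul (monic_X_pow d)
  have hdeg2 : ((A * B * C) * Polynomial.X ^ d).natDegree = d + (A * B * C).natDegree := by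
    rw [hm.natDegree_mul (monic_X_pow d), natDegree_X_pow, add_comm]
  have hd0 : 0 < d := lt_of_le_of_lt (Nat.zero_le _) (hd 0)
  have hlt : ∀ i : Fin s, (if (i : ℕ) = 0 then rs A B C X else 1).degree <
      ((A * B * C) * Polynomial.X ^ d).degree := by
    intro i
    apply degree_lt_degree
    rw [hdeg2]
    split_ifs
    · have := hd X; omega
    · rw [natDegree_one]; omega
  refine ⟨fun i => hm2.add_of_right (hlt i), fun i => ?_, fun i => ?_⟩
  · rw [vs, natDegree_add_eq_right_of_degree_lt (hlt i), hdeg2]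
  · rw [vs, IsCoprime.add_mul_left_left_iff]
    split_ifs
    · exact rs_cop hAB hAC hBC X
    · exact isCoprime_one_left

lemma vs_prod (A B C : K[X]) {s : ℕ} (hs : 0 < s) (d : ℕ) (X : Fin 3) :
    A * B * C ∣ ∏ i, vs A B C s d X i - rs A B C X := by
  have h1 : ∏ i : Fin s, (if (i : ℕ) = 0 then rs A B C X else (1 : K[X])) = rs A B C X := by
    rw [Finset.prod_eq_single (⟨0, hs⟩ : Fin s)]
    · simp
    · intro i _ hi
      rw [if_neg]
      intro h0
      exact hi (Fin.ext h0)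
    · simp
  have h2 := prod_congr_dvd Finset.univ (vs A B C s d X)
    (fun i : Fin s => (if (i : ℕ) = 0 then rs A B C X else (1 : K[X]))) (A * B * C)
    (fun i _ => ⟨Polynomial.X ^ d, by rw [vs]; ring⟩)
  rwa [h1] at h2

lemma vs_rel (A B C : K[X]) {s : ℕ} (hs : 0 < s) (d L : ℕ) (hA : A * B * C ∣ A ^ L - A)
    (hB : A * B * C ∣ B ^ L - B) (hC : A * B * C ∣ C ^ L - C) :
    A * B * C ∣ A ^ L * ∏ i, vs A B C s d 0 i -
      (B ^ L * ∏ i, vs A B C s d 1 i + C ^ L * ∏ i, vs A B C s d 2 i) := by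
  obtain ⟨a, ha⟩ := hA
  obtain ⟨b, hb⟩ := hB
  obtain ⟨c, hc⟩ := hC
  obtain ⟨x, hx⟩ := vs_prod A B C hs d 0
  obtain ⟨y, hy⟩ := vs_prod A B C hs d 1
  obtain ⟨z, hz⟩ := vs_prod A B C hs d 2
  have hr := rs_rel A B C
  refine ⟨a * (∏ i, vs A B C s d 0 i) + A * x - b * (∏ i, vs A B C s d 1 i) - B * y
    - c * (∏ i, vs A B C s d 2 i) - C * z, ?_⟩
  linear_combination (∏ i, vs A B C s d 0 i) * ha + A * hx - (∏ i, vs A B C s d 1 i) * hb
    - B * hy - (∏ i, vs A B C s d 2 i) * hc - C * hz + hr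

/-- the data with exponent `L`. -/
noncomputable def Ms (A B C : K[X]) (L : ℕ) : Fin 3 → K[X] := ![A ^ L, B ^ L, C ^ L]

lemma ctx_of {A B C : K[X]} (hA : A.Monic) (hB : B.Monic) (hC : C.Monic)
    (hAB : IsCoprime A B) (hdeg : A.natDegree = B.natDegree)
    (hlt : C.natDegree < A.natDegree) {c₀ : ℕ} (hc : 0 < c₀)
    (hp : ∀ P : K[X], Irreducible P → (P ∣ A * B * C ↔ P.natDegree < c₀)) {L : ℕ} (hL : 0 < L) :
    Ctx K c₀ (L * A.natDegree) (A * B * C) (Ms A B C L) where
  pos := hc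
  mq := (hA.mul hB).mul hC
  mM := by
    intro X
    fin_cases X
    · exact hA.pow L
    · exact hB.pow L
    · exact hC.pow L
  small := fun P hP hd => (hp P hP).2 hd
  smooth := by
    intro X P hP hd
    rw [← hp P hP]
    fin_cases X
    · exact ((hP.prime.dvd_of_dvd_pow hd).mul_right B).mul_right C
    · exact ((hP.prime.dvd_of_dvd_pow hd).mul_left A).mul_right C
    · exact (hP.prime.dvd_of_dvd_pow hd).mul_left (A * B)
  cop := by
    show IsCoprime (A ^ L) (B ^ L)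
    exact hAB.pow
  deg0 := by
    show (A ^ L).natDegree = _
    rw [hA.natDegree_pow]
  deg1 := by
    show (B ^ L).natDegree = _
    rw [hB.natDegree_pow, hdeg]
  deg2 := by
    show (C ^ L).natDegree < _
    rw [hC.natDegree_pow]
    exact Nat.mul_lt_mul_of_pos_left hlt hL

end alg

end Pool.Agent.H366.GF
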