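import Pool.Agent.H366.GF.TauD

/-! # Mean square of one exponential sum -/

set_option autoImplicit false

namespace Pool.Agent.H366.GF.L1N

open Polynomial Pool.Agent.H366.GF

section Av

variable {α β : Type} [Fintype α] [Fintype β]

lemma ExC_prod (f : α × β → ℂ) : ExC f = ExC (fun x => ExC (fun y => f (x, y))) := by
  simp only [ExC, ← Finset.sum_div]
  rw [Fintype.sum_prod_type, Fintype.card_prod, Nat.cast_mul, div_div,
    mul_comm (Fintype.card β : ℂ)]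

lemma ExC_pw {σ S : Type} [Fintype σ] [DecidableEq σ] [Fintype S] [Nonempty S] (V : Finset σ)
    (f : (σ → S) → ℂ) :
    ExC (fun z => ExC (fun z' => f (V.piecewise z z'))) = ExC f := by
  rw [← ExC_prod (fun p : (σ → S) × (σ → S) => f (V.piecewise p.1 p.2))]
  have h1 := ExC_equiv (swp V) (fun p : (σ → S) × (σ → S) => f p.1)
  have h2 : (fun p : (σ → S) × (σ → S) => f (V.piecewise p.1 p.2)) =
    fun p => (fun p : (σ → S) × (σ → S) => f p.1) (swp V p) := rfl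
  rw [h2, h1, ExC_prod]
  congr 1
  funext z
  exact ExC_const (α := σ → S) (f z)

lemma normsq_ExC (f : α → ℂ) : ((‖ExC f‖ ^ 2 : ℝ) : ℂ) =
    ExC (fun x => ExC (fun y => f x * (starRingEnd ℂ) (f y))) := by
  have h1 : ∀ x, ExC (fun y => f x * (starRingEnd ℂ) (f y)) =
      f x * (starRingEnd ℂ) (ExC f) := by
    intro x
    rw [ExC_mul_left]
    congr 1
    rw [ExC, ExC, map_div₀, map_sum, map_natCast]
  rw [funext h1, ExC_mul_right, Complex.mul_conj, Complex.normSq_eq_norm_sq]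

lemma norm_ExC2_le (f : α → β → ℂ) (g : α → β → ℝ) (h : ∀ x y, ‖f x y‖ ≤ g x y) :
    ‖ExC (fun x => ExC (fun y => f x y))‖ ≤ Ex (fun x => Ex (fun y => g x y)) :=
  (norm_ExC_le _).trans (Ex_mono fun x => (norm_ExC_le _).trans (Ex_mono fun y => h x y))

end Av

variable {K : Type} [Field K] [Fintype K] {c₀ μ : ℕ} {𝔮 M : K[X]} {s d N : ℕ}
  {v : Fin s → K[X]} {ψ : AddChar K ℂ}

/-- averaging over more variables increases nothing -/
lemma TT_mono (V B : Finset (Fin s)) (hVB : V ⊆ B) (a : Fin N → K) :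
    Ex (fun z : Fin s → Fin d → K => ‖TT ψ 𝔮 M v a V z‖ ^ 2) ≤
      Ex (fun z : Fin s → Fin d → K => ‖TT ψ 𝔮 M v a B z‖ ^ 2) := by
  have h1 : ∀ z : Fin s → Fin d → K, TT ψ 𝔮 M v a V z =
      ExC (fun z' : Fin s → Fin d → K => TT ψ 𝔮 M v a B (V.piecewise z z')) := by
    intro z
    simp only [TT]
    rw [← ExC_pw B]
    congr 1
    funext z'
    congr 1
    funext z''
    rw [pw_pw hVB]
  rw [← Ex_pw V (fun z : Fin s → Fin d → K => ‖TT ψ 𝔮 M v a B z‖ ^ 2)]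
  refine Ex_mono fun z => ?_
  rw [h1 z]
  exact norm_ExC_sq_le _

omit [Fintype K] in
lemma prod_pw (B : Finset (Fin s)) (z z' : Fin s → Fin d → K) :
    ∏ i, zz 𝔮 v (B.piecewise z z') i = (∏ i ∈ B, zz 𝔮 v z i) * ∏ i ∈ Bᶜ, zz 𝔮 v z' i := by
  rw [← Finset.prod_mul_prod_compl B]
  congr 1
  · refine Finset.prod_congr rfl fun i hi => ?_
    simp [zz, Finset.piecewise, hi]
  · refine Finset.prod_congr rfl fun i hi => ?_
    have : i ∉ B := Finset.mem_compl.1 hi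
    simp [zz, Finset.piecewise, this]

/-- the sum as a function of the product of the first slots -/
noncomputable def FF (ψ : AddChar K ℂ) (𝔮 M : K[X]) (v : Fin s → K[X]) (a : Fin N → K)
    (B : Finset (Fin s)) (d : ℕ) (x : K[X]) : ℂ :=
  ExC (fun z' : Fin s → Fin d → K =>
    ψ (Lf a ((M * (x * ∏ i ∈ Bᶜ, zz 𝔮 v z' i)) /ₘ 𝔮)))

lemma TT_eq (B : Finset (Fin s)) (a : Fin N → K) (z : Fin s → Fin d → K) :
    TT ψ 𝔮 M v a B z = FF ψ 𝔮 M v a B d (∏ i ∈ B, zz 𝔮 v z i) := by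
  simp only [TT, FF]
  congr 1
  funext z'
  rw [prod_pw]

omit [Fintype K] in
lemma div_add (h𝔮 : 𝔮.Monic) (A G : K[X]) : (A + 𝔮 * G) /ₘ 𝔮 = A /ₘ 𝔮 + G := by
  refine (div_modByMonic_unique (A /ₘ 𝔮 + G) (A %ₘ 𝔮) h𝔮 ⟨?_, degree_modByMonic_lt A h𝔮⟩).1
  rw [mul_add, ← add_assoc, modByMonic_add_div]

open Classical in
/-- step 2 -/
lemma sum_FF (h𝔮 : 𝔮.Monic) (hψ : ψ.IsPrimitive) (B : Finset (Fin s)) (a : Fin N → K) (w : K[X])
    (m : ℕ) :
    ∑ c : Fin m → K, ‖FF ψ 𝔮 M v a B d (w + 𝔮 * pol c)‖ ^ 2 ≤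
      Ex (fun z'' : Fin s → Fin d → K => Ex (fun z' : Fin s → Fin d → K =>
        (if Kl a (M * (∏ i ∈ Bᶜ, zz 𝔮 v z'' i - ∏ i ∈ Bᶜ, zz 𝔮 v z' i)) m then
          (Fintype.card K : ℝ) ^ m else 0))) := by
  have h1 : ((∑ c : Fin m → K, ‖FF ψ 𝔮 M v a B d (w + 𝔮 * pol c)‖ ^ 2 : ℝ) : ℂ) =
      ExC (fun x : Fin s → Fin d → K => ExC (fun y : Fin s → Fin d → K =>
        ψ (Lf a ((M * (w * ∏ i ∈ Bᶜ, zz 𝔮 v x i)) /ₘ 𝔮) -
          Lf a ((M * (w * ∏ i ∈ Bᶜ, zz 𝔮 v y i)) /ₘ 𝔮)) *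
        (if Kl a (M * (∏ i ∈ Bᶜ, zz 𝔮 v x i - ∏ i ∈ Bᶜ, zz 𝔮 v y i)) m then
          (Fintype.card K : ℂ) ^ m else 0))) := by
    rw [Complex.ofReal_sum]
    simp only [FF, normsq_ExC]
    rw [← ExC_sum]
    congr 1
    funext x
    rw [← ExC_sum]
    congr 1
    funext y
    rw [← sum_char_kl hψ, Finset.mul_sum]
    refine Finset.sum_congr rfl fun c _ => ?_
    have h2 : ∀ u : K[X], (M * ((w + 𝔮 * pol c) * u)) /ₘ 𝔮 =
        (M * (w * u)) /ₘ 𝔮 + M * u * pol c := by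
      intro u
      rw [← div_add h𝔮]
      congr 1
      ring
    rw [h2, h2, ← AddChar.map_neg_eq_conj, ← AddChar.map_add_eq_mul, ← AddChar.map_add_eq_mul]
    congr 1
    rw [map_add, map_add]
    have h3 : M * (∏ i ∈ Bᶜ, zz 𝔮 v x i - ∏ i ∈ Bᶜ, zz 𝔮 v y i) * pol c =
        M * (∏ i ∈ Bᶜ, zz 𝔮 v x i) * pol c - M * (∏ i ∈ Bᶜ, zz 𝔮 v y i) * pol c := by ring
    rw [h3, map_sub]
    ring
  have h4 : (∑ c : Fin m → K, ‖FF ψ 𝔮 M v a B d (w + 𝔮 * pol c)‖ ^ 2 : ℝ) =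
      ‖((∑ c : Fin m → K, ‖FF ψ 𝔮 M v a B d (w + 𝔮 * pol c)‖ ^ 2 : ℝ) : ℂ)‖ := by
    rw [Complex.norm_real, Real.norm_of_nonneg]
    exact Finset.sum_nonneg fun c _ => by positivity
  rw [h4, h1]
  refine norm_ExC2_le _ _ fun x y => ?_
  rw [norm_mul, norm_psi, one_mul]
  split_ifs
  · simp
  · simp

/-- the exponent -/
lemma fin_arith {a b t : ℝ} (ha : a ≤ t) (hb : b ≤ t) (ha0 : 0 ≤ a) (hb0 : 0 ≤ b) :
    a * b ≤ t ^ 2 := by
  nlinarith [mul_le_mul ha hb hb0 (ha0.trans ha)]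

lemma tau_ge (D : ℕ) (B : Finset (Fin s)) :
    ((2 : ℝ) ^ (B.card * D / c₀)) ^ B.card ≤ tau s D c₀ := by
  have hB : B.card ≤ s := by simpa using Finset.card_le_univ B
  rw [tau, ← pow_mul, ← pow_mul]
  refine pow_le_pow_right₀ (by norm_num) ?_
  exact Nat.mul_le_mul (Nat.div_le_div_right (Nat.mul_le_mul_right _ hB)) hB

open Classical in
/-- step 1 -/
lemma step1 (h𝔮 : 𝔮.Monic) (hc : 0 < c₀)
    (hsm : ∀ P : K[X], Irreducible P → P.natDegree < c₀ → P ∣ 𝔮) (hv : SlotOK 𝔮 d v)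
    (B : Finset (Fin s)) (hB : 1 ≤ B.card) (a : Fin N → K) :
    Ex (fun z : Fin s → Fin d → K => ‖TT ψ 𝔮 M v a B z‖ ^ 2) ≤
      (((2 : ℝ) ^ (B.card * (d + 𝔮.natDegree) / c₀)) ^ B.card /
        (Fintype.card K : ℝ) ^ (d * B.card)) *
      ∑ c : Fin (B.card * (d + 𝔮.natDegree) - 𝔮.natDegree) → K,
        ‖FF ψ 𝔮 M v a B d (∏ i ∈ B, v i + 𝔮 * pol c)‖ ^ 2 := by
  simp only [TT_eq]
  refine Ex_fibre (fun z : Fin s → Fin d → K => ∏ i ∈ B, zz 𝔮 v z i)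
    (fun c : Fin (B.card * (d + 𝔮.natDegree) - 𝔮.natDegree) → K => ∏ i ∈ B, v i + 𝔮 * pol c)
    ?_ _ (prob_fibre h𝔮 hv hc hsm B) (fun x => ‖FF ψ 𝔮 M v a B d x‖ ^ 2) (fun F => by positivity)
  intro z
  obtain ⟨g, hg⟩ := prod_zz_congr (v := v) (𝔮 := 𝔮) z B
  have hD : 𝔮.natDegree ≤ B.card * (d + 𝔮.natDegree) := by nlinarith
  have hvm : (∏ i ∈ B, v i).Monic := monic_prod_of_monic _ _ fun i _ => hv.monic i
  have hvd : (∏ i ∈ B, v i).natDegree = B.card * (d + 𝔮.natDegree) := by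
    rw [natDegree_prod_of_monic _ _ fun i _ => hv.monic i,
      Finset.sum_congr rfl fun i _ => hv.deg i, Finset.sum_const, smul_eq_mul]
  have hzm := prod_zz_monic h𝔮 hv z B
  have hzd := prod_zz_natDegree h𝔮 hv z B
  have hdeg : (𝔮 * g).degree < (B.card * (d + 𝔮.natDegree) : ℕ) := by
    rw [← hg]
    have := degree_sub_lt_left (p := ∏ i ∈ B, zz 𝔮 v z i) (q := ∏ i ∈ B, v i)
      (by rw [degree_eq_natDegree hzm.ne_zero, degree_eq_natDegree hvm.ne_zero, hzd, hvd])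
      hzm.ne_zero (by rw [hzm.leadingCoeff, hvm.leadingCoeff])
    rwa [degree_eq_natDegree hzm.ne_zero, hzd] at this
  have hgd : g.degree < (B.card * (d + 𝔮.natDegree) - 𝔮.natDegree : ℕ) := by
    by_cases h0 : g = 0
    · rw [h0, degree_zero]; exact WithBot.bot_lt_coe _
    · rw [degree_mul, degree_eq_natDegree h𝔮.ne_zero, degree_eq_natDegree h0] at hdeg
      rw [degree_eq_natDegree h0]
      have h1 : 𝔮.natDegree + g.natDegree < B.card * (d + 𝔮.natDegree) := by exact_mod_cast hdeg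
      have h2 : g.natDegree < B.card * (d + 𝔮.natDegree) - 𝔮.natDegree := by omega
      exact_mod_cast h2
  obtain ⟨c, hc'⟩ := exists_pol g hgd
  refine ⟨c, ?_⟩
  rw [hc', ← hg]
  ring

open Classical in
/-- step 3 -/
lemma step3 (h𝔮 : 𝔮.Monic) (hM : M.Monic) (hμ : M.natDegree = μ) (hc : 0 < c₀)
    (hsm : ∀ P : K[X], Irreducible P → P.natDegree < c₀ → P ∣ 𝔮) (hv : SlotOK 𝔮 d v)
    (B : Finset (Fin s)) (a : Fin N → K) (m R : ℕ) (hm : rk a ≤ m) (hmN : m ≤ N)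
    (hN : N - m = μ + (Bᶜ).card * (d + 𝔮.natDegree)) (hR : R ≤ rk a) (hR' : R + m ≤ N + 1)
    (z'' : Fin s → Fin d → K) :
    Ex (fun z' : Fin s → Fin d → K =>
        (if Kl a (M * (∏ i ∈ Bᶜ, zz 𝔮 v z'' i - ∏ i ∈ Bᶜ, zz 𝔮 v z' i)) m then
          (Fintype.card K : ℝ) ^ m else 0)) ≤
      (Fintype.card K : ℝ) ^ m * ((Fintype.card K : ℝ) ^ (N + 1 - m - R) *
        (((2 : ℝ) ^ ((Bᶜ).card * (d + 𝔮.natDegree) / c₀)) ^ (Bᶜ).card /
        (Fintype.card K : ℝ) ^ (d * (Bᶜ).card))) := by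
  set P2 : ℝ := (((2 : ℝ) ^ ((Bᶜ).card * (d + 𝔮.natDegree) / c₀)) ^ (Bᶜ).card /
        (Fintype.card K : ℝ) ^ (d * (Bᶜ).card)) with hP2
  have hP20 : 0 ≤ P2 := by positivity
  set 𝒮 := (Finset.univ.filter fun c : Fin (N + 1 - m) → K => Kl a (pol c) m) with h𝒮
  have hcard : (𝒮.card : ℝ) ≤ (Fintype.card K : ℝ) ^ (N + 1 - m - R) := by
    have := card_killed a hm hmN hR hR'
    exact_mod_cast this
  have hdeg : ∀ z' : Fin s → Fin d → K,
      (M * (∏ i ∈ Bᶜ, zz 𝔮 v z'' i - ∏ i ∈ Bᶜ, zz 𝔮 v z' i)).natDegree < N + 1 - m := by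
    intro z'
    have h1 := prod_zz_natDegree h𝔮 hv z' Bᶜ
    have h2 := prod_zz_natDegree h𝔮 hv z'' Bᶜ
    have h3 := natDegree_sub_le (∏ i ∈ Bᶜ, zz 𝔮 v z'' i) (∏ i ∈ Bᶜ, zz 𝔮 v z' i)
    rw [h1, h2, max_self] at h3
    have h4 := natDegree_mul_le (p := M) (q := ∏ i ∈ Bᶜ, zz 𝔮 v z'' i - ∏ i ∈ Bᶜ, zz 𝔮 v z' i)
    omega
  calc Ex (fun z' : Fin s → Fin d → K =>
        (if Kl a (M * (∏ i ∈ Bᶜ, zz 𝔮 v z'' i - ∏ i ∈ Bᶜ, zz 𝔮 v z' i)) m then
          (Fintype.card K : ℝ) ^ m else 0))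
      ≤ Ex (fun z' : Fin s → Fin d → K => (Fintype.card K : ℝ) ^ m * ∑ c ∈ 𝒮,
        (if M * (∏ i ∈ Bᶜ, zz 𝔮 v z'' i - ∏ i ∈ Bᶜ, zz 𝔮 v z' i) = pol c then (1 : ℝ) else 0)) := by
        refine Ex_mono fun z' => ?_
        by_cases hK : Kl a (M * (∏ i ∈ Bᶜ, zz 𝔮 v z'' i - ∏ i ∈ Bᶜ, zz 𝔮 v z' i)) m
        · rw [if_pos hK]
          obtain ⟨c, hc'⟩ := exists_pol' _ (hdeg z')
          have hcS : c ∈ 𝒮 := by
            rw [h𝒮, Finset.mem_filter]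
            exact ⟨Finset.mem_univ _, by rw [hc']; exact hK⟩
          have h5 : (1 : ℝ) ≤ ∑ c ∈ 𝒮,
              (if M * (∏ i ∈ Bᶜ, zz 𝔮 v z'' i - ∏ i ∈ Bᶜ, zz 𝔮 v z' i) = pol c then (1 : ℝ)
                else 0) := by
            refine le_trans (le_of_eq ?_) (Finset.single_le_sum (f := fun c =>
              (if M * (∏ i ∈ Bᶜ, zz 𝔮 v z'' i - ∏ i ∈ Bᶜ, zz 𝔮 v z' i) = pol c then (1 : ℝ)
                else 0)) (fun c _ => by split_ifs <;> simp) hcS)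
            simp [hc']
          have h6 : (0 : ℝ) ≤ (Fintype.card K : ℝ) ^ m := by positivity
          nlinarith
        · rw [if_neg hK]
          exact mul_nonneg (by positivity) (Finset.sum_nonneg fun c _ => by split_ifs <;> simp)
    _ = (Fintype.card K : ℝ) ^ m * ∑ c ∈ 𝒮, Ex (fun z' : Fin s → Fin d → K =>
        (if M * (∏ i ∈ Bᶜ, zz 𝔮 v z'' i - ∏ i ∈ Bᶜ, zz 𝔮 v z' i) = pol c then (1 : ℝ)
          else 0)) := by
        rw [Ex_mul_left, Ex_sum]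
    _ ≤ (Fintype.card K : ℝ) ^ m * ∑ c ∈ 𝒮, P2 := by
        refine mul_le_mul_of_nonneg_left (Finset.sum_le_sum fun c _ => ?_) (by positivity)
        by_cases hex : ∃ F : K[X], M * (∏ i ∈ Bᶜ, zz 𝔮 v z'' i - F) = pol c
        · obtain ⟨F, hF⟩ := hex
          refine le_trans (Ex_mono fun z' => ?_) (prob_fibre h𝔮 hv hc hsm Bᶜ F)
          by_cases h7 : M * (∏ i ∈ Bᶜ, zz 𝔮 v z'' i - ∏ i ∈ Bᶜ, zz 𝔮 v z' i) = pol c
          · rw [if_pos h7, if_pos]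
            rw [← hF] at h7
            have := mul_left_cancel₀ hM.ne_zero h7
            linear_combination -this
          · rw [if_neg h7]
            split_ifs <;> simp
        · refine le_trans (le_of_eq ?_) hP20
          have : ∀ z' : Fin s → Fin d → K,
              (if M * (∏ i ∈ Bᶜ, zz 𝔮 v z'' i - ∏ i ∈ Bᶜ, zz 𝔮 v z' i) = pol c then (1 : ℝ)
                else 0) = 0 := fun z' => if_neg fun h => hex ⟨_, h⟩
          simp only [this]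
          exact Ex_const 0
    _ = (Fintype.card K : ℝ) ^ m * (𝒮.card * P2) := by rw [Finset.sum_const, nsmul_eq_mul]
    _ ≤ _ := by
        refine mul_le_mul_of_nonneg_left ?_ (by positivity)
        exact mul_le_mul_of_nonneg_right hcard hP20

/-- [L1] mean square of one exponential sum -/
theorem L1 (h𝔮 : 𝔮.Monic) (hM : M.Monic) (hμ : M.natDegree = μ) (hc : 0 < c₀)
    (hsm : ∀ P : K[X], Irreducible P → P.natDegree < c₀ → P ∣ 𝔮) (hv : SlotOK 𝔮 d v)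
    (hN : N + 𝔮.natDegree = μ + s * (d + 𝔮.natDegree)) (hψ : ψ.IsPrimitive) (kx : ℕ)
    (hk1 : 1 ≤ kx) (hks : kx ≤ s) (hm : N ≤ 2 * (kx * (d + 𝔮.natDegree) - 𝔮.natDegree))
    (V : Finset (Fin s)) (hV : V.card ≤ kx) (a : Fin N → K) (R : ℕ) (hR : R ≤ rk a)
    (hR' : R + (kx * (d + 𝔮.natDegree) - 𝔮.natDegree) ≤ N + 1) :
    Ex (fun z : Fin s → Fin d → K => ‖TT ψ 𝔮 M v a V z‖ ^ 2) ≤
      tau s (d + 𝔮.natDegree) c₀ ^ 2 * (Fintype.card K : ℝ) ^ (μ + 1 + (s - 1) * 𝔮.natDegree) /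
        (Fintype.card K : ℝ) ^ R := by
  classical
  obtain ⟨B, hVB, hB⟩ := Finset.exists_superset_card_eq hV (by simpa using hks)
  have hBc : (Bᶜ).card = s - kx := by rw [Finset.card_compl, hB, Fintype.card_fin]
  set e := 𝔮.natDegree with he
  set q : ℝ := (Fintype.card K : ℝ) with hq
  have hq0 : 0 < q := by rw [hq]; exact_mod_cast Fintype.card_pos
  set m := kx * (d + e) - e with hmdef
  have hkD : e ≤ kx * (d + e) := by nlinarith
  have hsk : s * (d + e) = kx * (d + e) + (s - kx) * (d + e) := by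
    rw [← Nat.add_mul, Nat.add_sub_cancel' hks]
  have hmN : m ≤ N := by omega
  have hNm : N - m = μ + (Bᶜ).card * (d + e) := by rw [hBc]; omega
  refine (TT_mono V B hVB a).trans ?_
  refine (step1 h𝔮 hc hsm hv B (by omega) a).trans ?_
  rw [hB, ← he, ← hmdef]
  have h2 := sum_FF (ψ := ψ) (𝔮 := 𝔮) (M := M) (v := v) (d := d) h𝔮 hψ B a (∏ i ∈ B, v i) m
  have h3 : Ex (fun z'' : Fin s → Fin d → K => Ex (fun z' : Fin s → Fin d → K =>
        (if Kl a (M * (∏ i ∈ Bᶜ, zz 𝔮 v z'' i - ∏ i ∈ Bᶜ, zz 𝔮 v z' i)) m then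
          (Fintype.card K : ℝ) ^ m else 0))) ≤ q ^ m * (q ^ (N + 1 - m - R) *
        (((2 : ℝ) ^ ((Bᶜ).card * (d + e) / c₀)) ^ (Bᶜ).card / q ^ (d * (Bᶜ).card))) := by
    refine (Ex_mono fun z'' => step3 h𝔮 hM hμ hc hsm hv B a m R (rk_le_half a m hm) hmN
      hNm hR hR' z'').trans ?_
    rw [Ex_const]
  have h4 := h2.trans h3
  have ht1 := tau_ge (c₀ := c₀) (d + e) B
  have ht2 := tau_ge (c₀ := c₀) (d + e) Bᶜ
  rw [hB] at ht1
  set A1 : ℝ := ((2 : ℝ) ^ (kx * (d + e) / c₀)) ^ kx with hA1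
  set A2 : ℝ := ((2 : ℝ) ^ ((Bᶜ).card * (d + e) / c₀)) ^ (Bᶜ).card with hA2
  have hA10 : 0 ≤ A1 := by positivity
  have hA20 : 0 ≤ A2 := by positivity
  calc A1 / q ^ (d * kx) * ∑ c : Fin m → K,
        ‖FF ψ 𝔮 M v a B d (∏ i ∈ B, v i + 𝔮 * pol c)‖ ^ 2
      ≤ A1 / q ^ (d * kx) * (q ^ m * (q ^ (N + 1 - m - R) * (A2 / q ^ (d * (Bᶜ).card)))) :=
        mul_le_mul_of_nonneg_left h4 (by positivity)
    _ = (A1 * A2) * (q ^ (m + (N + 1 - m - R)) / q ^ (d * kx + d * (Bᶜ).card)) := by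
        rw [pow_add, pow_add]
        field_simp
    _ ≤ tau s (d + e) c₀ ^ 2 * (q ^ (m + (N + 1 - m - R)) / q ^ (d * kx + d * (Bᶜ).card)) :=
        mul_le_mul_of_nonneg_right (fin_arith ht1 ht2 hA10 hA20) (by positivity)
    _ = tau s (d + e) c₀ ^ 2 * q ^ (μ + 1 + (s - 1) * e) / q ^ R := by
        have h5 : d * kx + d * (Bᶜ).card = d * s := by
          rw [hBc, ← Nat.mul_add, Nat.add_sub_cancel' hks]
        have hs1 : s = (s - 1) + 1 := by omega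
        have h6 : s * (d + e) = d * s + (s - 1) * e + e := by
          conv_lhs => rw [Nat.mul_add, Nat.mul_comm s d]
          have : s * e = (s - 1) * e + e := by
            conv_lhs => rw [hs1, Nat.add_mul, Nat.one_mul]
          omega
        have h7 : m + (N + 1 - m - R) + R = (μ + 1 + (s - 1) * e) + d * s := by omega
        rw [h5, mul_div_assoc]
        congr 1
        rw [div_eq_div_iff (by positivity) (by positivity), ← pow_add, ← pow_add, h7]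

end Pool.Agent.H366.GF.L1N
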