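import Pool.Agent.H366.GF.TauD

/-! # L2: mean square over functionals of small rank -/

set_option autoImplicit false

namespace Pool.Agent.H366.GF.L2N

open Polynomial Pool.Agent.H366.GF

variable {K : Type} [Field K]

lemma primes_ge {σ : Type} {d : ℕ} {𝔮 : K[X]} {v : σ → K[X]} {c₀ : ℕ}
    (hsm : ∀ P : K[X], Irreducible P → P.natDegree < c₀ → P ∣ 𝔮) (hv : SlotOK 𝔮 d v)
    (h : σ → Fin d → K) (B : Finset σ) (P : K[X]) (hP : Irreducible P)
    (hd : P ∣ ∏ i ∈ B, zz 𝔮 v h i) : c₀ ≤ P.natDegree := by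
  by_contra hlt
  have h1 := hsm P hP (by omega)
  exact hP.not_isUnit ((prod_zz_cop hv h B).isUnit_of_dvd' hd h1)

/-- the quotient `g(z')`. -/
lemma exists_g {σ : Type} {d : ℕ} {𝔮 : K[X]} {v : σ → K[X]} (h𝔮 : 𝔮.Monic)
    (hv : SlotOK 𝔮 d v) (B : Finset σ) (h : σ → Fin d → K) :
    ∃ g : K[X], ∏ i ∈ B, zz 𝔮 v h i = ∏ i ∈ B, v i + 𝔮 * g ∧
      g.degree < ((B.card * (d + 𝔮.natDegree) - 𝔮.natDegree : ℕ) : WithBot ℕ) := by
  obtain ⟨g, hg⟩ := prod_zz_congr (𝔮 := 𝔮) (v := v) h B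
  refine ⟨g, by rw [← hg]; ring, ?_⟩
  by_cases hg0 : g = 0
  · rw [hg0, degree_zero]; exact WithBot.bot_lt_coe _
  rw [← natDegree_lt_iff_degree_lt hg0]
  have hm1 := prod_zz_monic h𝔮 hv h B
  have hm2 : (∏ i ∈ B, v i).Monic := monic_prod_of_monic _ _ fun i _ => hv.monic i
  have hd1 := prod_zz_natDegree h𝔮 hv h B
  have hd2 : (∏ i ∈ B, v i).natDegree = B.card * (d + 𝔮.natDegree) := by
    rw [natDegree_prod_of_monic _ _ fun i _ => hv.monic i]
    rw [Finset.sum_congr rfl fun i _ => hv.deg i, Finset.sum_const, smul_eq_mul]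
  have hne : ∏ i ∈ B, zz 𝔮 v h i - ∏ i ∈ B, v i ≠ 0 := by
    rw [hg]; exact mul_ne_zero h𝔮.ne_zero hg0
  have hlt : (∏ i ∈ B, zz 𝔮 v h i - ∏ i ∈ B, v i).degree < (∏ i ∈ B, zz 𝔮 v h i).degree :=
    degree_sub_lt_left (by rw [degree_eq_natDegree hm1.ne_zero, degree_eq_natDegree hm2.ne_zero, hd1, hd2])
      hm1.ne_zero (by rw [hm1.leadingCoeff, hm2.leadingCoeff])
  have h3 := natDegree_lt_natDegree hne hlt
  rw [hd1, hg, natDegree_mul h𝔮.ne_zero hg0] at h3
  omega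

lemma prod_pw {σ : Type} [Fintype σ] [DecidableEq σ] {d : ℕ} (𝔮 M : K[X]) (v : σ → K[X])
    (V : Finset σ) (z z' : σ → Fin d → K) :
    M * ∏ i, zz 𝔮 v (V.piecewise z z') i =
      (M * ∏ i ∈ V, zz 𝔮 v z i) * ∏ i ∈ Vᶜ, zz 𝔮 v z' i := by
  have h1 : ∏ i ∈ V, zz 𝔮 v (V.piecewise z z') i = ∏ i ∈ V, zz 𝔮 v z i := by
    refine Finset.prod_congr rfl fun i hi => ?_
    rw [zz, zz, Finset.piecewise_eq_of_mem _ _ _ hi]
  have h2 : ∏ i ∈ Vᶜ, zz 𝔮 v (V.piecewise z z') i = ∏ i ∈ Vᶜ, zz 𝔮 v z' i := by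
    refine Finset.prod_congr rfl fun i hi => ?_
    rw [zz, zz, Finset.piecewise_eq_of_notMem _ _ _ (Finset.mem_compl.1 hi)]
  rw [← Finset.prod_mul_prod_compl V, h1, h2, mul_assoc]

/-- division of `β (w + 𝔮 g)` by `𝔮`. -/
lemma div_split {𝔮 : K[X]} (h𝔮 : 𝔮.Monic) (β w g : K[X]) :
    (β * (w + 𝔮 * g)) /ₘ 𝔮 = (β * w) /ₘ 𝔮 + β * g := by
  have h1 : β * (w + 𝔮 * g) = (β * w) %ₘ 𝔮 + 𝔮 * ((β * w) /ₘ 𝔮 + β * g) := by
    have := modByMonic_add_div (β * w) 𝔮
    linear_combination -this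
  have h2 := div_modByMonic_unique ((β * w) /ₘ 𝔮 + β * g) ((β * w) %ₘ 𝔮) h𝔮
    ⟨h1.symm, degree_modByMonic_lt _ h𝔮⟩
  exact h2.1

variable [Fintype K]

/-- Parseval. -/
lemma parseval {ψ : AddChar K ℂ} (hψ : ψ.IsPrimitive) {α : Type} [Fintype α] [Nonempty α] {n : ℕ}
    (g : α → K[X]) (hg : ∀ x, (g x).degree < n) (p : ℝ)
    (hp : ∀ x, Ex (fun y => (open Classical in if g y = g x then (1 : ℝ) else 0)) ≤ p) :
    ∑ η : Fin n → K, ‖ExC (fun x => ψ (Lf η (g x)))‖ ^ 2 ≤ (Fintype.card K : ℝ) ^ n * p := by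
  classical
  have h1 : ((∑ η : Fin n → K, ‖ExC (fun x => ψ (Lf η (g x)))‖ ^ 2 : ℝ) : ℂ) =
      ((Ex (fun x : α => Ex (fun y : α => (Fintype.card K : ℝ) ^ n *
        (if g y = g x then (1 : ℝ) else 0))) : ℝ) : ℂ) := by
    push_cast
    rw [Ex_ofReal]
    have h2 : ∀ η : Fin n → K, ((‖ExC (fun x => ψ (Lf η (g x)))‖ : ℂ)) ^ 2 =
        ExC (fun x : α => ExC (fun y : α => ψ (Lf η (g y - g x)))) := by
      intro η
      have h3 : ((‖ExC (fun x => ψ (Lf η (g x)))‖ : ℂ)) ^ 2 =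
          (starRingEnd ℂ) (ExC (fun x => ψ (Lf η (g x)))) * ExC (fun x => ψ (Lf η (g x))) := by
        rw [← Complex.conj_mul']
      rw [h3]
      have h4 : (starRingEnd ℂ) (ExC (fun x => ψ (Lf η (g x)))) =
          ExC (fun x => ψ (- Lf η (g x))) := by
        rw [ExC, ExC, map_div₀, map_sum, map_natCast]
        congr 1
        refine Finset.sum_congr rfl fun x _ => ?_
        rw [AddChar.map_neg_eq_conj]
      rw [h4, ← ExC_mul_right]
      congr 1
      funext x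
      rw [← ExC_mul_left]
      congr 1
      funext y
      rw [← AddChar.map_add_eq_mul, map_sub]
      congr 1
      ring
    simp only [h2]
    rw [← ExC_sum]
    congr 1
    funext x
    rw [← ExC_sum, Ex_ofReal]
    congr 1
    funext y
    have h5 : (g y - g x).degree < n :=
      lt_of_le_of_lt (degree_sub_le _ _) (max_lt (hg y) (hg x))
    rw [sum_char_arg hψ _ h5]
    by_cases h6 : g y = g x
    · simp [h6]
    · rw [if_neg (sub_ne_zero.2 h6), if_neg h6]; simp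
  have h2 := Complex.ofReal_injective h1
  rw [h2]
  calc Ex (fun x : α => Ex (fun y : α => (Fintype.card K : ℝ) ^ n *
        (if g y = g x then (1 : ℝ) else 0)))
      ≤ Ex (fun _ : α => (Fintype.card K : ℝ) ^ n * p) := by
        refine Ex_mono fun x => ?_
        rw [Ex_mul_left]
        refine mul_le_mul_of_nonneg_left ?_ (by positivity)
        refine le_trans (le_of_eq ?_) (hp x)
        rfl
    _ = (Fintype.card K : ℝ) ^ n * p := Ex_const _

open Classical in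
/-- [L2] mean square over the functionals of small rank -/
theorem L2 {c₀ μ : ℕ} {𝔮 M : K[X]} {s d N : ℕ}
    {v : Fin s → K[X]} {ψ : AddChar K ℂ} (h𝔮 : 𝔮.Monic) (hM : M.Monic) (hμ : M.natDegree = μ)
    (hc : 0 < c₀)
    (hsm : ∀ P : K[X], Irreducible P → P.natDegree < c₀ → P ∣ 𝔮) (hv : SlotOK 𝔮 d v)
    (hN : N + 𝔮.natDegree = μ + s * (d + 𝔮.natDegree)) (hψ : ψ.IsPrimitive)
    (V : Finset (Fin s)) (hV : V.card < s) (R t : ℕ)
    (hN1 : 2 * R + (μ + V.card * (d + 𝔮.natDegree)) ≤ N)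
    (hN2 : μ + V.card * (d + 𝔮.natDegree) < N - R) (z : Fin s → Fin d → K) :
    ∑ a ∈ Finset.univ.filter (fun a : Fin N → K => rk a ≤ R ∧
        (gd (Qm a) (M * ∏ i ∈ V, zz 𝔮 v z i)).natDegree ≤ t), ‖TT ψ 𝔮 M v a V z‖ ^ 2 ≤
      (Fintype.card K : ℝ) ^ t * 2 ^ (μ + V.card * (d + 𝔮.natDegree) / c₀) *
        tau s (d + 𝔮.natDegree) c₀ * (Fintype.card K : ℝ) ^ ((s - 1) * 𝔮.natDegree) := by
  set F := ∏ i ∈ V, zz 𝔮 v z i with hF
  set β := M * F with hβdef
  have hFm : F.Monic := prod_zz_monic h𝔮 hv z V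
  have hβ : β.Monic := hM.mul hFm
  have hFd : F.natDegree = V.card * (d + 𝔮.natDegree) := prod_zz_natDegree h𝔮 hv z V
  have hβd : β.natDegree = μ + V.card * (d + 𝔮.natDegree) := by
    rw [hβdef, natDegree_mul hM.ne_zero hFm.ne_zero, hμ, hFd]
  have hBc : (Vᶜ : Finset (Fin s)).card = s - V.card := by
    rw [Finset.card_compl, Fintype.card_fin]
  -- the quotients
  choose g hg hgd using fun z' : Fin s → Fin d → K => exists_g h𝔮 hv Vᶜ z'
  set n := N - β.natDegree with hn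
  have hnd : n = (s - V.card) * (d + 𝔮.natDegree) - 𝔮.natDegree := by
    have h1 : s * (d + 𝔮.natDegree) = (s - V.card) * (d + 𝔮.natDegree) +
        V.card * (d + 𝔮.natDegree) := by
      rw [← add_mul]; congr 1; omega
    rw [hn, hβd]
    omega
  have hgd' : ∀ z', (g z').degree < n := by
    intro z'
    have := hgd z'
    rwa [hBc, ← hnd] at this
  -- the fibres
  have hTT : ∀ a : Fin N → K, ‖TT ψ 𝔮 M v a V z‖ =
      ‖ExC (fun z' : Fin s → Fin d → K => ψ (Lf (Bm a β) (g z')))‖ := by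
    intro a
    have h1 : TT ψ 𝔮 M v a V z = ψ (Lf a ((β * ∏ i ∈ Vᶜ, v i) /ₘ 𝔮)) *
        ExC (fun z' : Fin s → Fin d → K => ψ (Lf (Bm a β) (g z'))) := by
      rw [TT, ← ExC_mul_left]
      congr 1
      funext z'
      have h2 : M * ∏ i, zz 𝔮 v (V.piecewise z z') i = β * (∏ i ∈ Vᶜ, v i + 𝔮 * g z') := by
        rw [← hg z']
        exact prod_pw 𝔮 M v V z z'
      have h3 : Lf (Bm a β) (g z') = Lf a (β * g z') := by
        by_cases h0 : g z' = 0
        · rw [h0, mul_zero, map_zero, map_zero]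
        · rw [Bm_apply]
          exact (natDegree_lt_iff_degree_lt h0).2 (hgd' z')
      rw [h2, div_split h𝔮, map_add, AddChar.map_add_eq_mul, h3]
    rw [h1, norm_mul, norm_psi, one_mul]
  have hq1 : (1 : ℝ) ≤ (Fintype.card K : ℝ) := by
    exact_mod_cast Fintype.card_pos
  have hq0 : (0 : ℝ) < (Fintype.card K : ℝ) := by linarith
  -- Parseval
  have hPar : ∑ η : Fin n → K, ‖ExC (fun z' : Fin s → Fin d → K => ψ (Lf η (g z')))‖ ^ 2 ≤
      tau s (d + 𝔮.natDegree) c₀ * (Fintype.card K : ℝ) ^ ((s - 1) * 𝔮.natDegree) := by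
    have h1 := parseval hψ g hgd' (((2 : ℝ) ^ ((s - V.card) * (d + 𝔮.natDegree) / c₀)) ^
      (s - V.card) / (Fintype.card K : ℝ) ^ (d * (s - V.card))) ?_
    · refine h1.trans ?_
      have h2 : ((2 : ℝ) ^ ((s - V.card) * (d + 𝔮.natDegree) / c₀)) ^ (s - V.card) ≤
          tau s (d + 𝔮.natDegree) c₀ := by
        rw [tau, ← pow_mul, ← pow_mul]
        refine pow_le_pow_right₀ (by norm_num) ?_
        refine Nat.mul_le_mul (Nat.div_le_div_right (Nat.mul_le_mul_right _ ?_)) ?_ <;> omega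
      have h3 : (Fintype.card K : ℝ) ^ n / (Fintype.card K : ℝ) ^ (d * (s - V.card)) ≤
          (Fintype.card K : ℝ) ^ ((s - 1) * 𝔮.natDegree) := by
        rw [div_le_iff₀ (by positivity), ← pow_add]
        refine pow_le_pow_right₀ hq1 ?_
        rw [hnd]
        have h4 : (s - V.card) * (d + 𝔮.natDegree) = (s - V.card) * 𝔮.natDegree +
          d * (s - V.card) := by ring
        have h5 : (s - V.card) * 𝔮.natDegree ≤ (s - 1) * 𝔮.natDegree + 𝔮.natDegree := by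
          have : s - V.card ≤ (s - 1) + 1 := by omega
          calc (s - V.card) * 𝔮.natDegree ≤ ((s - 1) + 1) * 𝔮.natDegree :=
                Nat.mul_le_mul_right _ this
            _ = _ := by ring
        omega
      calc (Fintype.card K : ℝ) ^ n * (((2 : ℝ) ^ ((s - V.card) * (d + 𝔮.natDegree) / c₀)) ^
            (s - V.card) / (Fintype.card K : ℝ) ^ (d * (s - V.card)))
          = ((2 : ℝ) ^ ((s - V.card) * (d + 𝔮.natDegree) / c₀)) ^ (s - V.card) *
            ((Fintype.card K : ℝ) ^ n / (Fintype.card K : ℝ) ^ (d * (s - V.card))) := by ring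
        _ ≤ _ := mul_le_mul h2 h3 (by positivity) (le_trans (by positivity) h2)
    · intro z'
      have h2 := prob_fibre h𝔮 hv hc hsm Vᶜ (∏ i ∈ Vᶜ, zz 𝔮 v z' i)
      rw [hBc] at h2
      refine le_trans (Ex_mono fun y => ?_) h2
      by_cases h3 : g y = g z'
      · rw [if_pos h3, if_pos]
        rw [hg y, hg z', h3]
      · rw [if_neg h3]
        split_ifs <;> norm_num
  -- grouping
  have hcard : (dv β).card ≤ 2 ^ (μ + V.card * (d + 𝔮.natDegree) / c₀) := by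
    have := card_dv_le hM.ne_zero hFm.ne_zero hc (fun P hP hPd => primes_ge hsm hv z V P hP hPd)
    rwa [hμ, hFd] at this
  have hgroup : ∑ a ∈ Finset.univ.filter (fun a : Fin N → K => rk a ≤ R ∧
        (gd (Qm a) β).natDegree ≤ t), ‖TT ψ 𝔮 M v a V z‖ ^ 2 =
      ∑ η : Fin n → K, ∑ a ∈ (Finset.univ.filter (fun a : Fin N → K => rk a ≤ R ∧
        (gd (Qm a) β).natDegree ≤ t)).filter (fun a => Bm a β = η), ‖TT ψ 𝔮 M v a V z‖ ^ 2 := by
    rw [Finset.sum_fiberwise]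
  rw [hgroup]
  calc ∑ η : Fin n → K, ∑ a ∈ (Finset.univ.filter (fun a : Fin N → K => rk a ≤ R ∧
        (gd (Qm a) β).natDegree ≤ t)).filter (fun a => Bm a β = η), ‖TT ψ 𝔮 M v a V z‖ ^ 2
      ≤ ∑ η : Fin n → K, ((Fintype.card K : ℝ) ^ t *
          2 ^ (μ + V.card * (d + 𝔮.natDegree) / c₀)) *
          ‖ExC (fun z' : Fin s → Fin d → K => ψ (Lf η (g z')))‖ ^ 2 := by
        refine Finset.sum_le_sum fun η _ => ?_
        have h1 : ∑ a ∈ (Finset.univ.filter (fun a : Fin N → K => rk a ≤ R ∧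
            (gd (Qm a) β).natDegree ≤ t)).filter (fun a => Bm a β = η), ‖TT ψ 𝔮 M v a V z‖ ^ 2 =
            ∑ a ∈ (Finset.univ.filter (fun a : Fin N → K => rk a ≤ R ∧
            (gd (Qm a) β).natDegree ≤ t)).filter (fun a => Bm a β = η),
            ‖ExC (fun z' : Fin s → Fin d → K => ψ (Lf η (g z')))‖ ^ 2 := by
          refine Finset.sum_congr rfl fun a ha => ?_
          rw [hTT a, (Finset.mem_filter.1 ha).2]
        rw [h1, Finset.sum_const, nsmul_eq_mul]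
        refine mul_le_mul_of_nonneg_right ?_ (by positivity)
        have h2 := card_fib β hβ (R := R) (t := t) (by rw [hβd]; exact hN1)
          (by rw [hβd]; exact hN2) (dv β) (fun g hg hgb => mem_dv hβ.ne_zero hg hgb) η
        have h3 : ((Finset.univ.filter (fun a : Fin N → K => rk a ≤ R ∧
            (gd (Qm a) β).natDegree ≤ t)).filter (fun a => Bm a β = η)).card ≤
            Fintype.card K ^ t * 2 ^ (μ + V.card * (d + 𝔮.natDegree) / c₀) := by
          refine le_trans (Finset.card_le_card ?_) (h2.trans (Nat.mul_le_mul_left _ hcard))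
          intro a ha
          simp only [Finset.mem_filter, Finset.mem_univ, true_and] at ha ⊢
          exact ⟨ha.2, ha.1⟩
        exact_mod_cast h3
    _ = ((Fintype.card K : ℝ) ^ t * 2 ^ (μ + V.card * (d + 𝔮.natDegree) / c₀)) *
          ∑ η : Fin n → K, ‖ExC (fun z' : Fin s → Fin d → K => ψ (Lf η (g z')))‖ ^ 2 := by
        rw [Finset.mul_sum]
    _ ≤ ((Fintype.card K : ℝ) ^ t * 2 ^ (μ + V.card * (d + 𝔮.natDegree) / c₀)) *
          (tau s (d + 𝔮.natDegree) c₀ * (Fintype.card K : ℝ) ^ ((s - 1) * 𝔮.natDegree)) :=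
        mul_le_mul_of_nonneg_left hPar (by positivity)
    _ = _ := by ring

end Pool.Agent.H366.GF.L2N
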