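import Pool.Agent.H366.GF.TauD

/-! # Parseval-type estimates: L3 and L4 -/

set_option autoImplicit false

namespace Pool.Agent.H366.GF.L34

open Polynomial Pool.Agent.H366.GF

variable {K : Type} [Field K] [Fintype K] {c₀ μ : ℕ} {𝔮 M : K[X]} {s d N : ℕ}
  {v : Fin s → K[X]} {ψ : AddChar K ℂ}

/-- the square of an average -/
lemma sq_ExC {α : Type} [Fintype α] (f : α → ℂ) :
    (((‖ExC f‖ ^ 2 : ℝ)) : ℂ) = ExC fun x => ExC fun y => f x * (starRingEnd ℂ) (f y) := by
  have h1 : (starRingEnd ℂ) (ExC f) = ExC fun y => (starRingEnd ℂ) (f y) := by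
    simp [ExC, map_div₀, map_sum]
  have h2 : ∀ x, (ExC fun y => f x * (starRingEnd ℂ) (f y)) = f x * (starRingEnd ℂ) (ExC f) := by
    intro x
    rw [ExC_mul_left, h1]
  simp only [h2]
  rw [ExC_mul_right, Complex.mul_conj']
  push_cast
  rfl

lemma psi_mul_conj (x y : K) : ψ x * (starRingEnd ℂ) (ψ y) = ψ (x - y) := by
  rw [← AddChar.map_neg_eq_conj, ← AddChar.map_add_eq_mul, sub_eq_add_neg]

/-- `M` times the product of the slots, its quotient by the modulus -/
lemma mod_const (h𝔮 : 𝔮.Monic) (M : K[X]) (h h' : Fin s → Fin d → K) :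
    (M * ∏ i, zz 𝔮 v h i) %ₘ 𝔮 = (M * ∏ i, zz 𝔮 v h' i) %ₘ 𝔮 := by
  rw [← sub_eq_zero, ← sub_modByMonic, modByMonic_eq_zero_iff_dvd h𝔮, ← mul_sub]
  apply Dvd.dvd.mul_left
  have h1 := prod_zz_congr (𝔮 := 𝔮) (v := v) h Finset.univ
  have h2 := prod_zz_congr (𝔮 := 𝔮) (v := v) h' Finset.univ
  have h3 := dvd_sub h1 h2
  rwa [sub_sub_sub_cancel_right] at h3

lemma div_eq_iff (h𝔮 : 𝔮.Monic) (hM : M ≠ 0) (h h' : Fin s → Fin d → K) :
    (M * ∏ i, zz 𝔮 v h i) /ₘ 𝔮 = (M * ∏ i, zz 𝔮 v h' i) /ₘ 𝔮 ↔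
      ∏ i, zz 𝔮 v h i = ∏ i, zz 𝔮 v h' i := by
  constructor
  · intro h1
    have h2 := modByMonic_add_div (M * ∏ i, zz 𝔮 v h i) 𝔮
    have h3 := modByMonic_add_div (M * ∏ i, zz 𝔮 v h' i) 𝔮
    rw [h1, mod_const h𝔮 M h h', h3] at h2
    exact (mul_left_cancel₀ hM h2).symm
  · intro h1
    rw [h1]

lemma tau_mono (k D : ℕ) (hk : k ≤ s) :
    ((2 : ℝ) ^ (k * D / c₀)) ^ k ≤ tau s D c₀ := by
  unfold tau
  have h1 : k * D / c₀ ≤ s * D / c₀ := Nat.div_le_div_right (Nat.mul_le_mul_right D hk)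
  calc ((2 : ℝ) ^ (k * D / c₀)) ^ k ≤ ((2 : ℝ) ^ (s * D / c₀)) ^ k :=
        pow_le_pow_left₀ (by positivity) (pow_le_pow_right₀ (by norm_num) h1) k
    _ ≤ ((2 : ℝ) ^ (s * D / c₀)) ^ s := pow_le_pow_right₀ (one_le_pow₀ (by norm_num)) hk

/-- [L3] mean square over all functionals -/
theorem L3 (h𝔮 : 𝔮.Monic) (hM : M.Monic) (hμ : M.natDegree = μ) (hc : 0 < c₀)
    (hsm : ∀ P : K[X], Irreducible P → P.natDegree < c₀ → P ∣ 𝔮) (hv : SlotOK 𝔮 d v)
    (hs : 0 < s) (hN : N + 𝔮.natDegree = μ + s * (d + 𝔮.natDegree)) (hψ : ψ.IsPrimitive)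
    (V : Finset (Fin s)) (z : Fin s → Fin d → K) :
    ∑ a : Fin N → K, ‖TT ψ 𝔮 M v a V z‖ ^ 2 ≤
      tau s (d + 𝔮.natDegree) c₀ *
        (Fintype.card K : ℝ) ^ (μ + (s - 1) * 𝔮.natDegree + V.card * d) := by
  classical
  set q : ℝ := (Fintype.card K : ℝ) with hq
  have hq1 : 1 ≤ q := by
    rw [hq]
    exact_mod_cast Fintype.card_pos
  have hq0 : 0 < q := by linarith
  set P : (Fin s → Fin d → K) → K[X] := fun z' => M * ∏ i, zz 𝔮 v (V.piecewise z z') i with hP
  set f : (Fin s → Fin d → K) → K[X] := fun z' => P z' /ₘ 𝔮 with hf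
  -- degrees
  have hPm : ∀ z', (P z').Monic := fun z' => hM.mul (prod_zz_monic h𝔮 hv _ _)
  have hPd : ∀ z', (P z').natDegree = N + 𝔮.natDegree := by
    intro z'
    rw [hP]
    simp only
    rw [hM.natDegree_mul (prod_zz_monic h𝔮 hv _ _), prod_zz_natDegree h𝔮 hv, hμ,
      Finset.card_univ, Fintype.card_fin, hN]
  have hdiff : ∀ z' z'', 𝔮 * (f z' - f z'') = P z' - P z'' := by
    intro z' z''
    have h2 := modByMonic_add_div (P z') 𝔮
    have h3 := modByMonic_add_div (P z'') 𝔮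
    have h4 : P z' %ₘ 𝔮 = P z'' %ₘ 𝔮 := mod_const h𝔮 M _ _
    rw [mul_sub]
    rw [hf]
    simp only
    rw [h4] at h2
    linear_combination h2 - h3
  have hdeg : ∀ z' z'', (f z' - f z'').degree < N := by
    intro z' z''
    have h1 : (P z' - P z'').degree < ((N + 𝔮.natDegree : ℕ) : WithBot ℕ) := by
      have h2 : (P z').degree = (P z'').degree := by
        rw [degree_eq_natDegree (hPm z').ne_zero, degree_eq_natDegree (hPm z'').ne_zero,
          hPd, hPd]
      have h3 := degree_sub_lt_left h2 (hPm z').ne_zero (by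
        rw [(hPm z').leadingCoeff, (hPm z'').leadingCoeff])
      rwa [degree_eq_natDegree (hPm z').ne_zero, hPd] at h3
    rw [← hdiff] at h1
    by_cases h0 : f z' - f z'' = 0
    · rw [h0, degree_zero]
      exact WithBot.bot_lt_coe _
    · rw [degree_mul, degree_eq_natDegree h𝔮.ne_zero, degree_eq_natDegree h0] at h1
      rw [degree_eq_natDegree h0]
      have h5 : 𝔮.natDegree + (f z' - f z'').natDegree < N + 𝔮.natDegree := by exact_mod_cast h1
      have h6 : (f z' - f z'').natDegree < N := by omega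
      exact_mod_cast h6
  -- the identity
  have key : ∑ a : Fin N → K, ‖TT ψ 𝔮 M v a V z‖ ^ 2 =
      Ex fun z' => Ex fun z'' => if f z' = f z'' then q ^ N else 0 := by
    apply Complex.ofReal_injective
    rw [Complex.ofReal_sum]
    have h1 : ∀ a : Fin N → K, (((‖TT ψ 𝔮 M v a V z‖ ^ 2 : ℝ)) : ℂ) =
        ExC fun z' => ExC fun z'' => ψ (Lf a (f z' - f z'')) := by
      intro a
      unfold TT
      rw [sq_ExC]
      congr 1
      funext z'
      congr 1
      funext z''
      rw [psi_mul_conj, ← map_sub]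
    rw [Finset.sum_congr rfl fun a _ => h1 a, ← ExC_sum]
    rw [Ex_ofReal]
    congr 1
    funext z'
    rw [← ExC_sum, Ex_ofReal]
    congr 1
    funext z''
    rw [sum_char_arg hψ _ (hdeg z' z'')]
    by_cases h : f z' = f z''
    · rw [if_pos h, if_pos (sub_eq_zero.2 h), hq]
      push_cast
      rfl
    · rw [if_neg h, if_neg (sub_ne_zero.2 h)]
      norm_num
  rw [key]
  -- the fibres
  have hVc : (Finset.univ \ V).card = s - V.card := by
    rw [Finset.card_sdiff_of_subset (Finset.subset_univ V), Finset.card_univ, Fintype.card_fin]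
  have hVs : V.card ≤ s := by
    have := Finset.card_le_univ V
    rwa [Fintype.card_fin] at this
  have hfib : ∀ z', (Ex fun z'' => if f z' = f z'' then q ^ N else 0) ≤
      q ^ N * (tau s (d + 𝔮.natDegree) c₀ / q ^ (d * (s - V.card))) := by
    intro z'
    have h1 := prob_fibre h𝔮 hv hc hsm (Finset.univ \ V) (∏ i ∈ Finset.univ \ V, zz 𝔮 v z' i)
    rw [hVc] at h1
    calc (Ex fun z'' => if f z' = f z'' then q ^ N else 0)
        ≤ Ex fun z'' => q ^ N * (if ∏ i ∈ Finset.univ \ V, zz 𝔮 v z'' i =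
            ∏ i ∈ Finset.univ \ V, zz 𝔮 v z' i then (1 : ℝ) else 0) := by
          refine Ex_mono fun z'' => ?_
          by_cases h : f z' = f z''
          · have h2 := (div_eq_iff h𝔮 hM.ne_zero _ _).1 h
            have h3 : ∏ i ∈ Finset.univ \ V, zz 𝔮 v z'' i = ∏ i ∈ Finset.univ \ V, zz 𝔮 v z' i := by
              have h4 : ∀ w : Fin s → Fin d → K, ∏ i, zz 𝔮 v (V.piecewise z w) i =
                  (∏ i ∈ Finset.univ \ V, zz 𝔮 v w i) * ∏ i ∈ V, zz 𝔮 v z i := by
                intro w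
                rw [← Finset.prod_sdiff (Finset.subset_univ V)]
                congr 1
                · refine Finset.prod_congr rfl fun i hi => ?_
                  rw [Finset.mem_sdiff] at hi
                  unfold zz
                  rw [Finset.piecewise_eq_of_notMem _ _ _ hi.2]
                · refine Finset.prod_congr rfl fun i hi => ?_
                  unfold zz
                  rw [Finset.piecewise_eq_of_mem _ _ _ hi]
              rw [h4, h4] at h2
              exact (mul_right_cancel₀ (prod_zz_monic h𝔮 hv z V).ne_zero h2).symm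
            rw [if_pos h, if_pos h3, mul_one]
          · rw [if_neg h]
            split_ifs
            · positivity
            · simp
      _ = q ^ N * Ex fun z'' => (if ∏ i ∈ Finset.univ \ V, zz 𝔮 v z'' i =
            ∏ i ∈ Finset.univ \ V, zz 𝔮 v z' i then (1 : ℝ) else 0) := Ex_mul_left _ _
      _ ≤ q ^ N * (((2 : ℝ) ^ ((s - V.card) * (d + 𝔮.natDegree) / c₀)) ^ (s - V.card) /
            q ^ (d * (s - V.card))) := by
          exact mul_le_mul_of_nonneg_left h1 (by positivity)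
      _ ≤ q ^ N * (tau s (d + 𝔮.natDegree) c₀ / q ^ (d * (s - V.card))) := by
          refine mul_le_mul_of_nonneg_left ?_ (by positivity)
          exact div_le_div_of_nonneg_right (tau_mono _ _ (Nat.sub_le _ _)) (by positivity)
  have h0 : (Ex fun z' => Ex fun z'' => if f z' = f z'' then q ^ N else 0) ≤
      q ^ N * (tau s (d + 𝔮.natDegree) c₀ / q ^ (d * (s - V.card))) := by
    refine (Ex_mono hfib).trans (le_of_eq ?_)
    exact Ex_const _
  refine h0.trans (le_of_eq ?_)
  have hexp : N = (μ + (s - 1) * 𝔮.natDegree + V.card * d) + d * (s - V.card) := by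
    obtain ⟨t, rfl⟩ : ∃ t, s = t + 1 := ⟨s - 1, by omega⟩
    obtain ⟨w, hw⟩ : ∃ w, t + 1 = V.card + w := ⟨t + 1 - V.card, by omega⟩
    have h5 : t + 1 - V.card = w := by omega
    rw [h5, Nat.add_sub_cancel]
    have h6 : (t + 1) * (d + 𝔮.natDegree) = (V.card + w) * d + t * 𝔮.natDegree + 𝔮.natDegree := by
      rw [← hw]; ring
    have h7 : (V.card + w) * d = V.card * d + d * w := by ring
    omega
  have hpow : q ^ N = q ^ (μ + (s - 1) * 𝔮.natDegree + V.card * d) * q ^ (d * (s - V.card)) := by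
    rw [← pow_add]
    congr 1
  rw [hpow]
  field_simp

/-- Parseval over the functionals -/
lemma parseval (hψ : ψ.IsPrimitive) (g : (Fin N → K) → ℂ) :
    ∑ c : Fin N → K, ‖∑ a : Fin N → K, g a * ψ (Lf a (pol c))‖ ^ 2 =
      (Fintype.card K : ℝ) ^ N * ∑ a : Fin N → K, ‖g a‖ ^ 2 := by
  classical
  apply Complex.ofReal_injective
  rw [Complex.ofReal_sum]
  have h1 : ∀ c : Fin N → K, (((‖∑ a : Fin N → K, g a * ψ (Lf a (pol c))‖ ^ 2 : ℝ)) : ℂ) =
      ∑ a : Fin N → K, ∑ b : Fin N → K, g a * (starRingEnd ℂ) (g b) * ψ (Lf (a - b) (1 * pol c)) := by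
    intro c
    push_cast
    rw [← Complex.mul_conj', map_sum, Finset.sum_mul_sum]
    refine Finset.sum_congr rfl fun a _ => Finset.sum_congr rfl fun b _ => ?_
    rw [map_mul, one_mul, Lf_sub_left, ← psi_mul_conj]
    ring
  rw [Finset.sum_congr rfl fun c _ => h1 c, Finset.sum_comm]
  push_cast
  rw [Finset.mul_sum]
  refine Finset.sum_congr rfl fun a _ => ?_
  rw [Finset.sum_comm]
  have h2 : ∀ b : Fin N → K, (∑ c : Fin N → K, g a * (starRingEnd ℂ) (g b) *
      ψ (Lf (a - b) (1 * pol c))) =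
      if a = b then g a * (starRingEnd ℂ) (g b) * (Fintype.card K : ℂ) ^ N else 0 := by
    intro b
    rw [← Finset.mul_sum, sum_char_kl hψ (a - b) 1 N]
    by_cases h : a = b
    · subst h
      rw [if_pos rfl, if_pos]
      intro w _
      rw [sub_self, Lf_zero_left]
    · rw [if_neg h, if_neg, mul_zero]
      intro h3
      apply h
      rw [← sub_eq_zero]
      refine Lf_eq_zero _ fun w hw => ?_
      have := h3 w hw
      rwa [one_mul] at this
  rw [Finset.sum_congr rfl fun b _ => h2 b, Finset.sum_ite_eq, if_pos (Finset.mem_univ _),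
    Complex.mul_conj']
  ring

/-- [L4] the third group of slots; `M` is a monic polynomial of degree `< μ`. -/
theorem L4 (h𝔮 : 𝔮.Monic) (hM : M.Monic) (hμ : M.natDegree < μ) (hc : 0 < c₀)
    (hsm : ∀ P : K[X], Irreducible P → P.natDegree < c₀ → P ∣ 𝔮) (hv : SlotOK 𝔮 d v)
    (hs : 0 < s) (hN : N + 𝔮.natDegree = μ + s * (d + 𝔮.natDegree)) (hψ : ψ.IsPrimitive)
    (V : Finset (Fin s)) (g : (Fin N → K) → ℂ) :
    Ex (fun z : Fin s → Fin d → K => ‖∑ a : Fin N → K, g a * TT ψ 𝔮 M v a V z‖ ^ 2) ≤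
      tau s (d + 𝔮.natDegree) c₀ * (Fintype.card K : ℝ) ^ (μ + (s - 1) * 𝔮.natDegree) *
        ∑ a : Fin N → K, ‖g a‖ ^ 2 := by
  classical
  set q : ℝ := (Fintype.card K : ℝ) with hq
  have hq1 : 1 ≤ q := by
    rw [hq]
    exact_mod_cast Fintype.card_pos
  have hq0 : 0 < q := by linarith
  set f : (Fin s → Fin d → K) → K[X] := fun z => (M * ∏ i, zz 𝔮 v z i) /ₘ 𝔮 with hf
  set G : K[X] → ℝ := fun F => ‖∑ a : Fin N → K, g a * ψ (Lf a F)‖ ^ 2 with hG
  have h1 : ∀ z : Fin s → Fin d → K, ‖∑ a : Fin N → K, g a * TT ψ 𝔮 M v a V z‖ ^ 2 ≤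
      Ex fun z' => G (f (V.piecewise z z')) := by
    intro z
    have h2 : ∑ a : Fin N → K, g a * TT ψ 𝔮 M v a V z =
        ExC fun z' => ∑ a : Fin N → K, g a * ψ (Lf a (f (V.piecewise z z'))) := by
      rw [ExC_sum]
      refine Finset.sum_congr rfl fun a _ => ?_
      rw [ExC_mul_left]
      rfl
    rw [h2]
    exact norm_ExC_sq_le _
  have h3 : Ex (fun z : Fin s → Fin d → K => ‖∑ a : Fin N → K, g a * TT ψ 𝔮 M v a V z‖ ^ 2) ≤
      Ex fun z => G (f z) := by
    refine (Ex_mono h1).trans (le_of_eq ?_)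
    exact Ex_pw V (fun z => G (f z))
  refine h3.trans ?_
  -- the values of `f`
  have hPd : ∀ z, (f z).natDegree < N := by
    intro z
    rw [hf]
    simp only
    rw [natDegree_divByMonic _ h𝔮, hM.natDegree_mul (prod_zz_monic h𝔮 hv _ _),
      prod_zz_natDegree h𝔮 hv, Finset.card_univ, Fintype.card_fin]
    have h5 : 𝔮.natDegree ≤ s * (d + 𝔮.natDegree) :=
      (Nat.le_add_left _ _).trans (Nat.le_mul_of_pos_left _ hs)
    omega
  have h4 := Ex_fibre f (fun c : Fin N → K => pol c) (fun z => exists_pol' (f z) (hPd z))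
    (tau s (d + 𝔮.natDegree) c₀ / q ^ (d * s)) (by
      intro F
      by_cases hF : ∃ z0, f z0 = F
      · obtain ⟨z0, hz0⟩ := hF
        have h5 := prob_fibre h𝔮 hv hc hsm Finset.univ (∏ i, zz 𝔮 v z0 i)
        rw [Finset.card_univ, Fintype.card_fin] at h5
        refine (Ex_mono fun z => ?_).trans h5
        by_cases h : f z = F
        · rw [if_pos h, if_pos]
          exact (div_eq_iff h𝔮 hM.ne_zero _ _).1 (h.trans hz0.symm)
        · rw [if_neg h]
          split_ifs <;> norm_num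
      · have h6 : (fun x => if f x = F then (1 : ℝ) else 0) = fun _ => 0 := by
          funext z
          rw [if_neg fun h => hF ⟨z, h⟩]
        rw [h6, Ex_const]
        unfold tau
        positivity) G (fun F => by rw [hG]; positivity)
  refine h4.trans (le_of_eq ?_)
  have h7 := parseval (N := N) hψ g
  rw [hG]
  simp only
  rw [h7]
  have hexp : N = (μ + (s - 1) * 𝔮.natDegree) + d * s := by
    obtain ⟨t, rfl⟩ : ∃ t, s = t + 1 := ⟨s - 1, by omega⟩
    rw [Nat.add_sub_cancel]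
    have h6 : (t + 1) * (d + 𝔮.natDegree) = d * (t + 1) + t * 𝔮.natDegree + 𝔮.natDegree := by ring
    omega
  have hpow : q ^ N = q ^ (μ + (s - 1) * 𝔮.natDegree) * q ^ (d * s) := by
    rw [← pow_add]
    congr 1
  rw [← hq, hpow]
  field_simp

end Pool.Agent.H366.GF.L34
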