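import Pool.Agent.H366.GF.L1
import Pool.Agent.H366.GF.L2
import Pool.Agent.H366.GF.L34
import Pool.Agent.H366.GF.Major

/-! # The minor arcs -/

set_option autoImplicit false

namespace Pool.Agent.H366.GF

open Polynomial

section av

variable {A α β : Type} [Fintype α] [Fintype β]

lemma Ex_split [Nonempty β] (S : Finset A) (f : A → α → ℝ) (g : A → β → ℝ) (F G : ℝ)
    (hg : ∀ a y, 0 ≤ g a y) (hF : ∀ a ∈ S, Ex (f a) ≤ F) (hF0 : 0 ≤ F)
    (hG : ∀ y, ∑ a ∈ S, g a y ≤ G) :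
    Ex (fun x => Ex (fun y => ∑ a ∈ S, f a x * g a y)) ≤ F * G := by
  calc Ex (fun x => Ex (fun y => ∑ a ∈ S, f a x * g a y))
      = Ex (fun x => ∑ a ∈ S, f a x * Ex (g a)) := by
        congr 1; funext x
        rw [Ex_sum]
        exact Finset.sum_congr rfl fun a _ => Ex_mul_left _ _
    _ = ∑ a ∈ S, Ex (f a) * Ex (g a) := by
        rw [Ex_sum]
        exact Finset.sum_congr rfl fun a _ => Ex_mul_right _ _
    _ ≤ ∑ a ∈ S, F * Ex (g a) := Finset.sum_le_sum fun a ha =>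
        mul_le_mul_of_nonneg_right (hF a ha) (Ex_nonneg (hg a))
    _ = F * Ex (fun y => ∑ a ∈ S, g a y) := by rw [Ex_sum, Finset.mul_sum]
    _ ≤ F * G := by
        refine mul_le_mul_of_nonneg_left ?_ hF0
        exact (Ex_mono hG).trans (le_of_eq (Ex_const G))

lemma Ex_split' [Nonempty α] (S : Finset A) (f : A → α → ℝ) (g : A → β → ℝ) (F G : ℝ)
    (hf : ∀ a y, 0 ≤ f a y) (hF : ∀ a ∈ S, Ex (g a) ≤ F) (hF0 : 0 ≤ F)
    (hG : ∀ y, ∑ a ∈ S, f a y ≤ G) :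
    Ex (fun x => Ex (fun y => ∑ a ∈ S, f a x * g a y)) ≤ F * G := by
  rw [Ex_comm]
  refine le_trans (le_of_eq ?_) (Ex_split S g f F G hf hF hF0 hG)
  congr 1; funext y; congr 1; funext x
  exact Finset.sum_congr rfl fun a _ => mul_comm _ _

end av

section minor

variable {K : Type} [Field K] [Fintype K]

open Classical in
/-- the mean square over the minor arcs -/
lemma minorZ {c₀ μ : ℕ} {𝔮 : K[X]} {M : Fin 3 → K[X]} (hC : Ctx K c₀ μ 𝔮 M) {k s : ℕ}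
    (hs : s = 4 * k + 4) {d : ℕ} (hd : μ < d) {v : Fin 3 → Fin s → K[X]}
    (hv : ∀ X, SlotOK 𝔮 d (v X)) {N : ℕ}
    (hN : N + 𝔮.natDegree = μ + s * (d + 𝔮.natDegree)) (ψ : Fin 3 → AddChar K ℂ)
    (hψ : ∀ X, (ψ X).IsPrimitive) (V : Fin 3 → Finset (Fin s)) (hV : ∀ X, (V X).card ≤ k) :
    Ex (fun z₀ : Fin s → Fin d → K => Ex (fun z₁ : Fin s → Fin d → K =>
      if IsCoprime (M 0 * ∏ i ∈ V 0, zz 𝔮 (v 0) z₀ i) (M 1 * ∏ i ∈ V 1, zz 𝔮 (v 1) z₁ i) then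
        ∑ a ∈ Finset.univ.filter (fun a : Fin N → K => d < rk a),
          ‖TT (ψ 0) 𝔮 (M 0) (v 0) a (V 0) z₀‖ ^ 2 * ‖TT (ψ 1) 𝔮 (M 1) (v 1) a (V 1) z₁‖ ^ 2
      else 0)) ≤
    tau s (d + 𝔮.natDegree) c₀ ^ 3 * (Fintype.card K : ℝ) ^ (2 * μ + 1 + 2 * ((s - 1) * 𝔮.natDegree)) *
      2 ^ (k * (d + 𝔮.natDegree) / c₀) * (1 / 2 ^ d + 8 * 2 ^ μ / 2 ^ ((d + 1) / 2)) := by
  set δ := 𝔮.natDegree with hδ
  set D := d + δ with hD
  set q : ℝ := (Fintype.card K : ℝ) with hq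
  set τ := tau s D c₀ with hτ
  have hq2 : 2 ≤ q := by
    rw [hq]; exact_mod_cast Fintype.one_lt_card
  have hq0 : 0 < q := by linarith
  have hq1 : 1 ≤ q := by linarith
  have hτ0 : 0 < τ := by rw [hτ, tau]; positivity
  set T₀ : (Fin N → K) → (Fin s → Fin d → K) → ℝ :=
    fun a z => ‖TT (ψ 0) 𝔮 (M 0) (v 0) a (V 0) z‖ ^ 2 with hT₀
  set T₁ : (Fin N → K) → (Fin s → Fin d → K) → ℝ :=
    fun a z => ‖TT (ψ 1) 𝔮 (M 1) (v 1) a (V 1) z‖ ^ 2 with hT₁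
  have hT₀0 : ∀ a z, 0 ≤ T₀ a z := fun a z => by rw [hT₀]; positivity
  have hT₁0 : ∀ a z, 0 ≤ T₁ a z := fun a z => by rw [hT₁]; positivity
  obtain ⟨R₁, hR₁⟩ : ∃ R₁ : ℕ, R₁ = μ + k * D + d := ⟨_, rfl⟩
  have hkD : k * D + D = (k + 1) * D := by ring
  have hsD : s * D = 4 * (k * D) + 4 * D := by rw [hs]; ring
  have hkx : (2 * k + 3) * D = 2 * (k * D) + 3 * D := by ring
  have hkx' : (2 * k + 3) * (d + 𝔮.natDegree) = 2 * (k * D) + 3 * D := hkx
  have hsD' : s * (d + 𝔮.natDegree) = 4 * (k * D) + 4 * D := hsD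
  have hN' : N + 𝔮.natDegree = μ + s * (d + 𝔮.natDegree) := hN
  have hkD0 : (V 0).card * D ≤ k * D := Nat.mul_le_mul_right _ (hV 0)
  have hkD0' : (V 0).card * (d + 𝔮.natDegree) ≤ k * D := hkD0
  have hkD1' : (V 1).card * (d + 𝔮.natDegree) ≤ k * D := Nat.mul_le_mul_right _ (hV 1)
  have hkD1 : (V 1).card * D ≤ k * D := Nat.mul_le_mul_right _ (hV 1)
  -- L1
  have hL1₀ : ∀ (R : ℕ), R ≤ R₁ → ∀ a : Fin N → K, R ≤ rk a → Ex (T₀ a) ≤
      τ ^ 2 * q ^ (μ + 1 + (s - 1) * δ) / q ^ R := by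
    intro R hR a ha
    exact L1N.L1 hC.mq (hC.mM 0) hC.deg0 hC.pos hC.small (hv 0) hN (hψ 0) (2 * k + 3) (by omega)
      (by omega) (by omega) (V 0) (by have := hV 0; omega) a R ha (by omega)
  have hL1₁ : ∀ (R : ℕ), R ≤ R₁ → ∀ a : Fin N → K, R ≤ rk a → Ex (T₁ a) ≤
      τ ^ 2 * q ^ (μ + 1 + (s - 1) * δ) / q ^ R := by
    intro R hR a ha
    exact L1N.L1 hC.mq (hC.mM 1) hC.deg1 hC.pos hC.small (hv 1) hN (hψ 1) (2 * k + 3) (by omega)
      (by omega) (by omega) (V 1) (by have := hV 1; omega) a R ha (by omega)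
  -- L2
  have hpow : ∀ (t w : ℕ), w ≤ k * D → q ^ t * 2 ^ (μ + w / c₀) * τ * q ^ ((s - 1) * δ) ≤
      q ^ t * 2 ^ (μ + k * D / c₀) * τ * q ^ ((s - 1) * δ) := by
    intro t w hw
    have h1 : (2 : ℝ) ^ (μ + w / c₀) ≤ 2 ^ (μ + k * D / c₀) := by
      refine pow_le_pow_right₀ (by norm_num) ?_
      have := Nat.div_le_div_right (c := c₀) hw
      omega
    have h2 : 0 ≤ q ^ t := by positivity
    have h3 : 0 ≤ q ^ ((s - 1) * δ) := by positivity
    exact mul_le_mul_of_nonneg_right (mul_le_mul_of_nonneg_right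
      (mul_le_mul_of_nonneg_left h1 h2) hτ0.le) h3
  have hL2₀ : ∀ (R : ℕ), R ≤ R₁ → ∀ z, ∑ a ∈ Finset.univ.filter (fun a : Fin N → K => rk a ≤ R ∧
        (gd (Qm a) (M 0 * ∏ i ∈ V 0, zz 𝔮 (v 0) z i)).natDegree ≤ R / 2), T₀ a z ≤
      q ^ (R / 2) * 2 ^ (μ + k * D / c₀) * τ * q ^ ((s - 1) * δ) := by
    intro R hR z
    exact (L2N.L2 hC.mq (hC.mM 0) hC.deg0 hC.pos hC.small (hv 0) hN (hψ 0) (V 0)
      (by have := hV 0; omega) R (R / 2) (by omega) (by omega) z).trans (hpow _ _ hkD0)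
  have hL2₁ : ∀ (R : ℕ), R ≤ R₁ → ∀ z, ∑ a ∈ Finset.univ.filter (fun a : Fin N → K => rk a ≤ R ∧
        (gd (Qm a) (M 1 * ∏ i ∈ V 1, zz 𝔮 (v 1) z i)).natDegree ≤ R / 2), T₁ a z ≤
      q ^ (R / 2) * 2 ^ (μ + k * D / c₀) * τ * q ^ ((s - 1) * δ) := by
    intro R hR z
    exact (L2N.L2 hC.mq (hC.mM 1) hC.deg1 hC.pos hC.small (hv 1) hN (hψ 1) (V 1)
      (by have := hV 1; omega) R (R / 2) (by omega) (by omega) z).trans (hpow _ _ hkD1)
  -- L3
  have hL3 : ∀ z, ∑ a : Fin N → K, T₁ a z ≤ τ * q ^ (μ + (s - 1) * δ + k * d) := by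
    intro z
    refine (L34.L3 hC.mq (hC.mM 1) hC.deg1 hC.pos hC.small (hv 1) (by omega) hN (hψ 1) (V 1)
      z).trans ?_
    refine mul_le_mul_of_nonneg_left (pow_le_pow_right₀ hq1 ?_) hτ0.le
    have : (V 1).card * d ≤ k * d := Nat.mul_le_mul_right _ (hV 1)
    exact Nat.add_le_add_left this _
  -- pointwise bound
  set g₀ : ℕ → (Fin N → K) → (Fin s → Fin d → K) → ℝ := fun r a z =>
    if (gd (Qm a) (M 0 * ∏ i ∈ V 0, zz 𝔮 (v 0) z i)).natDegree ≤ r / 2 then T₀ a z else 0 with hg₀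
  set g₁ : ℕ → (Fin N → K) → (Fin s → Fin d → K) → ℝ := fun r a z =>
    if (gd (Qm a) (M 1 * ∏ i ∈ V 1, zz 𝔮 (v 1) z i)).natDegree ≤ r / 2 then T₁ a z else 0 with hg₁
  have hg₀0 : ∀ r a z, 0 ≤ g₀ r a z := fun r a z => by
    simp only [hg₀]; split_ifs; exacts [hT₀0 _ _, le_rfl]
  have hg₁0 : ∀ r a z, 0 ≤ g₁ r a z := fun r a z => by
    simp only [hg₁]; split_ifs; exacts [hT₁0 _ _, le_rfl]
  have hpt : ∀ z₀ z₁ : Fin s → Fin d → K,
      (if IsCoprime (M 0 * ∏ i ∈ V 0, zz 𝔮 (v 0) z₀ i) (M 1 * ∏ i ∈ V 1, zz 𝔮 (v 1) z₁ i) then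
        ∑ a ∈ Finset.univ.filter (fun a : Fin N → K => d < rk a), T₀ a z₀ * T₁ a z₁
      else 0) ≤
      ∑ a ∈ Finset.univ.filter (fun a : Fin N → K => R₁ ≤ rk a), T₀ a z₀ * T₁ a z₁ +
      ∑ r ∈ Finset.Icc (d + 1) R₁,
        (∑ a ∈ Finset.univ.filter (fun a : Fin N → K => rk a = r), T₀ a z₀ * g₁ r a z₁ +
        ∑ a ∈ Finset.univ.filter (fun a : Fin N → K => rk a = r), g₀ r a z₀ * T₁ a z₁) := by
    intro z₀ z₁
    have hnn : ∀ r, 0 ≤ ∑ a ∈ Finset.univ.filter (fun a : Fin N → K => rk a = r),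
        T₀ a z₀ * g₁ r a z₁ + ∑ a ∈ Finset.univ.filter (fun a : Fin N → K => rk a = r),
        g₀ r a z₀ * T₁ a z₁ := fun r => add_nonneg
      (Finset.sum_nonneg fun a _ => mul_nonneg (hT₀0 _ _) (hg₁0 _ _ _))
      (Finset.sum_nonneg fun a _ => mul_nonneg (hg₀0 _ _ _) (hT₁0 _ _))
    split_ifs with hcop
    · have hα : M 0 * ∏ i ∈ V 0, zz 𝔮 (v 0) z₀ i ≠ 0 :=
        mul_ne_zero (hC.mM 0).ne_zero (prod_zz_monic hC.mq (hv 0) _ _).ne_zero
      have hβ : M 1 * ∏ i ∈ V 1, zz 𝔮 (v 1) z₁ i ≠ 0 :=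
        mul_ne_zero (hC.mM 1).ne_zero (prod_zz_monic hC.mq (hv 1) _ _).ne_zero
      calc ∑ a ∈ Finset.univ.filter (fun a : Fin N → K => d < rk a), T₀ a z₀ * T₁ a z₁
          ≤ ∑ a ∈ (Finset.univ.filter (fun a : Fin N → K => R₁ ≤ rk a)) ∪
              (Finset.Icc (d + 1) R₁).biUnion
              (fun r => Finset.univ.filter (fun a : Fin N → K => rk a = r)), T₀ a z₀ * T₁ a z₁ := by
            refine Finset.sum_le_sum_of_subset_of_nonneg ?_ fun a _ _ =>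
              mul_nonneg (hT₀0 _ _) (hT₁0 _ _)
            intro a ha
            rw [Finset.mem_filter] at ha
            rw [Finset.mem_union, Finset.mem_filter, Finset.mem_biUnion]
            by_cases h : R₁ ≤ rk a
            · exact Or.inl ⟨Finset.mem_univ _, h⟩
            · refine Or.inr ⟨rk a, Finset.mem_Icc.2 ⟨ha.2, (not_le.1 h).le⟩, ?_⟩
              rw [Finset.mem_filter]
              exact ⟨Finset.mem_univ _, rfl⟩
        _ ≤ ∑ a ∈ (Finset.univ.filter (fun a : Fin N → K => R₁ ≤ rk a)), T₀ a z₀ * T₁ a z₁ +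
            ∑ a ∈ (Finset.Icc (d + 1) R₁).biUnion
              (fun r => Finset.univ.filter (fun a : Fin N → K => rk a = r)), T₀ a z₀ * T₁ a z₁ := by
            have h1 : 0 ≤ ∑ a ∈ (Finset.univ.filter (fun a : Fin N → K => R₁ ≤ rk a)) ∩
                (Finset.Icc (d + 1) R₁).biUnion
                (fun r => Finset.univ.filter (fun a : Fin N → K => rk a = r)),
                T₀ a z₀ * T₁ a z₁ :=
              Finset.sum_nonneg fun a _ => mul_nonneg (hT₀0 _ _) (hT₁0 _ _)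
            have h2 := Finset.sum_union_inter (f := fun a => T₀ a z₀ * T₁ a z₁)
              (s₁ := Finset.univ.filter (fun a : Fin N → K => R₁ ≤ rk a))
              (s₂ := (Finset.Icc (d + 1) R₁).biUnion
                (fun r => Finset.univ.filter (fun a : Fin N → K => rk a = r)))
            linarith
        _ ≤ _ := by
            refine add_le_add le_rfl ?_
            rw [Finset.sum_biUnion]
            · refine Finset.sum_le_sum fun r hr => ?_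
              rw [← Finset.sum_add_distrib]
              refine Finset.sum_le_sum fun a ha => ?_
              have hr' : rk a = r := (Finset.mem_filter.1 ha).2
              have h1 := gd_half (Qm_monic a) hα hβ hcop
              have h2 := Qm_deg a
              have h3 : 0 ≤ T₀ a z₀ * g₁ r a z₁ := mul_nonneg (hT₀0 _ _) (hg₁0 _ _ _)
              have h4 : 0 ≤ g₀ r a z₀ * T₁ a z₁ := mul_nonneg (hg₀0 _ _ _) (hT₁0 _ _)
              by_cases h5 : (gd (Qm a) (M 0 * ∏ i ∈ V 0, zz 𝔮 (v 0) z₀ i)).natDegree ≤ r / 2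
              · have h6 : g₀ r a z₀ = T₀ a z₀ := if_pos h5
                rw [h6] at h4 ⊢
                linarith
              · have h6 : g₁ r a z₁ = T₁ a z₁ := if_pos (by omega)
                rw [h6] at h3 ⊢
                linarith
            · intro r _ r' _ hrr
              rw [Function.onFun, Finset.disjoint_filter]
              intro a _ h1 h2
              exact hrr (h1.symm.trans h2)
    · exact add_nonneg (Finset.sum_nonneg fun a _ => mul_nonneg (hT₀0 _ _) (hT₁0 _ _))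
        (Finset.sum_nonneg fun r _ => hnn r)
  -- averaging
  have hA : Ex (fun z₀ : Fin s → Fin d → K => Ex (fun z₁ : Fin s → Fin d → K =>
      ∑ a ∈ Finset.univ.filter (fun a : Fin N → K => R₁ ≤ rk a), T₀ a z₀ * T₁ a z₁)) ≤
      (τ ^ 2 * q ^ (μ + 1 + (s - 1) * δ) / q ^ R₁) * (τ * q ^ (μ + (s - 1) * δ + k * d)) := by
    refine Ex_split _ T₀ T₁ _ _ hT₁0 ?_ (by positivity) ?_
    · intro a ha
      exact hL1₀ R₁ le_rfl a (Finset.mem_filter.1 ha).2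
    · intro z
      refine le_trans ?_ (hL3 z)
      exact Finset.sum_le_sum_of_subset_of_nonneg (Finset.filter_subset _ _)
        fun a _ _ => hT₁0 _ _
  have hB : ∀ r ∈ Finset.Icc (d + 1) R₁, Ex (fun z₀ : Fin s → Fin d → K =>
      Ex (fun z₁ : Fin s → Fin d → K =>
      ∑ a ∈ Finset.univ.filter (fun a : Fin N → K => rk a = r), T₀ a z₀ * g₁ r a z₁)) ≤
      (τ ^ 2 * q ^ (μ + 1 + (s - 1) * δ) / q ^ r) *
        (q ^ (r / 2) * 2 ^ (μ + k * D / c₀) * τ * q ^ ((s - 1) * δ)) := by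
    intro r hr
    have hr1 := (Finset.mem_Icc.1 hr).2
    refine Ex_split _ T₀ (g₁ r) _ _ (hg₁0 r) ?_ (by positivity) ?_
    · intro a ha
      exact hL1₀ r hr1 a (Finset.mem_filter.1 ha).2.ge
    · intro z
      refine le_trans ?_ (hL2₁ r hr1 z)
      simp only [hg₁]
      rw [← Finset.sum_filter, Finset.filter_filter]
      refine Finset.sum_le_sum_of_subset_of_nonneg ?_ fun a _ _ => hT₁0 _ _
      intro a ha
      rw [Finset.mem_filter] at ha ⊢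
      exact ⟨Finset.mem_univ _, ha.2.1.le, ha.2.2⟩
  have hB' : ∀ r ∈ Finset.Icc (d + 1) R₁, Ex (fun z₀ : Fin s → Fin d → K =>
      Ex (fun z₁ : Fin s → Fin d → K =>
      ∑ a ∈ Finset.univ.filter (fun a : Fin N → K => rk a = r), g₀ r a z₀ * T₁ a z₁)) ≤
      (τ ^ 2 * q ^ (μ + 1 + (s - 1) * δ) / q ^ r) *
        (q ^ (r / 2) * 2 ^ (μ + k * D / c₀) * τ * q ^ ((s - 1) * δ)) := by
    intro r hr
    have hr1 := (Finset.mem_Icc.1 hr).2
    refine Ex_split' _ (g₀ r) T₁ _ _ (hg₀0 r) ?_ (by positivity) ?_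
    · intro a ha
      exact hL1₁ r hr1 a (Finset.mem_filter.1 ha).2.ge
    · intro z
      refine le_trans ?_ (hL2₀ r hr1 z)
      simp only [hg₀]
      rw [← Finset.sum_filter, Finset.filter_filter]
      refine Finset.sum_le_sum_of_subset_of_nonneg ?_ fun a _ _ => hT₀0 _ _
      intro a ha
      rw [Finset.mem_filter] at ha ⊢
      exact ⟨Finset.mem_univ _, ha.2.1.le, ha.2.2⟩
  -- combine
  have hcomb : Ex (fun z₀ : Fin s → Fin d → K => Ex (fun z₁ : Fin s → Fin d → K =>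
      if IsCoprime (M 0 * ∏ i ∈ V 0, zz 𝔮 (v 0) z₀ i) (M 1 * ∏ i ∈ V 1, zz 𝔮 (v 1) z₁ i) then
        ∑ a ∈ Finset.univ.filter (fun a : Fin N → K => d < rk a), T₀ a z₀ * T₁ a z₁
      else 0)) ≤
      (τ ^ 2 * q ^ (μ + 1 + (s - 1) * δ) / q ^ R₁) * (τ * q ^ (μ + (s - 1) * δ + k * d)) +
      ∑ r ∈ Finset.Icc (d + 1) R₁, 2 * ((τ ^ 2 * q ^ (μ + 1 + (s - 1) * δ) / q ^ r) *
        (q ^ (r / 2) * 2 ^ (μ + k * D / c₀) * τ * q ^ ((s - 1) * δ))) := by
    refine (Ex_mono fun z₀ => Ex_mono fun z₁ => hpt z₀ z₁).trans ?_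
    simp only [Ex_add, Ex_sum]
    refine add_le_add ?_ (Finset.sum_le_sum fun r hr => ?_)
    · have := hA
      simp only [Ex_sum] at this
      exact this
    · have h1 := hB r hr
      have h2 := hB' r hr
      simp only [Ex_sum] at h1 h2
      linarith
  refine hcomb.trans ?_
  -- numerics
  obtain ⟨E, hE⟩ : ∃ E : ℕ, E = (s - 1) * δ := ⟨_, rfl⟩
  rw [← hE]
  have e1 : (τ ^ 2 * q ^ (μ + 1 + E) / q ^ R₁) * (τ * q ^ (μ + E + k * d)) ≤
      τ ^ 3 * q ^ (2 * μ + 1 + 2 * E) * 2 ^ (k * D / c₀) * (1 / 2 ^ d) := by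
    have h1 : (τ ^ 2 * q ^ (μ + 1 + E) / q ^ R₁) * (τ * q ^ (μ + E + k * d)) =
      τ ^ 3 * q ^ (2 * μ + 1 + 2 * E) * (q ^ (k * d) / q ^ R₁) := by
      have : (2 * μ + 1 + 2 * E) = (μ + 1 + E) + (μ + E) := by ring
      rw [this, pow_add q (μ + 1 + E) (μ + E), pow_add q (μ + E) (k * d)]
      ring
    rw [h1, mul_assoc (τ ^ 3 * q ^ (2 * μ + 1 + 2 * E))]
    refine mul_le_mul_of_nonneg_left ?_ (by positivity)
    have h2 : q ^ (k * d) / q ^ R₁ ≤ 1 / 2 ^ d := by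
      rw [div_le_div_iff₀ (by positivity) (by positivity), one_mul]
      calc q ^ (k * d) * 2 ^ d ≤ q ^ (k * d) * q ^ d :=
            mul_le_mul_of_nonneg_left (pow_le_pow_left₀ (by norm_num) hq2 _) (by positivity)
        _ = q ^ (k * d + d) := (pow_add _ _ _).symm
        _ ≤ q ^ R₁ := by
            refine pow_le_pow_right₀ hq1 ?_
            have : k * d ≤ k * D := Nat.mul_le_mul_left _ (by omega)
            omega
    have h3 : (1 : ℝ) ≤ 2 ^ (k * D / c₀) := one_le_pow₀ (by norm_num)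
    have h4 : (0 : ℝ) ≤ 1 / 2 ^ d := by positivity
    nlinarith
  have e2 : ∑ r ∈ Finset.Icc (d + 1) R₁, 2 * ((τ ^ 2 * q ^ (μ + 1 + E) / q ^ r) *
        (q ^ (r / 2) * 2 ^ (μ + k * D / c₀) * τ * q ^ E)) ≤
      τ ^ 3 * q ^ (2 * μ + 1 + 2 * E) * 2 ^ (k * D / c₀) * (8 * 2 ^ μ / 2 ^ ((d + 1) / 2)) := by
    have h1 : ∀ r ∈ Finset.Icc (d + 1) R₁, 2 * ((τ ^ 2 * q ^ (μ + 1 + E) / q ^ r) *
        (q ^ (r / 2) * 2 ^ (μ + k * D / c₀) * τ * q ^ E)) ≤
        (2 * τ ^ 3 * q ^ (2 * μ + 1 + 2 * E) * 2 ^ (k * D / c₀) * 2 ^ μ) *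
          ((2 : ℝ) ^ (r / 2) / 2 ^ r) := by
      intro r _
      have h2 : 2 * ((τ ^ 2 * q ^ (μ + 1 + E) / q ^ r) *
        (q ^ (r / 2) * 2 ^ (μ + k * D / c₀) * τ * q ^ E)) =
        (2 * τ ^ 3 * q ^ (μ + 1 + 2 * E) * 2 ^ (k * D / c₀) * 2 ^ μ) * (q ^ (r / 2) / q ^ r) := by
        have : (μ + 1 + 2 * E) = (μ + 1 + E) + E := by ring
        rw [this, pow_add q (μ + 1 + E) E, pow_add (2 : ℝ) μ]
        ring
      rw [h2]
      have h3 : q ^ (r / 2) / q ^ r ≤ (2 : ℝ) ^ (r / 2) / 2 ^ r := by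
        rw [div_le_div_iff₀ (by positivity) (by positivity)]
        have h4 : r = r / 2 + (r - r / 2) := by omega
        have h5 : q ^ r = q ^ (r / 2) * q ^ (r - r / 2) := by rw [← pow_add, ← h4]
        have h6 : (2 : ℝ) ^ r = 2 ^ (r / 2) * 2 ^ (r - r / 2) := by rw [← pow_add, ← h4]
        rw [h5, h6]
        have h7 : (2 : ℝ) ^ (r - r / 2) ≤ q ^ (r - r / 2) := pow_le_pow_left₀ (by norm_num) hq2 _
        have h8 : 0 ≤ q ^ (r / 2) * (2 : ℝ) ^ (r / 2) := by positivity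
        nlinarith
      have h4 : q ^ (μ + 1 + 2 * E) ≤ q ^ (2 * μ + 1 + 2 * E) :=
        pow_le_pow_right₀ hq1 (by omega)
      have h5 : (2 * τ ^ 3 * q ^ (μ + 1 + 2 * E) * 2 ^ (k * D / c₀) * 2 ^ μ) ≤
          (2 * τ ^ 3 * q ^ (2 * μ + 1 + 2 * E) * 2 ^ (k * D / c₀) * 2 ^ μ) :=
        mul_le_mul_of_nonneg_right (mul_le_mul_of_nonneg_right
          (mul_le_mul_of_nonneg_left h4 (by positivity)) (by positivity)) (by positivity)
      exact mul_le_mul h5 h3 (by positivity) (by positivity)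
    refine (Finset.sum_le_sum h1).trans ?_
    rw [← Finset.mul_sum]
    have h2 := MajN.num_sum (d + 1) R₁
    refine (mul_le_mul_of_nonneg_left h2 (by positivity)).trans (le_of_eq ?_)
    ring
  calc _ ≤ τ ^ 3 * q ^ (2 * μ + 1 + 2 * E) * 2 ^ (k * D / c₀) * (1 / 2 ^ d) +
        τ ^ 3 * q ^ (2 * μ + 1 + 2 * E) * 2 ^ (k * D / c₀) * (8 * 2 ^ μ / 2 ^ ((d + 1) / 2)) :=
        add_le_add e1 e2
    _ = _ := by ring

end minor

end Pool.Agent.H366.GF
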