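import Mathlib

/-! # Ranks of linear functionals on polynomials of bounded degree -/

set_option autoImplicit false

namespace Pool.Agent.H366.GF

open Polynomial

variable {K : Type} [Field K]

/-- the functional `g ↦ ∑ a_i g_i`. -/
noncomputable def Lf {N : ℕ} (a : Fin N → K) : K[X] →ₗ[K] K := ∑ i : Fin N, a i • lcoeff K i

lemma Lf_apply {N : ℕ} (a : Fin N → K) (g : K[X]) : Lf a g = ∑ i : Fin N, a i * g.coeff i := by
  simp [Lf]

lemma Lf_sub_left {N : ℕ} (a b : Fin N → K) (g : K[X]) : Lf (a - b) g = Lf a g - Lf b g := by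
  simp [Lf_apply, sub_mul, Finset.sum_sub_distrib]

lemma Lf_zero_left {N : ℕ} (g : K[X]) : Lf (0 : Fin N → K) g = 0 := by
  simp [Lf_apply]

lemma Lf_X_pow {N : ℕ} (a : Fin N → K) (i : Fin N) : Lf a (X ^ (i : ℕ)) = a i := by
  rw [Lf_apply]
  simp only [coeff_X_pow]
  rw [Finset.sum_eq_single i]
  · simp
  · intro j _ hj
    have : (j : ℕ) ≠ i := fun h => hj (Fin.ext h)
    simp [this]
  · simp

lemma Lf_eq_zero {N : ℕ} (a : Fin N → K) (h : ∀ g : K[X], g.natDegree < N → Lf a g = 0) :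
    a = 0 := by
  funext i
  have := h (X ^ (i : ℕ)) (by rw [natDegree_X_pow]; exact i.2)
  rwa [Lf_X_pow] at this

/-- `Q` kills the multiples `Q h` with `deg h < m`. -/
def Kl {N : ℕ} (a : Fin N → K) (Q : K[X]) (m : ℕ) : Prop :=
  ∀ h : K[X], h.natDegree < m → Lf a (Q * h) = 0

lemma Kl.mono {N : ℕ} {a : Fin N → K} {Q : K[X]} {m m' : ℕ} (h : Kl a Q m) (hm : m' ≤ m) :
    Kl a Q m' := fun g hg => h g (lt_of_lt_of_le hg hm)

lemma exists_rk {N : ℕ} (a : Fin N → K) :
    ∃ r : ℕ, ∃ Q : K[X], Q.Monic ∧ Q.natDegree ≤ r ∧ Kl a Q (N - r) :=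
  ⟨N, 1, monic_one, by simp, fun h hh => by simp at hh⟩

open Classical in
/-- the rank. -/
noncomputable def rk {N : ℕ} (a : Fin N → K) : ℕ := Nat.find (exists_rk a)

open Classical in
lemma rk_spec {N : ℕ} (a : Fin N → K) :
    ∃ Q : K[X], Q.Monic ∧ Q.natDegree ≤ rk a ∧ Kl a Q (N - rk a) :=
  Nat.find_spec (exists_rk a)

/-- the minimal annihilator. -/
noncomputable def Qm {N : ℕ} (a : Fin N → K) : K[X] := (rk_spec a).choose

lemma Qm_monic {N : ℕ} (a : Fin N → K) : (Qm a).Monic := (rk_spec a).choose_spec.1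
lemma Qm_deg {N : ℕ} (a : Fin N → K) : (Qm a).natDegree ≤ rk a := (rk_spec a).choose_spec.2.1
lemma Qm_kl {N : ℕ} (a : Fin N → K) : Kl a (Qm a) (N - rk a) := (rk_spec a).choose_spec.2.2

lemma Kl_normalize {N : ℕ} {a : Fin N → K} {Q : K[X]} {m : ℕ} (h : Kl a Q m) (c : K) :
    Kl a (Q * C c) m := by
  intro g hg
  rw [mul_right_comm, mul_comm, ← smul_eq_C_mul, map_smul, h g hg, smul_zero]

open Classical in
lemma rk_le_of {N : ℕ} {a : Fin N → K} {Q : K[X]} {r : ℕ} (hQ : Q ≠ 0) (hd : Q.natDegree ≤ r)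
    (h : Kl a Q (N - r)) : rk a ≤ r := by
  refine Nat.find_min' _ ⟨Q * C Q.leadingCoeff⁻¹, monic_mul_leadingCoeff_inv hQ, ?_,
    Kl_normalize h _⟩
  rw [natDegree_mul_C (inv_ne_zero (leadingCoeff_ne_zero.2 hQ))]
  exact hd

lemma rk_le_N {N : ℕ} (a : Fin N → K) : rk a ≤ N :=
  rk_le_of (Q := 1) one_ne_zero (by simp) (fun h hh => by simp at hh)

/-- polynomial with given coefficients. -/
noncomputable def pol {m : ℕ} : (Fin m → K) →ₗ[K] K[X] :=
  ∑ i : Fin m, (monomial (i : ℕ)).comp (LinearMap.proj i)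

lemma pol_apply {m : ℕ} (c : Fin m → K) : pol c = ∑ i : Fin m, monomial (i : ℕ) (c i) := by
  simp [pol]

lemma pol_coeff {m : ℕ} (c : Fin m → K) (i : Fin m) : (pol c).coeff i = c i := by
  rw [pol_apply, finsetSum_coeff]
  simp only [coeff_monomial]
  rw [Finset.sum_eq_single i]
  · simp
  · intro j _ hj
    have : (j : ℕ) ≠ i := fun h => hj (Fin.ext h)
    simp [this]
  · simp

lemma pol_coeff_ge {m : ℕ} (c : Fin m → K) (i : ℕ) (hi : m ≤ i) : (pol c).coeff i = 0 := by
  rw [pol_apply, finsetSum_coeff]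
  refine Finset.sum_eq_zero fun j _ => ?_
  rw [coeff_monomial, if_neg]
  have := j.2
  omega

lemma pol_injective {m : ℕ} : Function.Injective (pol (K := K) (m := m)) := by
  intro c c' h
  funext i
  rw [← pol_coeff c i, ← pol_coeff c' i, h]

lemma pol_degree_lt {m : ℕ} (c : Fin m → K) : (pol c).degree < m := by
  rw [degree_lt_iff_coeff_zero]
  exact fun i hi => pol_coeff_ge c i hi

lemma pol_natDegree_lt {m : ℕ} (hm : 0 < m) (c : Fin m → K) : (pol c).natDegree < m := by
  by_cases h : pol c = 0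
  · rw [h]; simpa using hm
  · exact (natDegree_lt_iff_degree_lt h).2 (pol_degree_lt c)

lemma exists_pol {m : ℕ} (g : K[X]) (hg : g.degree < m) : ∃ c : Fin m → K, pol c = g := by
  refine ⟨fun i => g.coeff i, ?_⟩
  ext i
  by_cases hi : i < m
  · exact pol_coeff (fun i : Fin m => g.coeff i) ⟨i, hi⟩
  · rw [pol_coeff_ge _ _ (by omega)]
    exact ((degree_lt_iff_coeff_zero _ _).1 hg i (by omega)).symm

lemma exists_pol' {m : ℕ} (g : K[X]) (hg : g.natDegree < m) : ∃ c : Fin m → K, pol c = g := by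
  refine exists_pol g ?_
  by_cases h : g = 0
  · rw [h, degree_zero]; exact WithBot.bot_lt_coe m
  · exact (natDegree_lt_iff_degree_lt h).1 hg

lemma rk_le_half {N : ℕ} (a : Fin N → K) (r : ℕ) (hr : N ≤ 2 * r) : rk a ≤ r := by
  set f : (Fin (r + 1) → K) →ₗ[K] (Fin (N - r) → K) :=
    LinearMap.pi (fun j => (Lf a).comp ((LinearMap.mulRight K (X ^ (j : ℕ) : K[X])).comp pol))
    with hf
  have hker : LinearMap.ker f ≠ ⊥ := by
    apply LinearMap.ker_ne_bot_of_finrank_lt
    rw [Module.finrank_fin_fun, Module.finrank_fin_fun]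
    omega
  obtain ⟨c, hc, hc0⟩ := Submodule.exists_mem_ne_zero_of_ne_bot hker
  have hQ : pol c ≠ 0 := fun h => hc0 (pol_injective (by rw [h, map_zero]))
  refine rk_le_of (Q := pol c) hQ (by have := pol_natDegree_lt (Nat.succ_pos r) c; omega) ?_
  intro h hh
  obtain ⟨e, rfl⟩ := exists_pol' h hh
  rw [pol_apply e, Finset.mul_sum, map_sum]
  refine Finset.sum_eq_zero fun j _ => ?_
  have h1 := congr_fun (LinearMap.mem_ker.1 hc) j
  simp only [hf, LinearMap.pi_apply, LinearMap.comp_apply, LinearMap.mulRight_apply,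
    Pi.zero_apply] at h1
  rw [← C_mul_X_pow_eq_monomial, mul_left_comm, ← smul_eq_C_mul, map_smul, h1, smul_zero]

/-- Bezout with degrees. -/
lemma bez {d' Q' g' u : K[X]} (hcop : IsCoprime Q' g') (hQ' : Q' ≠ 0) {k : ℕ}
    (hu : u.natDegree < k + Q'.natDegree) (hg : g'.natDegree ≤ k)
    (hQd : 0 < Q'.natDegree) :
    ∃ α β : K[X], d' * u = (d' * g') * α + (d' * Q') * β ∧ α.natDegree < Q'.natDegree ∧
      (k = 0 → β = 0) ∧ (0 < k → β.natDegree < k) := by
  obtain ⟨x, y, hxy⟩ := hcop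
  set α := (u * y) % Q' with hα
  have h1 : Q' ∣ u - g' * α := by
    have h2 : u - g' * α = Q' * (u * x + g' * ((u * y) / Q')) := by
      have h3 : (u * y) % Q' = u * y - Q' * ((u * y) / Q') := by
        rw [eq_sub_iff_add_eq, add_comm]
        exact EuclideanDomain.div_add_mod _ _
      rw [hα, h3]
      have h4 : u = u * (x * Q' + y * g') := by rw [hxy, mul_one]
      linear_combination h4
    exact ⟨_, h2⟩
  obtain ⟨β, hβ⟩ := h1
  have hαd : α.natDegree < Q'.natDegree := by
    by_cases h0 : α = 0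
    · rw [h0]; simpa using hQd
    · exact natDegree_lt_natDegree h0 (by rw [hα]; exact EuclideanDomain.mod_lt _ hQ')
  have hdeg : (u - g' * α).natDegree < k + Q'.natDegree := by
    refine lt_of_le_of_lt (natDegree_sub_le _ _) (max_lt hu ?_)
    refine lt_of_le_of_lt natDegree_mul_le ?_
    omega
  refine ⟨α, β, ?_, hαd, ?_, ?_⟩
  · have : u = g' * α + Q' * β := by rw [← hβ]; ring
    rw [this]; ring
  · intro hk
    by_contra hβ0
    rw [hβ, natDegree_mul hQ' hβ0] at hdeg
    omega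
  · intro hk
    by_cases hβ0 : β = 0
    · rw [hβ0]; simpa using hk
    · rw [hβ, natDegree_mul hQ' hβ0] at hdeg
      omega

/-- the key lemma: everything which kills a large space is divisible by the minimal annihilator. -/
lemma Qm_dvd {N : ℕ} (a : Fin N → K) {g : K[X]} {m : ℕ} (hm : rk a ≤ m) (hmN : m ≤ N)
    (hg : g.natDegree ≤ N - m) (h : Kl a g m) : Qm a ∣ g := by
  classical
  by_cases hg0 : g = 0
  · rw [hg0]; exact dvd_zero _
  set Q := Qm a with hQ
  have hQ0 : Q ≠ 0 := (Qm_monic a).ne_zero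
  set e := EuclideanDomain.gcd Q g with he
  obtain ⟨Q', hQ'⟩ : e ∣ Q := EuclideanDomain.gcd_dvd_left Q g
  obtain ⟨g', hg'⟩ : e ∣ g := EuclideanDomain.gcd_dvd_right Q g
  have he0 : e ≠ 0 := by
    intro h0; rw [h0, zero_mul] at hQ'; exact hQ0 hQ'
  have hQ'0 : Q' ≠ 0 := by
    intro h0; rw [h0, mul_zero] at hQ'; exact hQ0 hQ'
  have hg'0 : g' ≠ 0 := by
    intro h0; rw [h0, mul_zero] at hg'; exact hg0 hg'
  have hcop : IsCoprime Q' g' := by
    have h1 := EuclideanDomain.gcd_eq_gcd_ab Q g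
    refine ⟨EuclideanDomain.gcdA Q g, EuclideanDomain.gcdB Q g, ?_⟩
    apply mul_left_cancel₀ he0
    rw [mul_one]
    calc e * (EuclideanDomain.gcdA Q g * Q' + EuclideanDomain.gcdB Q g * g')
        = (e * Q') * EuclideanDomain.gcdA Q g + (e * g') * EuclideanDomain.gcdB Q g := by ring
      _ = Q * EuclideanDomain.gcdA Q g + g * EuclideanDomain.gcdB Q g := by rw [← hQ', ← hg']
      _ = e := h1.symm
  by_cases hd : Q'.natDegree = 0
  · -- then Q' is a unit
    have hu : IsUnit Q' := by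
      rw [natDegree_eq_zero] at hd
      obtain ⟨c, hc⟩ := hd
      rw [← hc]
      refine isUnit_C.2 (isUnit_iff_ne_zero.2 ?_)
      rintro rfl
      exact hQ'0 (by rw [← hc, C_0])
    rw [hQ', hg']
    exact mul_dvd_mul_left e hu.dvd
  · exfalso
    have hdp : 0 < Q'.natDegree := Nat.pos_of_ne_zero hd
    have hQd : Q.natDegree = e.natDegree + Q'.natDegree := by
      rw [hQ', natDegree_mul he0 hQ'0]
    have hgd : g.natDegree = e.natDegree + g'.natDegree := by
      rw [hg', natDegree_mul he0 hg'0]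
    have hQr : Q.natDegree ≤ rk a := Qm_deg a
    have hrN := rk_le_N a
    have h2 : rk a ≤ rk a - Q'.natDegree := by
      refine rk_le_of he0 (by omega) ?_
      intro u hu
      obtain ⟨α, β, h3, h4, h5, h6⟩ := bez (d' := e) (k := N - rk a) hcop hQ'0 (u := u)
        (by omega) (by omega) hdp
      rw [h3, ← hQ', ← hg', map_add, h α (by omega), zero_add]
      by_cases hk : N - rk a = 0
      · rw [h5 hk, mul_zero, map_zero]
      · exact Qm_kl a β (h6 (Nat.pos_of_ne_zero hk))
    omega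

/-- `Q X^(N - r)` is not killed if `deg Q < r`. -/
lemma Qm_top {N : ℕ} (a : Fin N → K) (hd : (Qm a).natDegree < rk a) :
    Lf a (Qm a * X ^ (N - rk a)) ≠ 0 := by
  intro h0
  have hrN := rk_le_N a
  have h2 : rk a ≤ rk a - 1 := by
    refine rk_le_of (Qm_monic a).ne_zero (by omega) ?_
    intro h hh
    have hh' : h.natDegree ≤ N - rk a := by omega
    have h3 : h = C (h.coeff (N - rk a)) * X ^ (N - rk a) +
        (h - C (h.coeff (N - rk a)) * X ^ (N - rk a)) := by ring
    rw [h3, mul_add, map_add, mul_left_comm, ← smul_eq_C_mul, map_smul, h0, smul_zero, zero_add]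
    set h1 := h - C (h.coeff (N - rk a)) * X ^ (N - rk a) with hh1
    by_cases hz : h1 = 0
    · rw [hz, mul_zero, map_zero]
    · refine Qm_kl a _ ?_
      have h5 : h1.degree < (N - rk a : ℕ) := by
        rw [degree_lt_iff_coeff_zero]
        intro i hi
        rw [hh1, coeff_sub, coeff_C_mul, coeff_X_pow]
        by_cases hi' : i = N - rk a
        · rw [hi']; simp
        · rw [if_neg hi', mul_zero, sub_zero]
          exact coeff_eq_zero_of_natDegree_lt (by omega)
      exact (natDegree_lt_iff_degree_lt hz).2 h5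
  omega

/-- the quotient by the minimal annihilator has small degree. -/
lemma Qm_quot {N : ℕ} (a : Fin N → K) {g : K[X]} {m : ℕ} (hm : rk a ≤ m) (hmN : m ≤ N)
    (hg : g.natDegree ≤ N - m) (h : Kl a g m) (hg0 : g ≠ 0) :
    ∃ u : K[X], g = Qm a * u ∧ u ≠ 0 ∧ u.natDegree + m + rk a ≤ N := by
  obtain ⟨u, hu⟩ := Qm_dvd a hm hmN hg h
  have hu0 : u ≠ 0 := by
    rintro rfl; rw [mul_zero] at hu; exact hg0 hu
  refine ⟨u, hu, hu0, ?_⟩
  have hQ0 : Qm a ≠ 0 := (Qm_monic a).ne_zero
  have hd : g.natDegree = (Qm a).natDegree + u.natDegree := by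
    rw [hu, natDegree_mul hQ0 hu0]
  by_contra hcon
  by_cases hlt : (Qm a).natDegree < rk a
  · refine Qm_top a hlt ?_
    set j := N - rk a - u.natDegree with hj
    have hjm : j < m := by omega
    have h1 : Lf a (g * X ^ j) = 0 := h _ (by rw [natDegree_X_pow]; exact hjm)
    have h2 : g * X ^ j = Qm a * (u * X ^ j) := by rw [hu]; ring
    rw [h2] at h1
    have h3 : u * X ^ j = C u.leadingCoeff * X ^ (N - rk a) +
        (u * X ^ j - C u.leadingCoeff * X ^ (N - rk a)) := by ring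
    have h4 : Lf a (Qm a * (u * X ^ j - C u.leadingCoeff * X ^ (N - rk a))) = 0 := by
      set h1' := u * X ^ j - C u.leadingCoeff * X ^ (N - rk a) with hh1
      by_cases hz : h1' = 0
      · rw [hz, mul_zero, map_zero]
      · refine Qm_kl a _ ?_
        have h5 : h1'.degree < (N - rk a : ℕ) := by
          rw [degree_lt_iff_coeff_zero]
          intro i hi
          rw [hh1, coeff_sub, coeff_C_mul, coeff_X_pow]
          have hNj : N - rk a = u.natDegree + j := by omega
          by_cases hi' : i = N - rk a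
          · rw [hi', if_pos rfl, mul_one, hNj, coeff_mul_X_pow, sub_eq_zero]
            rfl
          · rw [if_neg hi', mul_zero, sub_zero]
            apply coeff_eq_zero_of_natDegree_lt
            rw [natDegree_mul hu0 (pow_ne_zero _ X_ne_zero), natDegree_X_pow]
            omega
        exact (natDegree_lt_iff_degree_lt hz).2 h5
    rw [h3, mul_add, map_add, h4, add_zero, mul_left_comm, ← smul_eq_C_mul, map_smul] at h1
    exact (smul_eq_zero.1 h1).resolve_left (leadingCoeff_ne_zero.2 hu0)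
  · have := Qm_deg a
    omega

end Pool.Agent.H366.GF
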