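import Pool.Agent.H366.GF.Rk

/-! # Counting functionals -/

set_option autoImplicit false

namespace Pool.Agent.H366.GF

open Polynomial

variable {K : Type} [Field K]

lemma Kl_sub {N : ℕ} {a b : Fin N → K} {g : K[X]} {m : ℕ} (ha : Kl a g m) (hb : Kl b g m) :
    Kl (a - b) g m := by
  intro h hh
  rw [Lf_sub_left, ha h hh, hb h hh, sub_zero]

lemma Lf_low {N : ℕ} (c : Fin N → K) (h : K[X]) (e : ℕ) (hc : ∀ i : Fin N, (i : ℕ) < e → c i = 0)
    (hh : h.degree < e) : Lf c h = 0 := by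
  rw [Lf_apply]
  refine Finset.sum_eq_zero fun i _ => ?_
  by_cases hi : (i : ℕ) < e
  · rw [hc i hi, zero_mul]
  · rw [(degree_lt_iff_coeff_zero _ _).1 hh i (by omega), mul_zero]

lemma Kl_eq_zero {N : ℕ} {c : Fin N → K} {g : K[X]} (hg : g.Monic) (h : Kl c g (N - g.natDegree))
    (hc : ∀ i : Fin N, (i : ℕ) < g.natDegree → c i = 0) : c = 0 := by
  apply Lf_eq_zero
  intro f hf
  rw [← modByMonic_add_div f g, map_add]
  rw [Lf_low c _ g.natDegree hc, zero_add]
  · by_cases h0 : f /ₘ g = 0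
    · rw [h0, mul_zero, map_zero]
    · have h1 := natDegree_divByMonic f hg
      have h2 : g.natDegree ≤ f.natDegree := by
        by_contra hlt
        apply h0
        rw [divByMonic_eq_zero_iff hg]
        exact degree_lt_degree (by omega)
      exact h _ (by omega)
  · have := degree_modByMonic_lt f hg
    rwa [degree_eq_natDegree hg.ne_zero] at this

open Classical in
/-- [C1] -/
lemma card_kl [Fintype K] {N : ℕ} {g : K[X]} (hg : g.Monic) (hN : g.natDegree ≤ N) :
    (Finset.univ.filter fun b : Fin N → K => Kl b g (N - g.natDegree)).card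
      ≤ Fintype.card K ^ g.natDegree := by
  have h1 : Fintype.card K ^ g.natDegree = (Finset.univ : Finset (Fin g.natDegree → K)).card := by
    rw [Finset.card_univ]; simp
  rw [h1]
  refine Finset.card_le_card_of_injOn (fun b i => b (Fin.castLE hN i)) (fun _ _ => Finset.mem_coe.2
    (Finset.mem_univ _)) ?_
  intro b hb b' hb' hbb
  simp only [Finset.coe_filter, Finset.mem_univ, true_and, Set.mem_ofPred_eq] at hb hb'
  have h2 : b - b' = 0 := by
    refine Kl_eq_zero hg (Kl_sub hb hb') ?_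
    intro i hi
    have := congr_fun hbb ⟨i, hi⟩
    simp only at this
    have h3 : Fin.castLE hN ⟨i, hi⟩ = i := Fin.ext rfl
    rw [h3] at this
    rw [Pi.sub_apply, this, sub_self]
  exact sub_eq_zero.1 h2

open Classical in
/-- [C2] -/
lemma card_killed [Fintype K] {N : ℕ} (a : Fin N → K) {m R : ℕ} (hm : rk a ≤ m) (hmN : m ≤ N)
    (hR : R ≤ rk a) (hR' : R + m ≤ N + 1) :
    (Finset.univ.filter fun c : Fin (N + 1 - m) → K => Kl a (pol c) m).card
      ≤ Fintype.card K ^ (N + 1 - m - R) := by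
  have h1 : Fintype.card K ^ (N + 1 - m - R) =
      (Finset.univ : Finset (Fin (N + 1 - m - R) → K)).card := by
    rw [Finset.card_univ]; simp
  rw [h1]
  have key : ∀ c : Fin (N + 1 - m) → K, Kl a (pol c) m →
      ∃ u : K[X], pol c = Qm a * u ∧ (u ≠ 0 → u.natDegree < N + 1 - m - R) := by
    intro c hc
    by_cases h0 : pol c = 0
    · exact ⟨0, by rw [h0, mul_zero], fun h => absurd rfl h⟩
    · have hd : (pol c).natDegree ≤ N - m := by
        have := pol_natDegree_lt (m := N + 1 - m) (by omega) c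
        omega
      obtain ⟨u, hu, _, hd'⟩ := Qm_quot a hm hmN hd hc h0
      exact ⟨u, hu, fun _ => by omega⟩
  refine Finset.card_le_card_of_injOn
    (fun c i => ((pol c) /ₘ (Qm a)).coeff (i : ℕ)) (fun _ _ => Finset.mem_coe.2
    (Finset.mem_univ _)) ?_
  intro c hc c' hc' hcc
  simp only [Finset.coe_filter, Finset.mem_univ, true_and, Set.mem_ofPred_eq] at hc hc'
  obtain ⟨u, hu, hd⟩ := key c hc
  obtain ⟨u', hu', hd'⟩ := key c' hc'
  have hq : ∀ (c : Fin (N + 1 - m) → K) (u : K[X]), pol c = Qm a * u → (pol c) /ₘ (Qm a) = u := by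
    intro c u hu
    rw [hu]
    exact mul_divByMonic_cancel_left u (Qm_monic a)
  have huu : u = u' := by
    ext i
    by_cases hi : i < N + 1 - m - R
    · have := congr_fun hcc ⟨i, hi⟩
      simp only at this
      rwa [hq c u hu, hq c' u' hu'] at this
    · have h2 : ∀ v : K[X], (v ≠ 0 → v.natDegree < N + 1 - m - R) → v.coeff i = 0 := by
        intro v hv
        by_cases h0 : v = 0
        · rw [h0, coeff_zero]
        · exact coeff_eq_zero_of_natDegree_lt (by have := hv h0; omega)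
      rw [h2 u hd, h2 u' hd']
  apply pol_injective
  rw [hu, hu', huu]

/-! ### monic gcd -/

open Classical in
/-- monic gcd. -/
noncomputable def gd (Q b : K[X]) : K[X] :=
  EuclideanDomain.gcd Q b * C (EuclideanDomain.gcd Q b).leadingCoeff⁻¹

lemma gd_spec (Q b : K[X]) (hb : b ≠ 0) :
    (gd Q b).Monic ∧ ∃ Q' b' : K[X], Q = gd Q b * Q' ∧ b = gd Q b * b' ∧ IsCoprime Q' b' := by
  classical
  set e := EuclideanDomain.gcd Q b with he
  obtain ⟨Q', hQ'⟩ : e ∣ Q := EuclideanDomain.gcd_dvd_left Q b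
  obtain ⟨b', hb'⟩ : e ∣ b := EuclideanDomain.gcd_dvd_right Q b
  have he0 : e ≠ 0 := by
    intro h0; rw [h0, zero_mul] at hb'; exact hb hb'
  have hlc : e.leadingCoeff ≠ 0 := leadingCoeff_ne_zero.2 he0
  have hgd : gd Q b = e * C e.leadingCoeff⁻¹ := by
    rfl
  refine ⟨by rw [hgd]; exact monic_mul_leadingCoeff_inv he0, C e.leadingCoeff * Q',
    C e.leadingCoeff * b', ?_, ?_, ?_⟩
  · rw [hgd]
    have : C e.leadingCoeff⁻¹ * C e.leadingCoeff = (1 : K[X]) := by
      rw [← C_mul, inv_mul_cancel₀ hlc, C_1]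
    linear_combination hQ' - e * Q' * this
  · rw [hgd]
    have : C e.leadingCoeff⁻¹ * C e.leadingCoeff = (1 : K[X]) := by
      rw [← C_mul, inv_mul_cancel₀ hlc, C_1]
    linear_combination hb' - e * b' * this
  · have hcop : IsCoprime Q' b' := by
      have h1 := EuclideanDomain.gcd_eq_gcd_ab Q b
      refine ⟨EuclideanDomain.gcdA Q b, EuclideanDomain.gcdB Q b, ?_⟩
      apply mul_left_cancel₀ he0
      rw [mul_one]
      calc e * (EuclideanDomain.gcdA Q b * Q' + EuclideanDomain.gcdB Q b * b')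
          = (e * Q') * EuclideanDomain.gcdA Q b + (e * b') * EuclideanDomain.gcdB Q b := by ring
        _ = Q * EuclideanDomain.gcdA Q b + b * EuclideanDomain.gcdB Q b := by rw [← hQ', ← hb']
        _ = e := h1.symm
    have hu : IsUnit (C e.leadingCoeff : K[X]) := isUnit_C.2 (isUnit_iff_ne_zero.2 hlc)
    exact (isCoprime_mul_unit_left hu Q' b').2 hcop

lemma gd_monic (Q b : K[X]) (hb : b ≠ 0) : (gd Q b).Monic := (gd_spec Q b hb).1
lemma gd_dvd_left (Q b : K[X]) (hb : b ≠ 0) : gd Q b ∣ Q := by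
  obtain ⟨_, Q', b', h, _, _⟩ := gd_spec Q b hb
  exact ⟨Q', h⟩
lemma gd_dvd_right (Q b : K[X]) (hb : b ≠ 0) : gd Q b ∣ b := by
  obtain ⟨_, Q', b', _, h, _⟩ := gd_spec Q b hb
  exact ⟨b', h⟩

lemma gd_half {Q α β : K[X]} (hQ : Q.Monic) (hα : α ≠ 0) (hβ : β ≠ 0) (h : IsCoprime α β) :
    (gd Q α).natDegree + (gd Q β).natDegree ≤ Q.natDegree := by
  have h1 : IsCoprime (gd Q α) (gd Q β) :=
    h.of_isCoprime_of_dvd_left (gd_dvd_right Q α hα) |>.of_isCoprime_of_dvd_right
      (gd_dvd_right Q β hβ)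
  have h2 : gd Q α * gd Q β ∣ Q := h1.mul_dvd (gd_dvd_left Q α hα) (gd_dvd_left Q β hβ)
  have h3 := natDegree_le_of_dvd h2 hQ.ne_zero
  rwa [natDegree_mul (gd_monic Q α hα).ne_zero (gd_monic Q β hβ).ne_zero] at h3

/-! ### multiplication by `β` -/

/-- the functional `h ↦ a (β h)`. -/
noncomputable def Bm {N : ℕ} (a : Fin N → K) (β : K[X]) : Fin (N - β.natDegree) → K :=
  fun j => Lf a (β * X ^ (j : ℕ))

lemma Bm_apply {N : ℕ} (a : Fin N → K) (β h : K[X]) (hh : h.natDegree < N - β.natDegree) :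
    Lf (Bm a β) h = Lf a (β * h) := by
  obtain ⟨c, rfl⟩ := exists_pol' h hh
  rw [Lf_apply]
  conv_rhs => rw [pol_apply, Finset.mul_sum, map_sum]
  refine Finset.sum_congr rfl fun j _ => ?_
  rw [pol_coeff, ← C_mul_X_pow_eq_monomial, mul_left_comm, ← smul_eq_C_mul, map_smul, smul_eq_mul,
    mul_comm]
  rfl

/-- the annihilator in the fibre. -/
lemma Qm_fib {N : ℕ} (a : Fin N → K) (β : K[X]) (hβ : β.Monic) {R : ℕ} (hR : rk a ≤ R)
    (hN : 2 * R + β.natDegree ≤ N) : Qm a = gd (Qm a) β * Qm (Bm a β) := by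
  obtain ⟨hg, Q', b', hQ', hb', hcop⟩ := gd_spec (Qm a) β hβ.ne_zero
  set g := gd (Qm a) β with hgdef
  have hQ0 : Qm a ≠ 0 := (Qm_monic a).ne_zero
  have hQ'0 : Q' ≠ 0 := by
    intro h0; rw [h0, mul_zero] at hQ'; exact hQ0 hQ'
  have hb'0 : b' ≠ 0 := by
    intro h0; rw [h0, mul_zero] at hb'; exact hβ.ne_zero hb'
  have hQ'm : Q'.Monic := hg.of_mul_monic_left (by rw [← hQ']; exact Qm_monic a)
  have hdQ : (Qm a).natDegree = g.natDegree + Q'.natDegree := by
    conv_lhs => rw [hQ']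
    rw [natDegree_mul hg.ne_zero hQ'0]
  have hdb : β.natDegree = g.natDegree + b'.natDegree := by
    conv_lhs => rw [hb']
    rw [natDegree_mul hg.ne_zero hb'0]
  have hQr := Qm_deg a
  set η := Bm a β with hη
  have hk : Kl η Q' (N - β.natDegree - (rk a - g.natDegree)) := by
    intro h hh
    rw [hη, Bm_apply]
    · have : β * (Q' * h) = Qm a * (b' * h) := by
        conv_lhs => rw [hb']
        conv_rhs => rw [hQ']
        ring
      rw [this]
      refine Qm_kl a _ ?_
      by_cases hh0 : h = 0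
      · rw [hh0, mul_zero, natDegree_zero]; omega
      · rw [natDegree_mul hb'0 hh0]; omega
    · by_cases hh0 : h = 0
      · rw [hh0, mul_zero, natDegree_zero]; omega
      · rw [natDegree_mul hQ'0 hh0]; omega
  have hrη : rk η ≤ rk a - g.natDegree := rk_le_of hQ'0 (by omega) hk
  have h1 : Qm η ∣ Q' := Qm_dvd η (m := N - β.natDegree - (rk a - g.natDegree)) (by omega)
    (by omega) (by omega) hk
  have h2 : Qm a ∣ β * Qm η := by
    refine Qm_dvd a (m := N - β.natDegree - rk η) (by omega) (by omega) ?_ ?_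
    · rw [natDegree_mul hβ.ne_zero (Qm_monic η).ne_zero]
      have := Qm_deg η
      omega
    · intro h hh
      rw [mul_assoc, ← Bm_apply]
      · exact Qm_kl η h hh
      · by_cases hh0 : h = 0
        · rw [hh0, mul_zero, natDegree_zero]; omega
        · rw [natDegree_mul (Qm_monic η).ne_zero hh0]
          have := Qm_deg η
          omega
  have h3 : Q' ∣ Qm η := by
    have h4 : g * Q' ∣ g * (b' * Qm η) := by
      rw [← hQ', ← mul_assoc, ← hb']
      exact h2
    have h5 : Q' ∣ b' * Qm η := (mul_dvd_mul_iff_left hg.ne_zero).1 h4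
    exact hcop.dvd_of_dvd_mul_left h5
  have h6 : Q' = Qm η :=
    eq_of_monic_of_associated hQ'm (Qm_monic η) (associated_of_dvd_dvd h3 h1)
  conv_lhs => rw [hQ', h6]

/-- a functional killed by `Q` and by `β` is killed by the gcd. -/
lemma Kl_gd {N : ℕ} (c : Fin N → K) {Q β : K[X]} (hQ0 : Q ≠ 0) (hβ : β.Monic) {r : ℕ}
    (hQr : Q.natDegree ≤ r) (h1 : Kl c Q (N - r)) (h2 : ∀ h : K[X], h.natDegree < N - β.natDegree →
      Lf c (β * h) = 0) (hN : 2 * r + β.natDegree ≤ N) (hβN : β.natDegree < N - r) :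
    Kl c (gd Q β) (N - (gd Q β).natDegree) := by
  obtain ⟨hg, Q', b', hQ', hb', hcop⟩ := gd_spec Q β hβ.ne_zero
  set g := gd Q β with hgdef
  have hQ'0 : Q' ≠ 0 := by
    intro h0; rw [h0, mul_zero] at hQ'; exact hQ0 hQ'
  have hb'0 : b' ≠ 0 := by
    intro h0; rw [h0, mul_zero] at hb'; exact hβ.ne_zero hb'
  have hdQ : Q.natDegree = g.natDegree + Q'.natDegree := by
    conv_lhs => rw [hQ']
    rw [natDegree_mul hg.ne_zero hQ'0]
  have hdb : β.natDegree = g.natDegree + b'.natDegree := by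
    conv_lhs => rw [hb']
    rw [natDegree_mul hg.ne_zero hb'0]
  intro u hu
  by_cases hb0 : b'.natDegree = 0
  · -- then b' is a constant
    have hb1 : b' = 1 := by
      have hm : b'.Monic := hg.of_mul_monic_left (by rw [← hb']; exact hβ)
      exact hm.natDegree_eq_zero.1 hb0
    have hgb : g = β := by rw [hb', hb1, mul_one]
    rw [hgb]
    exact h2 u (by rw [hgb] at hu; exact hu)
  · -- u = Q' α' + b' β'
    obtain ⟨α, γ, h3, h4, h5, h6⟩ := bez (d' := g) (Q' := b') (g' := Q') (u := u)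
      (k := N - β.natDegree) hcop.symm hb'0 (by omega) (by omega) (by omega)
    rw [h3, ← hQ', ← hb', map_add, h1 α (by omega), zero_add]
    exact h2 γ (h6 (by omega))

open Classical in
/-- [C3] the size of the fibres. -/
lemma card_fib [Fintype K] {N : ℕ} (β : K[X]) (hβ : β.Monic) {R t : ℕ}
    (hN : 2 * R + β.natDegree ≤ N) (hN' : β.natDegree < N - R) (𝒟 : Finset K[X])
    (h𝒟 : ∀ g : K[X], g.Monic → g ∣ β → g ∈ 𝒟) (η : Fin (N - β.natDegree) → K) :
    (Finset.univ.filter fun a : Fin N → K => Bm a β = η ∧ rk a ≤ R ∧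
      (gd (Qm a) β).natDegree ≤ t).card ≤ Fintype.card K ^ t * 𝒟.card := by
  set s := Finset.univ.filter fun a : Fin N → K => Bm a β = η ∧ rk a ≤ R ∧
      (gd (Qm a) β).natDegree ≤ t with hs
  have hq : 0 < Fintype.card K := Fintype.card_pos
  refine le_trans (Finset.card_le_mul_card_image (f := fun a => gd (Qm a) β) s
    (Fintype.card K ^ t) ?_) (Nat.mul_le_mul_left _ (Finset.card_le_card ?_))
  · intro g hg
    obtain ⟨a₀, ha₀, hg0⟩ := Finset.mem_image.1 hg
    rw [hs, Finset.mem_filter] at ha₀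
    have hgm : g.Monic := by rw [← hg0]; exact gd_monic _ _ hβ.ne_zero
    have hgd : g.natDegree ≤ t := by rw [← hg0]; exact ha₀.2.2.2
    have hgN : g.natDegree ≤ N := by
      have h7 : g ∣ β := by rw [← hg0]; exact gd_dvd_right _ _ hβ.ne_zero
      have := natDegree_le_of_dvd h7 hβ.ne_zero
      omega
    refine le_trans ?_ (le_trans (card_kl hgm hgN) (Nat.pow_le_pow_right hq hgd))
    refine Finset.card_le_card_of_injOn (fun a => a - a₀) ?_ ?_
    · intro a ha
      simp only [Finset.coe_filter, Set.mem_ofPred_eq, hs, Finset.mem_filter, Finset.mem_univ,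
        true_and] at ha ⊢
      obtain ⟨⟨ha1, ha2, ha3⟩, ha4⟩ := ha
      have hQ1 := Qm_fib a β hβ ha2 hN
      have hQ2 := Qm_fib a₀ β hβ ha₀.2.2.1 hN
      have hQQ : Qm a = Qm a₀ := by
        rw [hQ1, hQ2, ha4, hg0, ha1, ha₀.2.1]
      have hkl : Kl (a - a₀) (Qm a) (N - R) := by
        refine Kl_sub ((Qm_kl a).mono (by omega)) ?_
        rw [hQQ]
        exact (Qm_kl a₀).mono (by have := ha₀.2.2.1; omega)
      have := Kl_gd (a - a₀) (Qm_monic a).ne_zero hβ (r := R) ((Qm_deg a).trans ha2) hkl ?_ hN hN'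
      · rw [ha4] at this
        exact this
      · intro h hh
        rw [Lf_sub_left, ← Bm_apply a β h hh, ← Bm_apply a₀ β h hh, ha1, ha₀.2.1, sub_self]
    · intro a _ a' _ haa
      exact sub_left_injective haa
  · intro g hg
    obtain ⟨a, ha, rfl⟩ := Finset.mem_image.1 hg
    exact h𝒟 _ (gd_monic _ _ hβ.ne_zero) (gd_dvd_right _ _ hβ.ne_zero)

end Pool.Agent.H366.GF
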