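import Pool.Agent.H366.GF.AI2
import Pool.Agent.H366.GF.Key3
import Pool.Agent.H366.GF.Fin

/-! # The duality statement for `K(x)`, `K` a finite field -/

set_option autoImplicit false

namespace Pool.Agent.H366.GF

open H39Gon

/-- for a finite field `K` and every `m` the duality statement holds for `K(x)`. -/
theorem span_finite (K : Type) [Field K] [Finite K] (m : ℕ) : SpanDual (RatFunc K) m := by
  have := Fintype.ofFinite K
  exact FIN K m (KEY_of (AI_true K) m)

end Pool.Agent.H366.GF
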